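import Mathlib
import Pool.Agent.TH551.SU.Stms
import Pool.Agent.TH551.SU.Norm

/-!
# Places of the field of germs of rational sequences, relative to a scale `L`
-/

set_option autoImplicit false

namespace Pool.Agent.Y724.Vj

open Filter Topology Pool.Agent.TH932.Germs

variable {L : ℕ → ℝ}

/-- the germs of size at most `exp (o(L))` for the absolute value `w` -/
noncomputable def OO (L : ℕ → ℝ) (hL : Tendsto L atTop atTop) (w : AbsoluteValue ℚ ℝ) :
    ValuationSubring GG where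
  carrier := {g | ∃ a : ℕ → ℚ, g = gm a ∧ ∀ ε : ℝ, 0 < ε → ∀ᶠ n in (UU : Filter ℕ),
    w (a n) ≤ Real.exp (ε * L n)}
  mul_mem' := by
    rintro _ _ ⟨a, rfl, ha⟩ ⟨b, rfl, hb⟩
    refine ⟨fun n => a n * b n, gm_mul a b, fun ε hε => ?_⟩
    filter_upwards [ha (ε / 2) (by positivity), hb (ε / 2) (by positivity)] with n h1 h2
    rw [map_mul]
    calc w (a n) * w (b n) ≤ Real.exp (ε / 2 * L n) * Real.exp (ε / 2 * L n) :=
          mul_le_mul h1 h2 (w.nonneg _) (Real.exp_pos _).le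
      _ = Real.exp (ε * L n) := by rw [← Real.exp_add]; ring_nf
  one_mem' := by
    refine ⟨fun _ => 1, gm_one.symm, fun ε hε => ?_⟩
    filter_upwards [L_nonneg hL] with n hn
    rw [map_one]
    exact Real.one_le_exp (by positivity)
  add_mem' := by
    rintro _ _ ⟨a, rfl, ha⟩ ⟨b, rfl, hb⟩
    refine ⟨fun n => a n + b n, gm_add a b, fun ε hε => ?_⟩
    filter_upwards [ha (ε / 2) (by positivity), hb (ε / 2) (by positivity),
      two_le_exp hL (show 0 < ε / 2 by positivity)] with n h1 h2 h3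
    calc w (a n + b n) ≤ w (a n) + w (b n) := w.add_le _ _
      _ ≤ Real.exp (ε / 2 * L n) + Real.exp (ε / 2 * L n) := add_le_add h1 h2
      _ = 2 * Real.exp (ε / 2 * L n) := by ring
      _ ≤ Real.exp (ε / 2 * L n) * Real.exp (ε / 2 * L n) := by gcongr
      _ = Real.exp (ε * L n) := by rw [← Real.exp_add]; ring_nf
  zero_mem' := by
    refine ⟨fun _ => 0, gm_zero.symm, fun ε hε => Eventually.of_forall fun n => ?_⟩
    rw [map_zero]
    exact (Real.exp_pos _).le
  neg_mem' := by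
    rintro _ ⟨a, rfl, ha⟩
    refine ⟨fun n => -a n, gm_neg a, fun ε hε => ?_⟩
    filter_upwards [ha ε hε] with n hn
    rw [w.map_neg]
    exact hn
  mem_or_inv_mem' := by
    intro x
    obtain ⟨a, rfl⟩ := gm_surj x
    by_cases h : ∀ ε : ℝ, 0 < ε → ∀ᶠ n in (UU : Filter ℕ), w (a n) ≤ Real.exp (ε * L n)
    · exact Or.inl ⟨a, rfl, h⟩
    · right
      push Not at h
      obtain ⟨ε, hε, h⟩ := h
      refine ⟨fun n => (a n)⁻¹, gm_inv a, fun ε' hε' => ?_⟩
      filter_upwards [h, L_nonneg hL] with n h2 h3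
      rw [map_inv₀]
      have h4 : (1 : ℝ) ≤ Real.exp (ε * L n) := Real.one_le_exp (by positivity)
      have h5 : (1 : ℝ) ≤ Real.exp (ε' * L n) := Real.one_le_exp (by positivity)
      exact (inv_le_one_of_one_le₀ (h4.trans h2.le)).trans h5

variable (hL : Tendsto L atTop atTop) (w : AbsoluteValue ℚ ℝ)

lemma mem_OO {a : ℕ → ℚ} : gm a ∈ OO L hL w ↔
    ∀ ε : ℝ, 0 < ε → ∀ᶠ n in (UU : Filter ℕ), w (a n) ≤ Real.exp (ε * L n) := by
  constructor
  · rintro ⟨b, hb, h⟩ ε hε
    filter_upwards [gm_eq.1 hb, h ε hε] with n h1 h2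
    rw [h1]; exact h2
  · intro h; exact ⟨a, rfl, h⟩

/-- inequality of valuations, in terms of sequences -/
lemma val_le {a b : ℕ → ℚ} (h : (OO L hL w).valuation (gm a) ≤ (OO L hL w).valuation (gm b))
    (ε : ℝ) (hε : 0 < ε) :
    ∀ᶠ n in (UU : Filter ℕ), w (a n) ≤ w (b n) * Real.exp (ε * L n) := by
  by_cases hb : gm b = 0
  · rw [hb, map_zero] at h
    have h1 : gm a = 0 := by
      have := le_antisymm h zero_le
      rwa [map_eq_zero] at this
    rw [← gm_zero, gm_eq] at h1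
    filter_upwards [h1] with n hn
    rw [hn, map_zero]
    have := w.nonneg (b n)
    positivity
  · have h1 : (OO L hL w).valuation (gm a / gm b) ≤ 1 := by
      rw [map_div₀]
      exact div_le_one_of_le₀ h zero_le
    rw [ValuationSubring.valuation_le_one_iff, gm_div, mem_OO] at h1
    filter_upwards [h1 ε hε, gm_ne_zero.1 hb] with n h2 h3
    rw [map_div₀, div_le_iff₀ (w.pos h3)] at h2
    linarith

lemma le_val {a b : ℕ → ℚ} (h : ∀ ε : ℝ, 0 < ε → ∀ᶠ n in (UU : Filter ℕ),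
    w (a n) ≤ w (b n) * Real.exp (ε * L n)) :
    (OO L hL w).valuation (gm a) ≤ (OO L hL w).valuation (gm b) := by
  by_cases hb : gm b = 0
  · have h1 : gm a = 0 := by
      rw [← gm_zero, gm_eq] at hb ⊢
      filter_upwards [hb, h 1 one_pos] with n hn h2
      rw [hn, map_zero, zero_mul] at h2
      exact (w.eq_zero).1 (le_antisymm h2 (w.nonneg _))
    rw [h1, map_zero]
    exact zero_le
  · have h1 : gm a / gm b ∈ OO L hL w := by
      rw [gm_div, mem_OO]
      intro ε hε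
      filter_upwards [h ε hε, gm_ne_zero.1 hb] with n h2 h3
      rw [map_div₀, div_le_iff₀ (w.pos h3)]
      linarith
    rw [← ValuationSubring.valuation_le_one_iff, map_div₀] at h1
    have h2 : 0 < (OO L hL w).valuation (gm b) := by
      rw [zero_lt_iff]
      exact (Valuation.ne_zero_iff _).2 hb
    rwa [div_le_one₀ h2] at h1

/-- the places of interest: absolute values `w` with `w m ≤ |m|` and `1 ≤ |m| * w m` for nonzero
integers -/
structure Pl (w : AbsoluteValue ℚ ℝ) : Prop where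
  le : ∀ m : ℤ, w (m : ℚ) ≤ max 1 |(m : ℝ)|
  ge : ∀ m : ℤ, m ≠ 0 → 1 ≤ |(m : ℝ)| * w (m : ℚ)

variable {w}

lemma KK_le (hw : Pl w) {g : GG} (hg : g ∈ KK L hL) : g ∈ OO L hL w := by
  obtain ⟨m, d, hm, hd, hd0, rfl⟩ := hg
  rw [mem_OO]
  intro ε hε
  filter_upwards [hm (ε / 2) (by positivity), hd (ε / 2) (by positivity), hd0,
    L_nonneg hL] with n h1 h2 h3 h4
  rw [map_div₀]
  have h5 := hw.ge _ h3
  have h6 := hw.le (m n)
  have h7 : (1 : ℝ) ≤ Real.exp (ε / 2 * L n) := Real.one_le_exp (by positivity)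
  have h8 : w (m n : ℚ) ≤ Real.exp (ε / 2 * L n) := h6.trans (max_le h7 h1)
  have hd0' : (d n : ℚ) ≠ 0 := by exact_mod_cast h3
  have h9 : 0 < w (d n : ℚ) := w.pos hd0'
  rw [div_le_iff₀ h9]
  have h10 : (1 : ℝ) ≤ Real.exp (ε / 2 * L n) * w (d n : ℚ) :=
    h5.trans (mul_le_mul_of_nonneg_right h2 h9.le)
  calc w (m n : ℚ) ≤ Real.exp (ε / 2 * L n) := h8
    _ = Real.exp (ε / 2 * L n) * 1 := by ring
    _ ≤ Real.exp (ε / 2 * L n) * (Real.exp (ε / 2 * L n) * w (d n : ℚ)) :=
        mul_le_mul_of_nonneg_left h10 (Real.exp_pos _).le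
    _ = Real.exp (ε * L n) * w (d n : ℚ) := by
        rw [← mul_assoc, ← Real.exp_add]; ring_nf

lemma val_KK_le (hw : Pl w) {g : GG} (hg : g ∈ KK L hL) : (OO L hL w).valuation g ≤ 1 :=
  ((OO L hL w).valuation_le_one_iff g).2 (KK_le hL hw hg)

lemma val_KK (hw : Pl w) {g : GG} (hg : g ∈ KK L hL) (h0 : g ≠ 0) :
    (OO L hL w).valuation g = 1 := by
  apply le_antisymm (val_KK_le hL hw hg)
  have h1 := val_KK_le hL hw ((KK L hL).inv_mem hg)
  rw [map_inv₀] at h1
  have h2 : 0 < (OO L hL w).valuation g := by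
    rw [zero_lt_iff]
    exact (Valuation.ne_zero_iff _).2 h0
  rwa [inv_le_one₀ h2] at h1

/-- `g / h` in the negligible field gives equality of valuations -/
lemma val_eq_of_div (hw : Pl w) {g h : GG} (hh : h ≠ 0) (hg : g ≠ 0) (hq : g / h ∈ KK L hL) :
    (OO L hL w).valuation g = (OO L hL w).valuation h := by
  have h1 := val_KK hL hw hq (div_ne_zero hg hh)
  rw [map_div₀] at h1
  have h2 : (OO L hL w).valuation h ≠ 0 := (Valuation.ne_zero_iff _).2 hh
  rwa [div_eq_one_iff_eq h2] at h1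

lemma pl_real : Pl Rat.AbsoluteValue.real where
  le := fun m => by
    have h1 : Rat.AbsoluteValue.real (m : ℚ) = |(m : ℝ)| := by
      rw [Rat.AbsoluteValue.real_eq_abs]
      push_cast
      rfl
    rw [h1]
    exact le_max_right _ _
  ge := fun m hm => by
    have h1 : Rat.AbsoluteValue.real (m : ℚ) = |(m : ℝ)| := by
      rw [Rat.AbsoluteValue.real_eq_abs]
      push_cast
      rfl
    rw [h1]
    have h2 : (1 : ℝ) ≤ |(m : ℝ)| := by exact_mod_cast Int.one_le_abs hm
    nlinarith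

lemma padic_int_le (p : ℕ) [Fact p.Prime] (m : ℤ) : Rat.AbsoluteValue.padic p (m : ℚ) ≤ 1 := by
  rw [Rat.AbsoluteValue.padic_eq_padicNorm]
  exact_mod_cast padicNorm.of_int m

lemma padic_int_ge (p : ℕ) [Fact p.Prime] (m : ℤ) (hm : m ≠ 0) :
    1 ≤ |(m : ℝ)| * Rat.AbsoluteValue.padic p (m : ℚ) := by
  rw [Rat.AbsoluteValue.padic_eq_padicNorm]
  have hmq : (m : ℚ) ≠ 0 := by exact_mod_cast hm
  rw [padicNorm.eq_zpow_of_nonzero hmq, padicValRat.of_int]
  push_cast
  have hp : (0 : ℝ) < p := by exact_mod_cast (Fact.out : p.Prime).pos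
  rw [zpow_neg, zpow_natCast, ← div_eq_mul_inv, one_le_div (by positivity)]
  have h1 : (p : ℤ) ^ padicValInt p m ∣ m := padicValInt_dvd m
  have h2 := Int.le_of_dvd (abs_pos.2 hm) ((dvd_abs _ _).2 h1)
  exact_mod_cast h2

lemma pl_padic (p : ℕ) [Fact p.Prime] : Pl (Rat.AbsoluteValue.padic p) where
  le := fun m => (padic_int_le p m).trans (le_max_left _ _)
  ge := fun m hm => padic_int_ge p m hm

end Pool.Agent.Y724.Vj
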