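import Mathlib
import Pool.Agent.Y724.Vj.Val
import Pool.Agent.TH551.SU.Sui

/-!
# A combination of S-unit germs with negligible coefficients is not smaller than its terms
-/

set_option autoImplicit false

namespace Pool.Agent.Y724.Vj

open Filter Topology Pool.Agent.TH932.Germs Pool.Agent.TH551.SU Pool.Agent.TH461.SST
open Pool.Agent.TH551.SU.SUI

variable {L : ℕ → ℝ}

/-- the absolute values at the places: `none` is the real place -/
noncomputable def wv {s : ℕ} (b : Fin s → ℕ) (hb : ∀ v, (b v).Prime) :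
    Option (Fin s) → AbsoluteValue ℚ ℝ
  | none => Rat.AbsoluteValue.real
  | some v => haveI := Fact.mk (hb v); Rat.AbsoluteValue.padic (b v)

lemma pl_wv {s : ℕ} (b : Fin s → ℕ) (hb : ∀ v, (b v).Prime) (v : Option (Fin s)) :
    Pl (wv b hb v) := by
  cases v with
  | none => exact pl_real
  | some v =>
    have := Fact.mk (hb v)
    exact pl_padic (b v)

/-- germs of rational numbers of height `O(L)` -/
def Bd (L : ℕ → ℝ) (g : GG) : Prop :=
  ∃ (m d : ℕ → ℤ) (A : ℝ), (∀ᶠ n in (UU : Filter ℕ), |(m n : ℝ)| ≤ Real.exp (A * L n)) ∧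
    (∀ᶠ n in (UU : Filter ℕ), |(d n : ℝ)| ≤ Real.exp (A * L n)) ∧
    (∀ᶠ n in (UU : Filter ℕ), d n ≠ 0) ∧ g = gm fun n => (m n : ℚ) / d n

/-- the identity matrix with the row `i0` replaced by ones -/
def Rk {m : ℕ} (i0 : Fin m) : Matrix (Fin m) (Fin m) ℤ :=
  fun l j => if l = i0 then 1 else if j = l then 1 else 0

lemma Rk_self {m : ℕ} (i0 : Fin m) (x : Fin m → ℤ) : ∑ j, Rk i0 i0 j * x j = ∑ j, x j := by
  refine Finset.sum_congr rfl fun j _ => ?_
  unfold Rk
  rw [if_pos rfl, one_mul]

lemma Rk_ne {m : ℕ} (i0 l : Fin m) (h : l ≠ i0) (x : Fin m → ℤ) :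
    ∑ j, Rk i0 l j * x j = x l := by
  rw [Finset.sum_eq_single l]
  · unfold Rk
    rw [if_neg h, if_pos rfl, one_mul]
  · intro j _ hj
    unfold Rk
    rw [if_neg h, if_neg hj, zero_mul]
  · intro h'
    exact absurd (Finset.mem_univ _) h'

lemma Rk_det {m : ℕ} (i0 : Fin m) : (Rk i0).det ≠ 0 := by
  intro h
  obtain ⟨x, hx, h1⟩ := Matrix.exists_mulVec_eq_zero_iff.2 h
  apply hx
  have h2 : ∀ l, l ≠ i0 → x l = 0 := by
    intro l hl
    rw [← Rk_ne i0 l hl x]
    exact congrFun h1 l
  have h3 : ∑ j, x j = 0 := by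
    rw [← Rk_self i0 x]
    exact congrFun h1 i0
  funext l
  by_cases hl : l = i0
  · rw [Finset.sum_eq_single i0 (fun j _ hj => h2 j hj)
      (fun h' => absurd (Finset.mem_univ _) h')] at h3
    rw [hl]
    exact h3
  · exact h2 l hl

lemma one_row {m : ℕ} (l : Fin m) (x : Fin m → ℤ) :
    ∑ j, (1 : Matrix (Fin m) (Fin m) ℤ) l j * x j = x l := by
  rw [Finset.sum_eq_single l (fun j _ hj => by
    rw [Matrix.one_apply_ne (Ne.symm hj), zero_mul])
    (fun h => absurd (Finset.mem_univ _) h), Matrix.one_apply_eq, one_mul]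

/-- the good indices of the sequence -/
structure GoodI {s m : ℕ} (b : Fin s → ℕ) (hb : ∀ v, (b v).Prime) (v0 : Option (Fin s))
    (i0 : Fin (m + 1)) (A ε : ℝ) (L : ℕ → ℝ) (C : Fin (m + 1) → ℕ → ℤ)
    (U : ℕ → Fin (m + 1) → ℤ) (n : ℕ) : Prop where
  size : ∀ l, Real.log |(U n l : ℝ)| ≤ A * L n
  ne : ∀ i, C i n ≠ 0
  small : ∀ i, |(C i n : ℝ)| ≤ Real.exp (ε / (4 * (m + 1)) * L n)
  key : wv b hb v0 ((∑ i, C i n * U n i : ℤ) : ℚ) * Real.exp (ε * L n) < wv b hb v0 (U n i0 : ℚ)
  large : 1 ≤ L n
  large2 : ∀ v, Real.log (b v) ≤ ε / 2 * L n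

/-- the subspace theorem for the good indices -/
lemma apply_sst' {s m : ℕ} (b : Fin s → ℕ) (hb : ∀ v, (b v).Prime)
    (hbi : Function.Injective b) (v0 : Option (Fin s)) (i0 : Fin (m + 1)) (A ε : ℝ) (hA : 0 ≤ A)
    (hε : 0 < ε) (L : ℕ → ℝ) (hL : Tendsto L atTop atTop)
    (C : Fin (m + 1) → ℕ → ℤ)
    (U : ℕ → Fin (m + 1) → ℤ) (e : ℕ → Fin s → Fin (m + 1) → ℕ)
    (hUe : ∀ n i, |(U n i : ℝ)| = ∏ v, (b v : ℝ) ^ (e n v i))
    (hdv : ∀ n i v, (b v : ℤ) ^ (e n v i) ∣ U n i) (ν : ℕ → ℕ)
    (hν : Tendsto ν atTop atTop) (hg : ∀ t, GoodI b hb v0 i0 A ε L C U (ν t)) :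
    ∃ y : Fin (m + 1) → ℤ, y ≠ 0 ∧ ∃ᶠ t in atTop,
      ∑ l, y l * (C l (ν t) * U (ν t) l) = 0 := by
  classical
  have hb2 : ∀ v, 2 ≤ b v := fun v => (hb v).two_le
  have hlb : ∀ v, 0 < Real.log (b v) := fun v => Real.log_pos (by exact_mod_cast hb2 v)
  have hU1 : ∀ n i, 1 ≤ |(U n i : ℝ)| := by
    intro n i
    have h1 : U n i ≠ 0 := by
      intro h2
      have h3 := hUe n i
      rw [h2, Int.cast_zero, abs_zero] at h3
      have h4 : (0 : ℝ) < ∏ v, (b v : ℝ) ^ (e n v i) := Finset.prod_pos fun v _ => by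
        have := hb2 v
        positivity
      linarith
    exact_mod_cast Int.one_le_abs h1
  have hlU : ∀ n i, Real.log |(U n i : ℝ)| = ∑ v, (e n v i : ℝ) * Real.log (b v) := by
    intro n i
    rw [hUe, Real.log_prod]
    · exact Finset.sum_congr rfl fun v _ => Real.log_pow _ _
    · intro v _
      have := hb2 v
      positivity
  have hm1 : (0 : ℝ) < 4 * ((m : ℝ) + 1) := by positivity
  set δ : ℝ := ε / (4 * ((m : ℝ) + 1)) with hδ
  have hδ0 : 0 < δ := by positivity
  have hmδ : ((m : ℝ) + 1) * δ = ε / 4 := by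
    rw [hδ]
    field_simp
  have hδε : δ ≤ ε := by
    rw [hδ]
    refine div_le_self hε.le ?_
    have : (0 : ℝ) ≤ m := Nat.cast_nonneg m
    linarith
  have hsingle : ∀ n v l, (e n v l : ℝ) * Real.log (b v) ≤ Real.log |(U n l : ℝ)| := by
    intro n v l
    rw [hlU]
    exact Finset.single_le_sum (f := fun v' => (e n v' l : ℝ) *
      Real.log (b v')) (fun v' _ => mul_nonneg (Nat.cast_nonneg _) (hlb v').le)
      (Finset.mem_univ v)
  have hCU : ∀ t l, |((C l (ν t) * U (ν t) l : ℤ) : ℝ)| ≤
      Real.exp (δ * L (ν t)) * |(U (ν t) l : ℝ)| := by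
    intro t l
    push_cast
    rw [abs_mul]
    exact mul_le_mul_of_nonneg_right ((hg t).small l) (abs_nonneg _)
  have hL0 : ∀ t, 0 ≤ L (ν t) := fun t => by linarith [(hg t).large]
  have hX0 : ∀ t, (fun l => C l (ν t) * U (ν t) l) ≠ 0 := by
    intro t h0
    have h1 := congrFun h0 i0
    have h2 : U (ν t) i0 ≠ 0 := by
      intro h3
      have := hU1 (ν t) i0
      rw [h3] at this
      norm_num at this
    exact mul_ne_zero ((hg t).ne _) h2 h1
  -- the sizes
  cases v0 with
  | none =>
    have key : ∀ t, |((∑ i, C i (ν t) * U (ν t) i : ℤ) : ℝ)| ≤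
        Real.exp (-ε * L (ν t)) * |(U (ν t) i0 : ℝ)| := by
      intro t
      have h1 := (hg t).key
      have h2 : ∀ k : ℤ, wv b hb none (k : ℚ) = |(k : ℝ)| := by
        intro k
        change Rat.AbsoluteValue.real (k : ℚ) = _
        rw [Rat.AbsoluteValue.real_eq_abs]
        push_cast
        rfl
      rw [h2, h2] at h1
      have h3 : Real.exp (-ε * L (ν t)) * Real.exp (ε * L (ν t)) = 1 := by
        rw [← Real.exp_add]
        simp
      calc |((∑ i, C i (ν t) * U (ν t) i : ℤ) : ℝ)|
          = Real.exp (-ε * L (ν t)) * (|((∑ i, C i (ν t) * U (ν t) i : ℤ) : ℝ)| *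
              Real.exp (ε * L (ν t))) := by
            rw [mul_comm |_|, ← mul_assoc, h3, one_mul]
        _ ≤ _ := mul_le_mul_of_nonneg_left h1.le (Real.exp_pos _).le
    have hlA : ∀ (r : ℝ) t l, Real.log (Real.exp (r * L (ν t)) * |(U (ν t) l : ℝ)|) =
        r * L (ν t) + Real.log |(U (ν t) l : ℝ)| := by
      intro r t l
      rw [Real.log_mul (Real.exp_pos _).ne' (by have := hU1 (ν t) l; linarith), Real.log_exp]
    refine sst (m + 1) s (by omega) (Rk i0) (fun _ => 1) b
      ⟨Rk_det _, fun v => by simp, hb2, fun v v' hv => (Nat.coprime_primes (hb v) (hb v')).2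
        fun h => hv (hbi h)⟩ (A + ε + 1) (ε / 4) (by linarith) (by positivity)
      (fun t => L (ν t)) (hL.comp hν)
      (fun t v l => e (ν t) v l)
      (fun t l => Real.exp ((if l = i0 then -ε else δ) * L (ν t)) * |(U (ν t) l : ℝ)|)
      ?_ (fun t l => C l (ν t) * U (ν t) l) hX0 ?_
    · intro t
      refine ⟨?_, ?_, ?_, ?_⟩
      · intro v l
        have h1 := hsingle (ν t) v l
        have h2 := (hg t).size l
        have h3 := hL0 t
        nlinarith
      · intro l
        have := hU1 (ν t) l
        positivity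
      · intro l
        rw [hlA]
        have h1 := (hg t).size l
        have h2 := Real.log_nonneg (hU1 (ν t) l)
        have h3 := hL0 t
        rw [abs_le]
        split_ifs
        · constructor <;> nlinarith
        · constructor <;> nlinarith
      · have h1 : ∑ l, Real.log (Real.exp ((if l = i0 then -ε else δ) * L (ν t)) *
            |(U (ν t) l : ℝ)|) = (∑ l : Fin (m + 1), (if l = i0 then -ε else δ)) * L (ν t) +
              ∑ l, Real.log |(U (ν t) l : ℝ)| := by
          rw [Finset.sum_mul, ← Finset.sum_add_distrib]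
          exact Finset.sum_congr rfl fun l _ => hlA _ t l
        have h2 : (∑ l : Fin (m + 1), (if l = i0 then -ε else δ)) ≤ -ε + ((m : ℝ) + 1) * δ := by
          have h3 : ∀ l : Fin (m + 1), (if l = i0 then -ε else δ) ≤
              (if l = i0 then -ε else 0) + δ := by
            intro l
            split_ifs
            · linarith
            · linarith
          refine (Finset.sum_le_sum fun l _ => h3 l).trans (le_of_eq ?_)
          rw [Finset.sum_add_distrib, Finset.sum_ite_eq' Finset.univ i0]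
          simp
        have h3 : ∑ v, ∑ l, (e (ν t) v l : ℝ) * Real.log (b v) =
            ∑ l, Real.log |(U (ν t) l : ℝ)| := by
          rw [Finset.sum_comm]
          exact Finset.sum_congr rfl fun l _ => (hlU _ _).symm
        have h4 := hL0 t
        simp only at h1 h3 ⊢
        rw [h1, h3]
        rw [hmδ] at h2
        nlinarith
    · intro t
      constructor
      · intro l
        by_cases hl : l = i0
        · rw [hl, Rk_self]
          simp only [if_true]
          exact key t
        · rw [Rk_ne _ _ hl]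
          simp only [if_neg hl]
          exact hCU t l
      · intro v l
        change (b v : ℤ) ^ (e (ν t) v l) ∣ ∑ j, (1 : Matrix (Fin (m + 1)) (Fin (m + 1)) ℤ) l j *
          (C j (ν t) * U (ν t) j)
        rw [one_row l fun j => C j (ν t) * U (ν t) j]
        exact Dvd.dvd.mul_left (hdv _ _ _) _
  | some w =>
    have := Fact.mk (hb w)
    set fl : ℕ → ℕ := fun t => ⌊ε * L (ν t) / Real.log (b w)⌋₊ with hfl
    have hfl1 : ∀ t, (fl t : ℝ) * Real.log (b w) ≤ ε * L (ν t) := by
      intro t
      have h1 : 0 ≤ ε * L (ν t) / Real.log (b w) :=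
        div_nonneg (mul_nonneg hε.le (hL0 t)) (hlb w).le
      have h2 := Nat.floor_le h1
      rw [le_div_iff₀ (hlb w)] at h2
      exact h2
    have hfl2 : ∀ t, ε * L (ν t) - Real.log (b w) ≤ (fl t : ℝ) * Real.log (b w) := by
      intro t
      have h2 := (Nat.lt_floor_add_one (ε * L (ν t) / Real.log (b w))).le
      rw [div_le_iff₀ (hlb w)] at h2
      simp only [hfl]
      linarith
    have key : ∀ t, (b w : ℤ) ^ (e (ν t) w i0 + fl t) ∣ ∑ i, C i (ν t) * U (ν t) i := by
      intro t
      have h1 := (hg t).key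
      have h2 : ∀ k : ℤ, wv b hb (some w) (k : ℚ) = ((padicNorm (b w) (k : ℚ) : ℚ) : ℝ) := by
        intro k
        change Rat.AbsoluteValue.padic (b w) (k : ℚ) = _
        rw [Rat.AbsoluteValue.padic_eq_padicNorm]
      rw [h2, h2] at h1
      rw [← Nat.cast_pow, padicNorm.dvd_iff_norm_le]
      have h3 : padicNorm (b w) (U (ν t) i0 : ℚ) ≤ ((b w : ℕ) : ℚ) ^ (-(e (ν t) w i0 : ℤ)) := by
        rw [← padicNorm.dvd_iff_norm_le]
        have := hdv (ν t) i0 w
        exact_mod_cast this
      have h4 : ((padicNorm (b w) (U (ν t) i0 : ℚ) : ℚ) : ℝ) ≤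
          (b w : ℝ) ^ (-(e (ν t) w i0 : ℤ)) := by
        have h3' := (Rat.cast_le (K := ℝ)).2 h3
        rw [Rat.cast_zpow, Rat.cast_natCast] at h3'
        exact h3'
      have hbw : (0 : ℝ) < b w := by exact_mod_cast (hb w).pos
      have h5 : Real.exp (-(ε * L (ν t))) ≤ (b w : ℝ) ^ (-(fl t : ℤ)) := by
        rw [← Real.rpow_intCast, Real.rpow_def_of_pos hbw]
        apply Real.exp_le_exp.2
        push_cast
        have := hfl1 t
        linarith
      have h6 : ((padicNorm (b w) ((∑ i, C i (ν t) * U (ν t) i : ℤ) : ℚ) : ℚ) : ℝ) ≤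
          (b w : ℝ) ^ (-((e (ν t) w i0 + fl t : ℕ) : ℤ)) := by
        have h7 : (b w : ℝ) ^ (-((e (ν t) w i0 + fl t : ℕ) : ℤ)) =
            (b w : ℝ) ^ (-(e (ν t) w i0 : ℤ)) * (b w : ℝ) ^ (-(fl t : ℤ)) := by
          rw [← zpow_add₀ hbw.ne']
          congr 1
          push_cast
          ring
        rw [h7]
        have h8 : Real.exp (-(ε * L (ν t))) * Real.exp (ε * L (ν t)) = 1 := by
          rw [← Real.exp_add]
          simp
        calc ((padicNorm (b w) ((∑ i, C i (ν t) * U (ν t) i : ℤ) : ℚ) : ℚ) : ℝ)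
            = (((padicNorm (b w) ((∑ i, C i (ν t) * U (ν t) i : ℤ) : ℚ) : ℚ) : ℝ) *
              Real.exp (ε * L (ν t))) * Real.exp (-(ε * L (ν t))) := by
              rw [mul_assoc, mul_comm (Real.exp (ε * L (ν t))), h8, mul_one]
          _ ≤ ((padicNorm (b w) (U (ν t) i0 : ℚ) : ℚ) : ℝ) * Real.exp (-(ε * L (ν t))) :=
              mul_le_mul_of_nonneg_right h1.le (Real.exp_pos _).le
          _ ≤ (b w : ℝ) ^ (-(e (ν t) w i0 : ℤ)) * (b w : ℝ) ^ (-(fl t : ℤ)) :=
              mul_le_mul h4 h5 (Real.exp_pos _).le (zpow_pos hbw _).le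
      rw [← Rat.cast_le (K := ℝ), Rat.cast_zpow, Rat.cast_natCast]
      exact h6
    have hlA : ∀ t l, Real.log (Real.exp (δ * L (ν t)) * |(U (ν t) l : ℝ)|) =
        δ * L (ν t) + Real.log |(U (ν t) l : ℝ)| := by
      intro t l
      rw [Real.log_mul (Real.exp_pos _).ne' (by have := hU1 (ν t) l; linarith), Real.log_exp]
    refine sst (m + 1) s (by omega) 1 (fun v => if v = w then Rk i0 else 1) b
      ⟨by simp, fun v => by
        dsimp only
        split_ifs
        · exact Rk_det _
        · simp, hb2, fun v v' hv => (Nat.coprime_primes (hb v) (hb v')).2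
        fun h => hv (hbi h)⟩ (A + ε + 1) (ε / 4) (by linarith) (by positivity)
      (fun t => L (ν t)) (hL.comp hν)
      (fun t v l => e (ν t) v l + if v = w ∧ l = i0 then fl t else 0)
      (fun t l => Real.exp (δ * L (ν t)) * |(U (ν t) l : ℝ)|)
      ?_ (fun t l => C l (ν t) * U (ν t) l) hX0 ?_
    · intro t
      refine ⟨?_, ?_, ?_, ?_⟩
      · intro v l
        have h1 := hsingle (ν t) v l
        have h2 := (hg t).size l
        have h3 := hL0 t
        have h4 := hfl1 t
        push_cast
        split_ifs with hvl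
        · rw [hvl.1] at h1 ⊢
          rw [add_mul]
          nlinarith
        · rw [add_zero]
          nlinarith
      · intro l
        have := hU1 (ν t) l
        positivity
      · intro l
        rw [hlA]
        have h1 := (hg t).size l
        have h2 := Real.log_nonneg (hU1 (ν t) l)
        have h3 := hL0 t
        rw [abs_le]
        constructor <;> nlinarith
      · have h1 : ∑ l, Real.log (Real.exp (δ * L (ν t)) * |(U (ν t) l : ℝ)|) =
            ((m : ℝ) + 1) * (δ * L (ν t)) + ∑ l, Real.log |(U (ν t) l : ℝ)| := by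
          rw [Finset.sum_congr rfl fun l _ => hlA t l, Finset.sum_add_distrib, Finset.sum_const,
            Finset.card_univ, Fintype.card_fin, nsmul_eq_mul]
          push_cast
          ring
        have h3 : ∑ v, ∑ l, ((e (ν t) v l + if v = w ∧ l = i0 then fl t else 0 : ℕ) : ℝ) *
            Real.log (b v) = ∑ l, Real.log |(U (ν t) l : ℝ)| + fl t * Real.log (b w) := by
          have h5 : ∀ v l, ((e (ν t) v l + if v = w ∧ l = i0 then fl t else 0 : ℕ) : ℝ) *
            Real.log (b v) = (e (ν t) v l : ℝ) * Real.log (b v) +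
              (if v = w then (if l = i0 then fl t * Real.log (b w) else 0) else 0) := by
            intro v l
            push_cast
            by_cases hv : v = w
            · by_cases hl : l = i0
              · rw [if_pos ⟨hv, hl⟩, if_pos hv, if_pos hl, hv]
                ring
              · rw [if_neg (fun h => hl h.2), if_pos hv, if_neg hl]
                simp
            · rw [if_neg (fun h => hv h.1), if_neg hv]
              simp
          simp_rw [h5, Finset.sum_add_distrib]
          rw [Finset.sum_comm]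
          congr 1
          · exact Finset.sum_congr rfl fun l _ => (hlU _ _).symm
          · rw [Finset.sum_eq_single w]
            · simp only [if_true]
              rw [Finset.sum_ite_eq' Finset.univ i0]
              simp
            · intro v _ hv
              simp [hv]
            · intro h
              exact absurd (Finset.mem_univ _) h
        have h4 := hL0 t
        have h6 := hfl2 t
        have h7 := (hg t).large2 w
        simp only at h1 h3 ⊢
        rw [h1, h3]
        have h8 : ((m : ℝ) + 1) * (δ * L (ν t)) = ε / 4 * L (ν t) := by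
          rw [← mul_assoc, hmδ]
        rw [h8]
        linarith
    · intro t
      constructor
      · intro l
        rw [one_row l fun j => C j (ν t) * U (ν t) j]
        exact hCU t l
      · intro v l
        dsimp only
        by_cases hv : v = w
        · rw [if_pos hv, hv]
          by_cases hl : l = i0
          · rw [hl, Rk_self]
            simp only [and_self, if_true]
            exact key t
          · rw [Rk_ne _ _ hl, if_neg (fun h => hl h.2), add_zero]
            exact Dvd.dvd.mul_left (hdv _ _ _) _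
        · rw [if_neg hv, if_neg (fun h => hv h.1), add_zero]
          rw [one_row l fun j => C j (ν t) * U (ν t) j]
          exact Dvd.dvd.mul_left (hdv _ _ _) _

end Pool.Agent.Y724.Vj
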