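import Mathlib
import Pool.Agent.Y724.Vj.LB

/-!
# A combination of S-unit germs with negligible coefficients is not smaller than its terms, part 2
-/

set_option autoImplicit false

namespace Pool.Agent.Y724.Vj

open Filter Topology Pool.Agent.TH932.Germs Pool.Agent.TH551.SU Pool.Agent.TH461.SST
open Pool.Agent.TH551.SU.SUI

variable {L : ℕ → ℝ}

lemma gsu_ne_zero {s : ℕ} {b : Fin s → ℕ} (hb : ∀ v, (b v).Prime) {g : GG} (hg : GSU b g) :
    g ≠ 0 := by
  obtain ⟨a, rfl, ha⟩ := hg
  rw [gm_ne_zero]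
  refine Eventually.of_forall fun n => ?_
  obtain ⟨σ, e, hσ, hx⟩ := ha n
  rw [hx]
  refine mul_ne_zero ?_ (Finset.prod_ne_zero_iff.2 fun v _ => zpow_ne_zero _ ?_)
  · rcases hσ with h | h <;> simp [h]
  · exact_mod_cast (hb v).ne_zero

/-- the exponents of coprime unit vectors are bounded by the heights of the quotients -/
lemma exp_le_of_quot {s m : ℕ} (b : Fin s → ℕ) (hb : ∀ v, (b v).Prime)
    (hbi : Function.Injective b) (U : Fin m → ℤ) (e : Fin s → Fin m → ℕ)
    (hUe : ∀ i, |(U i : ℝ)| = ∏ v, (b v : ℝ) ^ (e v i))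
    (hdv : ∀ i v, (b v : ℤ) ^ (e v i) ∣ U i) (v : Fin s) (i j : Fin m) (hj : e v j = 0)
    (M D : ℤ) (hD : D ≠ 0) (hq : (U i : ℚ) / U j = (M : ℚ) / D) (T : ℝ) (hM : |(M : ℝ)| ≤ T) :
    (b v : ℝ) ^ (e v i) ≤ T := by
  have hU0 : ∀ i, U i ≠ 0 := by
    intro i h2
    have h3 := hUe i
    rw [h2, Int.cast_zero, abs_zero] at h3
    have h4 : (0 : ℝ) < ∏ v, (b v : ℝ) ^ (e v i) := Finset.prod_pos fun v _ => by
      have := (hb v).pos
      positivity
    linarith
  have hUj : (U j : ℚ) ≠ 0 := by exact_mod_cast hU0 j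
  have hDq : (D : ℚ) ≠ 0 := by exact_mod_cast hD
  rw [div_eq_div_iff hUj hDq] at hq
  have hq' : U i * D = M * U j := by exact_mod_cast hq
  have hM0 : M ≠ 0 := by
    intro h0
    rw [h0, zero_mul] at hq'
    exact mul_ne_zero (hU0 i) hD hq'
  have hnd : ¬ ((b v : ℤ) ∣ U j) := by
    intro h
    have h1 : (b v : ℤ) ∣ |U j| := (dvd_abs _ _).2 h
    have h2 : |U j| = ∏ v, (b v : ℤ) ^ (e v j) := by
      have := hUe j
      exact_mod_cast this
    rw [h2] at h1
    have hp : Prime (b v : ℤ) := Nat.prime_iff_prime_int.1 (hb v)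
    obtain ⟨w, _, hw⟩ := (hp.dvd_finsetProd_iff _).1 h1
    have h3 := hp.dvd_of_dvd_pow hw
    have h4 : b v = b w := by
      have h5 : b v ∣ b w := by exact_mod_cast h3
      exact (Nat.prime_dvd_prime_iff_eq (hb v) (hb w)).1 h5
    have h5 : v = w := hbi h4
    subst h5
    rw [hj, pow_zero] at hw
    exact hp.not_dvd_one hw
  have hcop : IsCoprime ((b v : ℤ) ^ (e v i)) (U j) := by
    have hp : Prime (b v : ℤ) := Nat.prime_iff_prime_int.1 (hb v)
    exact ((hp.irreducible.coprime_iff_not_dvd).2 hnd).pow_left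
  have h1 : (b v : ℤ) ^ (e v i) ∣ M * U j := by
    rw [← hq']
    exact (hdv i v).mul_right _
  have h2 : (b v : ℤ) ^ (e v i) ∣ M := hcop.dvd_of_dvd_mul_right h1
  have h3 := Int.le_of_dvd (abs_pos.2 hM0) ((dvd_abs _ _).2 h2)
  have h4 : ((b v : ℝ) ^ (e v i)) ≤ |(M : ℝ)| := by exact_mod_cast h3
  exact h4.trans hM

/-- **Lower bounds for sums of S-units with negligible coefficients.** -/
theorem lb {s m : ℕ} (b : Fin s → ℕ) (hb : ∀ v, (b v).Prime) (hbi : Function.Injective b)
    (hL : Tendsto L atTop atTop) (u : Fin (m + 1) → GG) (hu : ∀ i, GSU b (u i))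
    (hne : ∀ i j, i ≠ j → u i / u j ∉ KK L hL) (hbd : ∀ i j, Bd L (u i / u j))
    (c : Fin (m + 1) → KK L hL) (hc : ∀ i, c i ≠ 0) (v0 : Option (Fin s)) (i0 : Fin (m + 1)) :
    (OO L hL (wv b hb v0)).valuation (u i0) ≤
      (OO L hL (wv b hb v0)).valuation (∑ i, (c i : GG) * u i) := by
  classical
  by_contra hcon
  rw [not_le] at hcon
  have hb2 : ∀ v, 2 ≤ b v := fun v => (hb v).two_le
  have hu' := hu
  choose a ha hSU using hu'
  obtain ⟨C, D, hCN, hD, hCD, hC0, -⟩ := clear hL c hc (fun _ _ => 0) (by simp [gm_zero])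
  choose g U e hg hU hUe hdv hz using fun n => normalise b hb2 (fun i => a i n) fun i => hSU i n
  have hU0 : ∀ n i, U n i ≠ 0 := by
    intro n i h2
    have h3 := hUe n i
    rw [h2, Int.cast_zero, abs_zero] at h3
    have h4 : (0 : ℝ) < ∏ v, (b v : ℝ) ^ (e n v i) := Finset.prod_pos fun v _ => by
      have := hb2 v
      positivity
    linarith
  have hU1 : ∀ n i, 1 ≤ |(U n i : ℝ)| := fun n i => by exact_mod_cast Int.one_le_abs (hU0 n i)
  -- the valuations of the integers
  have hpl := pl_wv b hb v0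
  have hD0 : gm D ≠ 0 := gm_ne_zero.2 hD
  have hDK : gm D ∈ KK L hL := by
    have h1 : gm D = gm (fun n => (C 0 n : ℚ)) / (c 0 : GG) := by
      rw [hCD, mul_div_cancel_right₀]
      exact fun h => hc 0 (Subtype.ext h)
    rw [h1]
    refine (KK L hL).div_mem ?_ (c 0).2
    exact ⟨C 0, fun _ => 1, hCN 0, Negl.one hL, by simp, by
      congr 1
      funext n
      simp⟩
  have hsum : gm D * ∑ i, (c i : GG) * u i =
      gm g * gm (fun n => ((∑ i, C i n * U n i : ℤ) : ℚ)) := by
    rw [gm_mul, Finset.mul_sum]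
    have h1 : ∀ A : Finset (Fin (m + 1)), ∑ i ∈ A, gm D * ((c i : GG) * u i) =
        gm (fun n => g n * ((∑ i ∈ A, C i n * U n i : ℤ) : ℚ)) := by
      intro A
      induction A using Finset.induction_on with
      | empty => simp [gm_zero]
      | insert x A hx ih =>
        rw [Finset.sum_insert hx, ih, ← mul_assoc, ← hCD, ha, gm_mul, gm_add]
        congr 1
        funext n
        rw [Finset.sum_insert hx, hU n x]
        push_cast
        ring
    exact h1 _
  have hui : ∀ i, u i = gm g * gm (fun n => (U n i : ℚ)) := by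
    intro i
    rw [ha, gm_mul]
    congr 1
    funext n
    exact hU n i
  have hg0 : gm g ≠ 0 := gm_ne_zero.2 (Eventually.of_forall hg)
  have hlt : (OO L hL (wv b hb v0)).valuation (gm (fun n => ((∑ i, C i n * U n i : ℤ) : ℚ))) <
      (OO L hL (wv b hb v0)).valuation (gm (fun n => (U n i0 : ℚ))) := by
    have h1 : (OO L hL (wv b hb v0)).valuation (gm D * ∑ i, (c i : GG) * u i) <
        (OO L hL (wv b hb v0)).valuation (u i0) := by
      rw [map_mul, val_KK hL hpl hDK hD0, one_mul]
      exact hcon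
    rw [hsum, hui, map_mul, map_mul] at h1
    exact lt_of_mul_lt_mul_left' h1
  have hex : ∃ ε : ℝ, 0 < ε ∧ ∀ᶠ n in (UU : Filter ℕ),
      wv b hb v0 ((∑ i, C i n * U n i : ℤ) : ℚ) * Real.exp (ε * L n) <
        wv b hb v0 (U n i0 : ℚ) := by
    by_contra hno
    push Not at hno
    apply absurd hlt
    rw [not_lt]
    exact le_val hL _ hno
  obtain ⟨ε, hε, hkey⟩ := hex
  -- the heights
  have hsz : ∃ A : ℝ, 0 ≤ A ∧ ∀ᶠ n in (UU : Filter ℕ), ∀ i, Real.log |(U n i : ℝ)| ≤ A * L n := by
    choose kv hkv using fun v : Fin s => const_of_ev (p := fun i n => e n v i = 0)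
      (Eventually.of_forall fun n => hz n v)
    choose M D' A hM hD' hD0' hq using hbd
    set A1 : ℝ := ∑ i, ∑ j, |A i j| with hA1
    have hA1' : ∀ i j, A i j ≤ A1 := by
      intro i j
      refine (le_abs_self _).trans ?_
      refine (Finset.single_le_sum (f := fun j => |A i j|) (fun j _ => abs_nonneg _)
        (Finset.mem_univ j)).trans ?_
      exact Finset.single_le_sum (f := fun i => ∑ j, |A i j|)
        (fun i _ => Finset.sum_nonneg fun j _ => abs_nonneg _) (Finset.mem_univ i)
    refine ⟨s * A1, by positivity, ?_⟩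
    have hq' : ∀ᶠ n in (UU : Filter ℕ), ∀ i j, (U n i : ℚ) / U n j = (M i j n : ℚ) / D' i j n := by
      refine eventually_all.2 fun i => eventually_all.2 fun j => ?_
      have h1 := hq i j
      rw [hui, hui, mul_div_mul_left _ _ hg0, gm_div, gm_eq] at h1
      exact h1
    filter_upwards [eventually_all.2 hkv, eventually_all.2 fun i => eventually_all.2 (hM i),
      eventually_all.2 fun i => eventually_all.2 (hD0' i), hq', L_nonneg hL] with n h1 h2 h3 h4 h5
    intro i
    rw [hUe, Real.log_prod]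
    · calc ∑ v, Real.log ((b v : ℝ) ^ (e n v i)) ≤ ∑ _v : Fin s, A1 * L n := by
            refine Finset.sum_le_sum fun v _ => ?_
            have h6 := exp_le_of_quot b hb hbi (U n) (e n) (hUe n) (hdv n) v i (kv v) (h1 v)
              (M i (kv v) n) (D' i (kv v) n) (h3 i (kv v)) (h4 i (kv v)) _ (h2 i (kv v))
            have hbv : (0 : ℝ) < (b v : ℝ) ^ (e n v i) := by
              have : (0 : ℝ) < b v := by exact_mod_cast (hb v).pos
              positivity
            have h7 := Real.log_le_log hbv h6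
            rw [Real.log_exp] at h7
            refine h7.trans ?_
            exact mul_le_mul_of_nonneg_right (hA1' _ _) h5
        _ = s * A1 * L n := by
            rw [Finset.sum_const, Finset.card_univ, Fintype.card_fin, nsmul_eq_mul]
            ring
    · intro v _
      have := hb2 v
      positivity
  obtain ⟨A, hA, hsz⟩ := hsz
  have hgood : ∀ᶠ n in (UU : Filter ℕ), GoodI b hb v0 i0 A ε L C U n := by
    have hsm : ∀ᶠ n in (UU : Filter ℕ), ∀ i, |(C i n : ℝ)| ≤
        Real.exp (ε / (4 * ((m : ℝ) + 1)) * L n) :=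
      eventually_all.2 fun i => hCN i _ (by positivity)
    have hl1 : ∀ᶠ n in (UU : Filter ℕ), 1 ≤ L n := ev_of_atTop (hL.eventually_ge_atTop 1)
    have hl2 : ∀ᶠ n in (UU : Filter ℕ), ∀ v, Real.log (b v) ≤ ε / 2 * L n := by
      refine eventually_all.2 fun v => ?_
      filter_upwards [ev_of_atTop (hL.eventually_ge_atTop (Real.log (b v) / (ε / 2)))] with n hn
      rw [div_le_iff₀ (by positivity)] at hn
      linarith
    filter_upwards [hsz, hC0, hsm, hkey, hl1, hl2] with n h1 h2 h3 h4 h5 h6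
    exact ⟨h1, h2, h3, h4, h5, h6⟩
  -- no fixed relation
  have hno : ∀ y : Fin (m + 1) → ℤ, y ≠ 0 → ∀ᶠ n in (UU : Filter ℕ),
      ∑ l, y l * (C l n * U n l) ≠ 0 := by
    intro y hy
    by_contra hcon
    have h1 : ∀ᶠ n in (UU : Filter ℕ), ∑ l, y l * (C l n * U n l) = 0 := by
      have h2 := Ultrafilter.eventually_not.2 hcon
      filter_upwards [h2] with n hn using not_not.1 hn
    apply hy
    have h3 : ∑ l, ((((y l : ℤ) : KK L hL) * c l : KK L hL) : GG) * u l = 0 := by
      have h4 : gm D * ∑ l, ((((y l : ℤ) : KK L hL) * c l : KK L hL) : GG) * u l = 0 := by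
        have h5 : gm (fun n => g n * ∑ l, (y l : ℚ) * ((C l n : ℚ) * U n l)) = 0 := by
          rw [← gm_zero, gm_eq]
          filter_upwards [h1] with n hn
          have h6 : ((∑ l, y l * (C l n * U n l) : ℤ) : ℚ) = 0 := by rw [hn]; simp
          push_cast at h6
          rw [h6, mul_zero]
        rw [← h5, Finset.mul_sum]
        have h6 : ∀ A : Finset (Fin (m + 1)), ∑ l ∈ A, gm D * (((((y l : ℤ) : KK L hL) * c l :
            KK L hL) : GG) * u l) =
            gm (fun n => g n * ∑ l ∈ A, (y l : ℚ) * ((C l n : ℚ) * U n l)) := by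
          intro A
          induction A using Finset.induction_on with
          | empty => simp [gm_zero]
          | insert x A hx ih =>
            rw [Finset.sum_insert hx, ih]
            have h7 : gm D * (((((y x : ℤ) : KK L hL) * c x : KK L hL) : GG) * u x) =
                gm (fun n => g n * ((y x : ℚ) * ((C x n : ℚ) * U n x))) := by
              have h8 : (((y x : ℤ) : KK L hL) : GG) = gm (fun _ => (y x : ℚ)) := by
                rw [SubringClass.coe_intCast]
                rfl
              rw [hui, Subfield.coe_mul, h8]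
              have h9 : gm D * (gm (fun _ => (y x : ℚ)) * (c x : GG) *
                  (gm g * gm (fun n => (U n x : ℚ)))) =
                  gm g * (gm (fun _ => (y x : ℚ)) * ((gm D * (c x : GG)) *
                    gm (fun n => (U n x : ℚ)))) := by ring
              rw [h9, ← hCD, gm_mul, gm_mul, gm_mul]
            rw [h7, gm_add]
            congr 1
            funext n
            rw [Finset.sum_insert hx]
            ring
        exact h6 _
      exact (mul_eq_zero.1 h4).resolve_left hD0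
    have h4 := sui s b hb hbi L hL (m + 1) u hu hne _ h3
    funext l
    have h5 := (mul_eq_zero.1 (h4 l)).resolve_right (hc _)
    exact_mod_cast h5
  -- the diagonal sequence
  obtain ⟨f, hf⟩ := exists_surjective_nat (Fin (m + 1) → ℤ)
  have hex : ∀ t : ℕ, ∃ n, t ≤ n ∧ GoodI b hb v0 i0 A ε L C U n ∧ ∀ q ≤ t, f q ≠ 0 →
      ∑ l, f q l * (C l n * U n l) ≠ 0 := by
    intro t
    have h1 : ∀ᶠ n in (UU : Filter ℕ), ∀ q ∈ Finset.range (t + 1), f q ≠ 0 →
        ∑ l, f q l * (C l n * U n l) ≠ 0 := by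
      rw [Finset.eventually_all]
      intro q _
      by_cases h2 : f q = 0
      · exact Eventually.of_forall fun n h3 => absurd h2 h3
      · filter_upwards [hno _ h2] with n hn _ using hn
    have h2 : ∀ᶠ n in (UU : Filter ℕ), t ≤ n := ev_of_atTop (eventually_ge_atTop t)
    obtain ⟨n, h3, h4, h5⟩ := (h2.and (hgood.and h1)).exists
    exact ⟨n, h3, h4, fun q hq => h5 q (Finset.mem_range_succ_iff.2 hq)⟩
  choose ν hν1 hν2 hν3 using hex
  obtain ⟨y, hy, hfr⟩ := apply_sst' b hb hbi v0 i0 A ε hA hε L hL C U e hUe hdv ν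
    (tendsto_atTop_mono hν1 tendsto_id) hν2
  obtain ⟨q, rfl⟩ := hf y
  obtain ⟨t, h1, h2⟩ := (hfr.and_eventually (eventually_ge_atTop q)).exists
  exact hν3 t q h2 hy h1

end Pool.Agent.Y724.Vj
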