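import Mathlib
import Pool.Agent.Y724.Vj.LB2

/-!
# Lower bounds for sums of S-units, terms grouped in classes modulo the negligible field
-/

set_option autoImplicit false

namespace Pool.Agent.Y724.Vj

open Filter Topology Pool.Agent.TH932.Germs Pool.Agent.TH551.SU

variable {L : ℕ → ℝ}

lemma Bd.mul {g h : GG} (hg : Bd L g) (hh : Bd L h) : Bd L (g * h) := by
  obtain ⟨m, d, A, h1, h2, h3, rfl⟩ := hg
  obtain ⟨m', d', A', h1', h2', h3', rfl⟩ := hh
  refine ⟨fun n => m n * m' n, fun n => d n * d' n, A + A', ?_, ?_, ?_, ?_⟩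
  · filter_upwards [h1, h1'] with n e1 e2
    push_cast
    rw [abs_mul, add_mul, Real.exp_add]
    exact mul_le_mul e1 e2 (abs_nonneg _) (Real.exp_pos _).le
  · filter_upwards [h2, h2'] with n e1 e2
    push_cast
    rw [abs_mul, add_mul, Real.exp_add]
    exact mul_le_mul e1 e2 (abs_nonneg _) (Real.exp_pos _).le
  · filter_upwards [h3, h3'] with n e1 e2 using mul_ne_zero e1 e2
  · rw [gm_mul]
    congr 1
    funext n
    push_cast
    rw [div_mul_div_comm]

lemma Bd.one (hL : Tendsto L atTop atTop) : Bd L (1 : GG) := by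
  refine ⟨fun _ => 1, fun _ => 1, 1, ?_, ?_, by simp, by rw [← gm_one]; simp⟩
  · filter_upwards [L_nonneg hL] with n hn
    rw [Int.cast_one, abs_one]
    exact Real.one_le_exp (by linarith)
  · filter_upwards [L_nonneg hL] with n hn
    rw [Int.cast_one, abs_one]
    exact Real.one_le_exp (by linarith)

lemma Bd.inv {g : GG} (hg : Bd L g) (h0 : g ≠ 0) : Bd L g⁻¹ := by
  obtain ⟨m, d, A, h1, h2, h3, rfl⟩ := hg
  refine ⟨d, m, A, h2, h1, ?_, ?_⟩
  · have := gm_ne_zero.1 h0
    filter_upwards [this] with n hn h4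
    apply hn
    rw [h4]; simp
  · rw [gm_inv]
    congr 1
    funext n
    rw [inv_div]

lemma Bd.div {g h : GG} (hg : Bd L g) (hh : Bd L h) (h0 : h ≠ 0) : Bd L (g / h) := by
  rw [div_eq_mul_inv]
  exact hg.mul (hh.inv h0)

lemma Bd.prod (hL : Tendsto L atTop atTop) {ι : Type} (A : Finset ι) (f : ι → GG)
    (h : ∀ i ∈ A, Bd L (f i)) : Bd L (∏ i ∈ A, f i) := by
  classical
  induction A using Finset.induction_on with
  | empty => simpa using Bd.one hL
  | insert a A ha ih =>
    rw [Finset.prod_insert ha]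
    exact (h a (Finset.mem_insert_self _ _)).mul
      (ih fun i hi => h i (Finset.mem_insert_of_mem hi))

lemma Bd.pow (hL : Tendsto L atTop atTop) {g : GG} (hg : Bd L g) (k : ℕ) : Bd L (g ^ k) := by
  induction k with
  | zero => simpa using Bd.one hL
  | succ k ih => rw [pow_succ]; exact ih.mul hg

/-- the sum of the terms in the class of `g0` is not larger than the whole sum -/
theorem lb_class {s : ℕ} (b : Fin s → ℕ) (hb : ∀ v, (b v).Prime) (hbi : Function.Injective b)
    (hL : Tendsto L atTop atTop) {ι : Type} [Fintype ι] (g : ι → GG) (hg : ∀ i, GSU b (g i))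
    (hbd : ∀ i, Bd L (g i)) (a : ι → KK L hL) (v0 : Option (Fin s)) (i0 : ι)
    (p : ι → Prop) [DecidablePred p] (hp : ∀ i, p i ↔ g i / g i0 ∈ KK L hL)
    (h0 : ∑ i with p i, (a i : GG) * g i ≠ 0) :
    (OO L hL (wv b hb v0)).valuation (g i0) ≤
      (OO L hL (wv b hb v0)).valuation (∑ i, (a i : GG) * g i) := by
  classical
  have hg0 : ∀ i, g i ≠ 0 := fun i => gsu_ne_zero hb (hg i)
  let st : Setoid ι := ⟨fun i j => g i / g j ∈ KK L hL,
    ⟨fun i => by rw [div_self (hg0 i)]; exact (KK L hL).one_mem,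
     fun {i j} h => by rw [← inv_div]; exact (KK L hL).inv_mem h,
     fun {i j k} h1 h2 => by
      rw [← div_mul_div_cancel₀ (hg0 j)]; exact (KK L hL).mul_mem h1 h2⟩⟩
  have hs : ∀ i j : ι, (Quotient.mk st i = Quotient.mk st j) ↔ g i / g j ∈ KK L hL :=
    fun i j => Quotient.eq
  have hft : Fintype (Quotient st) := Fintype.ofFinite _
  have hrp : ∀ i : ι, g i / g (Quotient.mk st i).out ∈ KK L hL := by
    intro i
    rw [← hs, Quotient.out_eq]
  set c : Quotient st → KK L hL := fun q => ∑ i with Quotient.mk st i = q,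
    a i * ⟨g i / g (Quotient.mk st i).out, hrp i⟩ with hc
  have hcq : ∀ q : Quotient st, (c q : GG) * g q.out =
      ∑ i with Quotient.mk st i = q, (a i : GG) * g i := by
    intro q
    rw [hc]
    simp only
    rw [AddSubmonoidClass.coe_finsetSum, Finset.sum_mul]
    refine Finset.sum_congr rfl fun i hi => ?_
    rw [Finset.mem_filter] at hi
    obtain ⟨-, rfl⟩ := hi
    rw [MulMemClass.coe_mul, mul_assoc]
    congr 1
    exact div_mul_cancel₀ _ (hg0 _)
  set q0 : Quotient st := Quotient.mk st i0 with hq0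
  have hcq0 : c q0 ≠ 0 := by
    intro h
    apply h0
    have h1 := hcq q0
    rw [h] at h1
    simp only [ZeroMemClass.coe_zero, zero_mul] at h1
    rw [h1]
    refine Finset.sum_congr ?_ fun _ _ => rfl
    ext i
    simp only [Finset.mem_filter, Finset.mem_univ, true_and]
    rw [hp, hq0, hs]
  have hsum : ∑ i, (a i : GG) * g i = ∑ q : {q // c q ≠ 0}, (c q.1 : GG) * g q.1.out := by
    rw [← Finset.sum_fiberwise (s := Finset.univ) (g := Quotient.mk st)]
    simp_rw [← hcq]
    symm
    rw [← Finset.sum_subtype (s := Finset.univ.filter fun q => c q ≠ 0)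
      (f := fun q => (c q : GG) * g q.out) (by simp)]
    apply Finset.sum_filter_of_ne
    intro q _ h h'
    apply h
    rw [h']
    simp
  have hne : Nonempty {q // c q ≠ 0} := ⟨⟨q0, hcq0⟩⟩
  obtain ⟨m, hm⟩ : ∃ m, Fintype.card {q // c q ≠ 0} = m + 1 :=
    ⟨Fintype.card {q // c q ≠ 0} - 1, (Nat.succ_pred_eq_of_pos Fintype.card_pos).symm⟩
  let e : {q // c q ≠ 0} ≃ Fin (m + 1) := Fintype.equivFinOfCardEq hm
  have key := lb b hb hbi hL (fun k => g (e.symm k).1.out) (fun k => hg _) (by
    intro i j hij h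
    apply hij
    rw [← hs, Quotient.out_eq, Quotient.out_eq] at h
    exact e.symm.injective (Subtype.ext h)) (fun i j => (hbd _).div (hbd _) (hg0 _))
    (fun k => c (e.symm k).1) (fun k => (e.symm k).2) v0 (e ⟨q0, hcq0⟩)
  rw [Equiv.sum_comp e.symm (fun q => (c q.1 : GG) * g q.1.out), ← hsum] at key
  simp only [Equiv.symm_apply_apply] at key
  rw [val_eq_of_div hL (pl_wv b hb v0) (hg0 _) (hg0 i0) (hrp i0)]
  exact key

/-- conversely, a sum is not larger than the largest class -/
theorem ub_class {s : ℕ} (b : Fin s → ℕ) (hb : ∀ v, (b v).Prime)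
    (hL : Tendsto L atTop atTop) {ι : Type} [Fintype ι] (g : ι → GG) (hg0 : ∀ i, g i ≠ 0)
    (a : ι → KK L hL) (v0 : Option (Fin s)) (X : GG)
    (h0 : ∀ i0 : ι, (∀ (p : ι → Prop) [DecidablePred p], (∀ i, p i ↔ g i / g i0 ∈ KK L hL) →
      ∑ i with p i, (a i : GG) * g i = 0) ∨
      (OO L hL (wv b hb v0)).valuation (g i0) ≤ (OO L hL (wv b hb v0)).valuation X) :
    (OO L hL (wv b hb v0)).valuation (∑ i, (a i : GG) * g i) ≤
      (OO L hL (wv b hb v0)).valuation X := by
  classical
  let st : Setoid ι := ⟨fun i j => g i / g j ∈ KK L hL,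
    ⟨fun i => by rw [div_self (hg0 i)]; exact (KK L hL).one_mem,
     fun {i j} h => by rw [← inv_div]; exact (KK L hL).inv_mem h,
     fun {i j k} h1 h2 => by
      rw [← div_mul_div_cancel₀ (hg0 j)]; exact (KK L hL).mul_mem h1 h2⟩⟩
  have hs : ∀ i j : ι, (Quotient.mk st i = Quotient.mk st j) ↔ g i / g j ∈ KK L hL :=
    fun i j => Quotient.eq
  have hft : Fintype (Quotient st) := Fintype.ofFinite _
  rw [← Finset.sum_fiberwise (s := Finset.univ) (g := Quotient.mk st)]
  apply Valuation.map_sum_le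
  intro q _
  rcases h0 q.out with h | h
  · have h1 : ∑ i with Quotient.mk st i = q, (a i : GG) * g i = 0 := by
      apply h
      intro i
      rw [← hs, Quotient.out_eq]
    rw [h1, map_zero]
    exact zero_le
  · apply Valuation.map_sum_le
    intro i hi
    rw [Finset.mem_filter] at hi
    refine le_trans ?_ h
    rw [map_mul]
    have h2 : g i / g q.out ∈ KK L hL := by
      rw [← hs, Quotient.out_eq]
      exact hi.2
    rw [val_eq_of_div hL (pl_wv b hb v0) (hg0 _) (hg0 i) h2]
    exact mul_le_of_le_one_left' (val_KK_le hL (pl_wv b hb v0) (a i).2)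

end Pool.Agent.Y724.Vj
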