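import Mathlib
import Pool.Agent.Y724.Vj.Cls

/-!
# Preparations for the theorem on the representation of primitive points
-/

set_option autoImplicit false

namespace Pool.Agent.Y724.Vj

open Filter Topology Pool.Agent.TH932.Germs Pool.Agent.TH551.SU MvPolynomial

section poly
variable {K : Type} [Field K] {m ν : ℕ}

lemma extract (P : Fin ν → MvPolynomial (Fin m) K) (y1 : Fin ν) (h1 : P y1 ≠ 0) :
    ∃ (Q : MvPolynomial (Fin m) K) (R : Fin ν → MvPolynomial (Fin m) K),
      (∀ y, P y = Q * R y) ∧ Q ≠ 0 ∧ R y1 ≠ 0 ∧ ∀ π, Prime π → ∃ y, ¬ π ∣ R y := by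
  classical
  let _ : NormalizationMonoid (MvPolynomial (Fin m) K) :=
    Classical.choice inferInstance
  let _ := UniqueFactorizationMonoid.toNormalizedGCDMonoid (MvPolynomial (Fin m) K)
  obtain ⟨R, hR, hR1⟩ := Finset.extract_gcd (s := Finset.univ) P ⟨y1, Finset.mem_univ _⟩
  refine ⟨Finset.univ.gcd P, R, fun y => hR y (Finset.mem_univ _), ?_, ?_, ?_⟩
  · intro h0
    apply h1
    rw [hR y1 (Finset.mem_univ _), h0, zero_mul]
  · intro h0
    apply h1
    rw [hR y1 (Finset.mem_univ _), h0, mul_zero]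
  · intro π hπ
    by_contra hcon
    push Not at hcon
    have h2 : π ∣ Finset.univ.gcd R := Finset.dvd_gcd fun y _ => hcon y
    rw [hR1] at h2
    exact hπ.not_isUnit (isUnit_of_dvd_one h2)

lemma exists_coprime [Infinite K] (R : Fin ν → MvPolynomial (Fin m) K) (y1 : Fin ν)
    (h1 : R y1 ≠ 0) (hcop : ∀ π, Prime π → ∃ y, ¬ π ∣ R y) :
    ∃ c : Fin ν → K, (∑ y, C (c y) * R y) ≠ 0 ∧ IsRelPrime (R y1) (∑ y, C (c y) * R y) := by
  classical
  let ℓ : (Fin ν → K) →ₗ[K] MvPolynomial (Fin m) K :=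
    { toFun := fun c => ∑ y, C (c y) * R y
      map_add' := by
        intro c d
        rw [← Finset.sum_add_distrib]
        refine Finset.sum_congr rfl fun y _ => ?_
        rw [Pi.add_apply, C_add, add_mul]
      map_smul' := by
        intro a c
        rw [RingHom.id_apply, Finset.smul_sum]
        refine Finset.sum_congr rfl fun y _ => ?_
        rw [Pi.smul_apply, smul_eq_mul, C_mul, smul_eq_C_mul, mul_assoc] }
  have hℓ : ∀ y, ℓ (Pi.single y 1) = R y := by
    intro y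
    change ∑ y', C ((Pi.single y (1 : K) : Fin ν → K) y') * R y' = R y
    rw [Finset.sum_eq_single y]
    · rw [Pi.single_eq_same, C_1, one_mul]
    · intro y' _ hy'
      rw [Pi.single_eq_of_ne hy', C_0, zero_mul]
    · intro h
      exact absurd (Finset.mem_univ _) h
  let Sp : MvPolynomial (Fin m) K → Submodule K (Fin ν → K) := fun π =>
    Submodule.comap ℓ ((Ideal.span {π} : Ideal (MvPolynomial (Fin m) K)).restrictScalars K)
  have hSp : ∀ π c, c ∈ Sp π ↔ π ∣ ℓ c := by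
    intro π c
    change ℓ c ∈ (Ideal.span {π} : Ideal (MvPolynomial (Fin m) K)) ↔ _
    rw [Ideal.mem_span_singleton]
  set F : Finset (Submodule K (Fin ν → K)) :=
    insert (LinearMap.ker ℓ)
      ((UniqueFactorizationMonoid.factors (R y1)).toFinset.image Sp) with hF
  have htop : ⊤ ∉ F := by
    intro hmem
    rcases Finset.mem_insert.1 hmem with h | h
    · have h2 : (Pi.single y1 1 : Fin ν → K) ∈ LinearMap.ker ℓ := by
        rw [← h]
        exact Submodule.mem_top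
      rw [LinearMap.mem_ker, hℓ] at h2
      exact h1 h2
    · obtain ⟨π, hπ, h⟩ := Finset.mem_image.1 h
      have hπ1 := UniqueFactorizationMonoid.prime_of_factor π (Multiset.mem_toFinset.1 hπ)
      obtain ⟨y, hy⟩ := hcop π hπ1
      apply hy
      have h2 : (Pi.single y 1 : Fin ν → K) ∈ Sp π := by
        rw [h]
        exact Submodule.mem_top
      rw [hSp, hℓ] at h2
      exact h2
  have hne := Subspace.biUnion_ne_univ_of_top_notMem htop
  obtain ⟨c, hc⟩ := (Set.ne_univ_iff_exists_notMem _).1 hne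
  rw [Set.mem_iUnion₂] at hc
  push Not at hc
  refine ⟨c, ?_, ?_⟩
  · intro h0
    exact hc (LinearMap.ker ℓ) (Finset.mem_insert_self _ _) (LinearMap.mem_ker.2 h0)
  · rw [UniqueFactorizationMonoid.isRelPrime_iff_no_prime_factors h1]
    intro d hd1 hd2 hdp
    obtain ⟨π, hπ, hπd⟩ := UniqueFactorizationMonoid.exists_mem_factors_of_dvd h1
      hdp.irreducible hd1
    refine hc (Sp π) (Finset.mem_insert_of_mem (Finset.mem_image.2
      ⟨π, Multiset.mem_toFinset.2 hπ, rfl⟩)) ?_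
    rw [SetLike.mem_coe, hSp]
    exact hπd.symm.dvd.trans hd2

end poly

/-! ## splitting off the S-unit part -/

section split
variable {s : ℕ} (b : Fin s → ℕ)

lemma nat_decomp (hb : ∀ v, (b v).Prime) (n : ℕ) (hn : n ≠ 0) :
    ∃ (e : Fin s → ℕ) (n' : ℕ), n = (∏ v, b v ^ e v) * n' ∧ ∀ v, Nat.Coprime n' (b v) := by
  classical
  have key : ∀ S : Finset (Fin s), ∃ (e : Fin s → ℕ) (n' : ℕ), n = (∏ v ∈ S, b v ^ e v) * n' ∧
      ∀ v ∈ S, Nat.Coprime n' (b v) := by
    intro S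
    induction S using Finset.induction_on with
    | empty => exact ⟨fun _ => 0, n, by simp, by simp⟩
    | insert v S hv ih =>
      obtain ⟨e, n', h1, h2⟩ := ih
      have hn' : n' ≠ 0 := by
        rintro rfl
        rw [mul_zero] at h1
        exact hn h1
      obtain ⟨k, n'', h3, h4⟩ := Nat.exists_eq_pow_mul_and_not_dvd hn' (b v) (hb v).ne_one
      refine ⟨fun w => if w = v then k else e w, n'', ?_, ?_⟩
      · rw [Finset.prod_insert hv, h1, h4]
        simp only [if_true]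
        have h5 : ∏ x ∈ S, b x ^ (if x = v then k else e x) = ∏ x ∈ S, b x ^ e x := by
          refine Finset.prod_congr rfl fun x hx => ?_
          rw [if_neg]
          rintro rfl
          exact hv hx
        rw [h5]
        ring
      · intro w hw
        rcases Finset.mem_insert.1 hw with rfl | hw
        · exact ((Nat.Prime.coprime_iff_not_dvd (hb w)).2 h3).symm
        · exact Nat.Coprime.coprime_dvd_left ⟨_, by rw [h4, mul_comm]⟩ (h2 w hw)
  obtain ⟨e, n', h1, h2⟩ := key Finset.univ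
  exact ⟨e, n', h1, fun v => h2 v (Finset.mem_univ _)⟩

lemma su_split (hb : ∀ v, (b v).Prime) (q : ℚ) (hq : q ≠ 0) :
    ∃ (σ : ℚ) (sn : ℤ) (sd N D : ℕ), IsSU b σ ∧ σ = (sn : ℚ) / sd ∧ sd ≠ 0 ∧ D ≠ 0 ∧
      q = σ * ((N : ℚ) / D) ∧ (N : ℤ) ∣ q.num ∧ D ∣ q.den ∧ (∀ v, Nat.Coprime N (b v)) ∧
      (∀ v, Nat.Coprime D (b v)) ∧ |sn| ≤ |q.num| ∧ sd ≤ q.den ∧ N ≠ 0 := by
  classical
  have hnum : q.num ≠ 0 := Rat.num_ne_zero.2 hq
  obtain ⟨e, N, h1, h2⟩ := nat_decomp b hb q.num.natAbs (Int.natAbs_ne_zero.2 hnum)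
  obtain ⟨e', D, h3, h4⟩ := nat_decomp b hb q.den q.den_ne_zero
  have hb0 : ∀ v, (b v : ℚ) ≠ 0 := fun v => by exact_mod_cast (hb v).ne_zero
  have hN0 : N ≠ 0 := by
    rintro rfl
    rw [mul_zero] at h1
    exact hnum (Int.natAbs_eq_zero.1 h1)
  have hD0 : D ≠ 0 := by
    rintro rfl
    rw [mul_zero] at h3
    exact q.den_ne_zero h3
  have hsd0 : (∏ v, b v ^ e' v) ≠ 0 := Finset.prod_ne_zero_iff.2 fun v _ =>
    pow_ne_zero _ (hb v).ne_zero
  have hnum' : q.num = q.num.sign * ((∏ v, b v ^ e v : ℕ) : ℤ) * N := by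
    have h5 := Int.sign_mul_natAbs q.num
    rw [h1] at h5
    rw [← h5]
    push_cast
    rw [Int.sign_mul, Int.sign_sign]
    have h6 : (((∏ v, (b v : ℤ) ^ e v) * (N : ℤ))).sign = 1 := by
      apply Int.sign_eq_one_of_pos
      have : (0 : ℤ) < N := by exact_mod_cast Nat.pos_of_ne_zero hN0
      have : (0 : ℤ) < ∏ v, (b v : ℤ) ^ e v := Finset.prod_pos fun v _ => by
        have := (hb v).pos
        positivity
      positivity
    rw [h6]
    ring
  have hsign : q.num.sign = 1 ∨ q.num.sign = -1 := by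
    rcases lt_or_gt_of_ne hnum with h | h
    · right; exact Int.sign_eq_neg_one_of_neg h
    · left; exact Int.sign_eq_one_of_pos h
  refine ⟨(q.num.sign * ((∏ v, b v ^ e v : ℕ) : ℤ) : ℤ) / ((∏ v, b v ^ e' v : ℕ) : ℚ),
    q.num.sign * ((∏ v, b v ^ e v : ℕ) : ℤ), ∏ v, b v ^ e' v, N, D, ?_, rfl, hsd0, hD0, ?_, ?_,
    ?_, h2, h4, ?_, ?_, hN0⟩
  · refine ⟨q.num.sign, fun v => (e v : ℤ) - e' v, hsign, ?_⟩
    push_cast
    rw [mul_div_assoc, ← Finset.prod_div_distrib]
    congr 1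
    refine Finset.prod_congr rfl fun v _ => ?_
    rw [zpow_sub₀ (hb0 v), zpow_natCast, zpow_natCast]
  · have h5 : q = (q.num : ℚ) / (q.den : ℚ) := (Rat.num_div_den q).symm
    have h6 : (q.den : ℚ) = ((∏ v, b v ^ e' v : ℕ) : ℚ) * D := by
      rw [← Nat.cast_mul, ← h3]
    have h7 : (q.num : ℚ) = ((q.num.sign * ((∏ v, b v ^ e v : ℕ) : ℤ) : ℤ) : ℚ) * N := by
      exact_mod_cast hnum'
    conv_lhs => rw [h5]
    rw [h6, h7, div_mul_div_comm]
  · rw [hnum']
    exact dvd_mul_left _ _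
  · exact ⟨_, by rw [mul_comm]; exact h3⟩
  · conv_rhs => rw [hnum']
    rw [abs_mul (q.num.sign * _)]
    apply le_mul_of_one_le_right (abs_nonneg _)
    rw [Nat.abs_cast]
    exact_mod_cast Nat.one_le_iff_ne_zero.2 hN0
  · exact Nat.le_of_dvd q.pos ⟨D, h3⟩

end split

/-! ## bounded germs -/

section bd
variable {L : ℕ → ℝ}

lemma Bd.add (hL : Tendsto L atTop atTop) {g h : GG} (hg : Bd L g) (hh : Bd L h) :
    Bd L (g + h) := by
  obtain ⟨m, d, A, hm, hd, hd0, rfl⟩ := hg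
  obtain ⟨m', d', A', hm', hd', hd0', rfl⟩ := hh
  refine ⟨fun n => m n * d' n + d n * m' n, fun n => d n * d' n, A + A' + 1, ?_, ?_, ?_, ?_⟩
  · filter_upwards [hm, hd, hm', hd', two_le_exp hL one_pos] with n h1 h2 h3 h4 h5
    push_cast
    calc |(m n : ℝ) * d' n + d n * m' n| ≤ |(m n : ℝ) * d' n| + |(d n : ℝ) * m' n| :=
          abs_add_le _ _
      _ ≤ Real.exp (A * L n) * Real.exp (A' * L n) + Real.exp (A * L n) * Real.exp (A' * L n) := by
          rw [abs_mul, abs_mul]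
          gcongr
      _ = 2 * (Real.exp (A * L n) * Real.exp (A' * L n)) := by ring
      _ ≤ Real.exp (1 * L n) * (Real.exp (A * L n) * Real.exp (A' * L n)) := by gcongr
      _ = _ := by rw [← Real.exp_add, ← Real.exp_add]; ring_nf
  · filter_upwards [hd, hd', two_le_exp hL one_pos] with n h2 h4 h5
    push_cast
    rw [abs_mul]
    calc |(d n : ℝ)| * |(d' n : ℝ)| ≤ Real.exp (A * L n) * Real.exp (A' * L n) := by gcongr
      _ = 1 * (Real.exp (A * L n) * Real.exp (A' * L n)) := by ring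
      _ ≤ Real.exp (1 * L n) * (Real.exp (A * L n) * Real.exp (A' * L n)) := by
          gcongr
          linarith
      _ = _ := by rw [← Real.exp_add, ← Real.exp_add]; ring_nf
  · filter_upwards [hd0, hd0'] with n h1 h2 using mul_ne_zero h1 h2
  · rw [gm_add, gm_eq]
    filter_upwards [hd0, hd0'] with n h1 h2
    have h1' : (d n : ℚ) ≠ 0 := by exact_mod_cast h1
    have h2' : (d' n : ℚ) ≠ 0 := by exact_mod_cast h2
    push_cast
    rw [div_add_div _ _ h1' h2']

lemma Bd.of_KK (hL : Tendsto L atTop atTop) {g : GG} (hg : g ∈ KK L hL) : Bd L g := by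
  obtain ⟨m, d, hm, hd, hd0, rfl⟩ := hg
  exact ⟨m, d, 1, hm 1 one_pos, hd 1 one_pos, hd0, rfl⟩

lemma Bd.sum (hL : Tendsto L atTop atTop) {ι : Type} (A : Finset ι) (f : ι → GG)
    (h : ∀ i ∈ A, Bd L (f i)) : Bd L (∑ i ∈ A, f i) :=
  Finset.sum_induction f (Bd L) (fun _ _ => Bd.add hL) (Bd.of_KK hL (zero_mem _)) h

/-- a bounded germ has bounded numerators and denominators in lowest terms -/
lemma Bd.lowest {a : ℕ → ℚ} (h : Bd L (gm a)) :
    ∃ A : ℝ, ∀ᶠ n in (UU : Filter ℕ), |((a n).num : ℝ)| ≤ Real.exp (A * L n) ∧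
      ((a n).den : ℝ) ≤ Real.exp (A * L n) ∨ a n = 0 := by
  obtain ⟨m, d, A, hm, hd, hd0, hmd⟩ := h
  refine ⟨A, ?_⟩
  rw [gm_eq] at hmd
  filter_upwards [hm, hd, hd0, hmd] with n h1 h2 h3 h4
  by_cases h0 : a n = 0
  · exact Or.inr h0
  left
  have hm0 : m n ≠ 0 := by
    intro h
    rw [h4, h] at h0
    simp at h0
  have h5 : (a n).num ∣ m n := by
    rw [h4, ← Rat.divInt_eq_div]
    exact Rat.num_dvd _ h3
  have h6 : ((a n).den : ℤ) ∣ d n := by
    rw [h4, ← Rat.divInt_eq_div]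
    exact Rat.den_dvd _ _
  constructor
  · refine le_trans ?_ h1
    have := Int.natAbs_le_of_dvd_ne_zero h5 hm0
    rw [← Int.cast_abs, ← Int.cast_abs, Int.abs_eq_natAbs, Int.abs_eq_natAbs, Int.cast_natCast,
      Int.cast_natCast]
    exact_mod_cast this
  · refine le_trans ?_ h2
    have := Int.natAbs_le_of_dvd_ne_zero h6 h3
    rw [← Int.cast_abs, Int.abs_eq_natAbs, Int.cast_natCast]
    exact_mod_cast this

end bd

end Pool.Agent.Y724.Vj
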