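import Mathlib

/-!
# Bases adapted to weights; the dimension of the box part of an ideal of two coprime polynomials
-/

set_option autoImplicit false

namespace Pool.Agent.Y724.Vj

open MvPolynomial Filter Topology

/-- a basis with distinct pivots of smallest weight -/
lemma ech {K V ι : Type*} [Field K] [AddCommGroup V] [Module K V] (c : ι → V →ₗ[K] K)
    (ω : ι → ℝ) (B : Finset ι) : ∀ (W : Submodule K V),
    (∀ x ∈ W, (∀ j ∈ B, c j x = 0) → x = 0) →
    ∃ (M : ℕ) (ψ : Fin M → V) (π : Fin M → ι), LinearIndependent K ψ ∧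
      Submodule.span K (Set.range ψ) = W ∧ Function.Injective π ∧ (∀ i, π i ∈ B) ∧
      ∀ i, ∀ j ∈ B, c j (ψ i) ≠ 0 → ω (π i) ≤ ω j := by
  classical
  refine Finset.induction_on_min_value ω B ?_ ?_
  · intro W hW
    refine ⟨0, Fin.elim0, Fin.elim0, linearIndependent_empty_type, ?_, fun i => i.elim0,
      fun i => i.elim0, fun i => i.elim0⟩
    rw [Set.range_eq_empty, Submodule.span_empty]
    symm
    rw [Submodule.eq_bot_iff]
    intro x hx
    exact hW x hx (by simp)
  · intro a s ha hmin ih W hW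
    obtain ⟨M, ψ, π, h1, h2, h3, h4, h5⟩ := ih (W ⊓ LinearMap.ker (c a)) (by
      intro x hx hx0
      apply hW x hx.1
      intro j hj
      rcases Finset.mem_insert.1 hj with rfl | hj
      · exact hx.2
      · exact hx0 j hj)
    by_cases hle : W ≤ LinearMap.ker (c a)
    · refine ⟨M, ψ, π, h1, ?_, h3, fun i => Finset.mem_insert_of_mem (h4 i), ?_⟩
      · rw [h2, inf_eq_left.2 hle]
      · intro i j hj hne
        rcases Finset.mem_insert.1 hj with rfl | hj
        · exfalso
          apply hne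
          have : ψ i ∈ W ⊓ LinearMap.ker (c j) := by
            rw [← h2]
            exact Submodule.subset_span ⟨i, rfl⟩
          exact this.2
        · exact h5 i j hj hne
    · obtain ⟨x0, hx0, hx1⟩ := Set.not_subset.1 hle
      have hx2 : c a x0 ≠ 0 := fun h => hx1 h
      refine ⟨M + 1, Fin.cons x0 ψ, Fin.cons a π, ?_, ?_, ?_, ?_, ?_⟩
      · rw [linearIndependent_finCons]
        refine ⟨h1, fun h => hx2 ?_⟩
        rw [h2] at h
        exact h.2
      · rw [Fin.range_cons, Submodule.span_insert, h2]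
        apply le_antisymm
        · refine sup_le ?_ inf_le_left
          rw [Submodule.span_singleton_le_iff_mem]
          exact hx0
        · intro y hy
          rw [Submodule.mem_sup]
          refine ⟨(c a y / c a x0) • x0, Submodule.mem_span_singleton.2 ⟨_, rfl⟩,
            y - (c a y / c a x0) • x0, ⟨W.sub_mem hy (W.smul_mem _ hx0), ?_⟩, by abel⟩
          rw [SetLike.mem_coe, LinearMap.mem_ker, map_sub, map_smul, smul_eq_mul,
            div_mul_cancel₀ _ hx2, sub_self]
      · rw [Fin.cons_injective_iff]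
        refine ⟨?_, h3⟩
        rintro ⟨i, rfl⟩
        exact ha (h4 i)
      · intro i
        refine Fin.cases ?_ (fun i => ?_) i
        · exact Finset.mem_insert_self _ _
        · rw [Fin.cons_succ]
          exact Finset.mem_insert_of_mem (h4 i)
      · intro i
        refine Fin.cases ?_ (fun i => ?_) i
        · intro j hj _
          rw [Fin.cons_zero]
          rcases Finset.mem_insert.1 hj with rfl | hj
          · exact le_refl _
          · exact hmin j hj
        · intro j hj hne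
          rw [Fin.cons_succ] at hne ⊢
          rcases Finset.mem_insert.1 hj with rfl | hj
          · exfalso
            apply hne
            have : ψ i ∈ W ⊓ LinearMap.ker (c j) := by
              rw [← h2]
              exact Submodule.subset_span ⟨i, rfl⟩
            exact this.2
          · exact h5 i j hj hne

/-- the box of exponents -/
noncomputable def Bs {m : ℕ} (c : Fin m → ℕ) : Finset (Fin m →₀ ℕ) :=
  (Fintype.piFinset fun j => Finset.range (c j)).map Finsupp.equivFunOnFinite.symm.toEmbedding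

lemma mem_Bs {m : ℕ} {c : Fin m → ℕ} {d : Fin m →₀ ℕ} : d ∈ Bs c ↔ ∀ j, d j < c j := by
  unfold Bs
  rw [Finset.mem_map]
  constructor
  · rintro ⟨e, he, rfl⟩ j
    rw [Fintype.mem_piFinset] at he
    exact Finset.mem_range.1 (he j)
  · intro h
    refine ⟨d, ?_, ?_⟩
    · rw [Fintype.mem_piFinset]
      exact fun j => Finset.mem_range.2 (h j)
    · ext j
      rfl

lemma card_Bs {m : ℕ} (c : Fin m → ℕ) : (Bs c).card = ∏ j, c j := by
  unfold Bs
  rw [Finset.card_map, Fintype.card_piFinset]
  simp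

variable {K : Type*} [Field K] {m : ℕ}

/-- polynomials with exponents in the box -/
noncomputable abbrev RB (K : Type*) [Field K] {m : ℕ} (c : Fin m → ℕ) :
    Submodule K (MvPolynomial (Fin m) K) :=
  restrictSupport K (Bs c : Set (Fin m →₀ ℕ))

lemma mem_RB {c : Fin m → ℕ} {p : MvPolynomial (Fin m) K} :
    p ∈ RB K c ↔ ∀ d ∈ p.support, ∀ j, d j < c j := by
  rw [mem_restrictSupport_iff]
  constructor
  · intro h d hd
    exact mem_Bs.1 (h hd)
  · intro h d hd
    exact mem_Bs.2 (h d hd)

lemma mem_RB' {c : Fin m → ℕ} (hc : ∀ j, 0 < c j) {p : MvPolynomial (Fin m) K} :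
    p ∈ RB K c ↔ ∀ j, degreeOf j p < c j := by
  rw [mem_RB]
  constructor
  · intro h j
    rw [degreeOf_lt_iff (hc j)]
    exact fun d hd => h d hd j
  · intro h d hd j
    exact (degreeOf_lt_iff (hc j)).1 (h j) d hd

lemma finrank_RB (c : Fin m → ℕ) : Module.finrank K (RB K c) = ∏ j, c j := by
  classical
  rw [Module.finrank_eq_card_basis (basisRestrictSupport K (Bs c : Set (Fin m →₀ ℕ))),
    ← card_Bs]
  exact Fintype.card_coe (Bs c)

instance finite_RB (c : Fin m → ℕ) : Module.Finite K (RB K c) :=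
  Module.Finite.of_basis (basisRestrictSupport K (Bs c : Set (Fin m →₀ ℕ)))

/-- the box part of the ideal -/
noncomputable def WW (f g : MvPolynomial (Fin m) K) (n : ℕ) : Submodule K (MvPolynomial (Fin m) K) :=
  (RB K fun j => n - degreeOf j f).map (LinearMap.mulLeft K f) ⊔
    (RB K fun j => n - degreeOf j g).map (LinearMap.mulLeft K g)

lemma WW_le {f g : MvPolynomial (Fin m) K} {n : ℕ}
    (hn : ∀ j, degreeOf j f + degreeOf j g < n) : WW f g n ≤ RB K fun _ => n := by
  have key : ∀ (h : MvPolynomial (Fin m) K), (∀ j, degreeOf j h < n) →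
      (RB K fun j => n - degreeOf j h).map (LinearMap.mulLeft K h) ≤ RB K fun _ => n := by
    intro h hh x hx
    obtain ⟨p, hp, rfl⟩ := Submodule.mem_map.1 hx
    have hp' := (mem_RB' (c := fun j => n - degreeOf j h) (fun j => by
      have := hh j
      omega)).1 hp
    rw [mem_RB' (c := fun _ => n) (fun j => by
      have := hh j
      omega)]
    intro j
    have h1 := degreeOf_mul_le j h p
    have h2 := hp' j
    have h3 := hh j
    rw [LinearMap.mulLeft_apply]
    omega
  exact sup_le (key f fun j => by have := hn j; omega) (key g fun j => by have := hn j; omega)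

lemma finrank_map_mul {f : MvPolynomial (Fin m) K} (hf : f ≠ 0) (c : Fin m → ℕ) :
    Module.finrank K ((RB K c).map (LinearMap.mulLeft K f)) = ∏ j, c j := by
  have hinj : Function.Injective (LinearMap.mulLeft K f) := by
    intro x y hxy
    exact mul_left_cancel₀ hf hxy
  rw [← finrank_RB (K := K) c]
  exact ((Submodule.equivMapOfInjective _ hinj (RB K c)).finrank_eq).symm

lemma finrank_WW {f g : MvPolynomial (Fin m) K} (hf : f ≠ 0) (hg : g ≠ 0)
    (hfg : IsRelPrime f g) {n : ℕ} (hn : ∀ j, degreeOf j f + degreeOf j g < n) :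
    ∏ j, (n - degreeOf j f) + ∏ j, (n - degreeOf j g) ≤
      Module.finrank K (WW f g n) + ∏ j, (n - degreeOf j f - degreeOf j g) := by
  have h1 := Submodule.finrank_sup_add_finrank_inf_eq
    ((RB K fun j => n - degreeOf j f).map (LinearMap.mulLeft K f))
    ((RB K fun j => n - degreeOf j g).map (LinearMap.mulLeft K g))
  rw [finrank_map_mul hf, finrank_map_mul hg] at h1
  rw [← h1]
  apply Nat.add_le_add_left
  rw [← finrank_map_mul (K := K) (mul_ne_zero hf hg)]
  apply Submodule.finrank_mono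
  rintro x ⟨hx1, hx2⟩
  obtain ⟨h, hh, rfl⟩ := Submodule.mem_map.1 hx1
  obtain ⟨k, hk, hk1⟩ := Submodule.mem_map.1 hx2
  rw [LinearMap.mulLeft_apply, LinearMap.mulLeft_apply] at hk1
  have h2 : g ∣ h := by
    refine hfg.symm.dvd_of_dvd_mul_left ?_
    rw [← hk1]
    exact dvd_mul_right _ _
  obtain ⟨l, rfl⟩ := h2
  refine Submodule.mem_map.2 ⟨l, ?_, ?_⟩
  · by_cases hl : l = 0
    · rw [hl]
      exact zero_mem _
    · have hh' := (mem_RB' (c := fun j => n - degreeOf j f) (fun j => by
        have := hn j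
        omega)).1 hh
      rw [mem_RB' (c := fun j => n - degreeOf j f - degreeOf j g) (fun j => by
        have := hn j
        omega)]
      intro j
      have h3 := hh' j
      rw [degreeOf_mul_eq hg hl] at h3
      have := hn j
      omega
  · rw [LinearMap.mulLeft_apply, LinearMap.mulLeft_apply, mul_assoc]

/-- the numerical estimate -/
lemma count_box (a c : Fin m → ℕ) (η : ℝ) (hη : 0 < η) : ∃ n0 : ℕ, ∀ n ≥ n0, ∀ M : ℕ,
    ∏ j, (n - a j) + ∏ j, (n - c j) ≤ M + ∏ j, (n - a j - c j) → M ≤ n ^ m →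
    (((n : ℝ) ^ m - M) * n ≤ η * M) ∧ (n : ℝ) ^ m ≤ 2 * M := by
  classical
  set φ : ℝ → ℝ := fun x => 1 - ∏ j, (1 - a j * x) - ∏ j, (1 - c j * x) +
    ∏ j, (1 - (a j + c j) * x) with hφ
  have hder : ∀ e : Fin m → ℝ, HasDerivAt (fun x : ℝ => ∏ j, (1 - e j * x)) (∑ j, -e j) 0 := by
    intro e
    have h1 := HasDerivAt.fun_finsetProd (u := Finset.univ) (f := fun j => fun x : ℝ => 1 - e j * x)
      (f' := fun j => -e j) (x := (0 : ℝ)) (by
        intro j _
        have h2 := ((hasDerivAt_id (0 : ℝ)).const_mul (e j)).const_sub 1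
        simpa using h2)
    simpa using h1
  have hφ' : HasDerivAt φ 0 0 := by
    have h1 := (((hasDerivAt_const (0 : ℝ) (1 : ℝ)).sub (hder fun j => a j)).sub
      (hder fun j => c j)).add (hder fun j => a j + c j)
    have h2 : (0 - ∑ j, -(a j : ℝ) - ∑ j, -(c j : ℝ) + ∑ j, -((a j : ℝ) + c j)) = 0 := by
      simp only [Finset.sum_neg_distrib, Finset.sum_add_distrib]
      ring
    rw [h2] at h1
    exact h1
  have hφ0 : φ 0 = 0 := by simp [hφ]
  have hlim : Tendsto (fun n : ℕ => (n : ℝ) * φ ((n : ℝ)⁻¹)) atTop (𝓝 0) := by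
    have h1 := hφ'.tendsto_slope_zero
    have h2 : Tendsto (fun n : ℕ => ((n : ℝ)⁻¹)) atTop (𝓝[≠] 0) := by
      rw [tendsto_nhdsWithin_iff]
      refine ⟨tendsto_inv_atTop_nhds_zero_nat, ?_⟩
      filter_upwards [eventually_ge_atTop 1] with n hn
      have : (n : ℝ) ≠ 0 := by
        have : n ≠ 0 := by omega
        exact_mod_cast this
      simpa using this
    have h3 := h1.comp h2
    refine h3.congr fun n => ?_
    simp only [Function.comp_apply, zero_add, hφ0, sub_zero, inv_inv, smul_eq_mul]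
  have h4 := (hlim.eventually (gt_mem_nhds (show (0 : ℝ) < min (η / 2) (1 / 2) by positivity)))
  obtain ⟨n1, hn1⟩ := eventually_atTop.1 h4
  refine ⟨max (n1 + 1) (∑ j, (a j + c j)), fun n hn M hM hM' => ?_⟩
  have hn2 : n1 ≤ n := by
    have := le_max_left (n1 + 1) (∑ j, (a j + c j))
    omega
  have hn3 : 1 ≤ n := by
    have := le_max_left (n1 + 1) (∑ j, (a j + c j))
    omega
  have hac : ∀ j, a j + c j ≤ n := by
    intro j
    have h5 := Finset.single_le_sum (f := fun j => a j + c j) (fun _ _ => Nat.zero_le _)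
      (Finset.mem_univ j)
    have := le_max_right (n1 + 1) (∑ j, (a j + c j))
    omega
  have h5 := hn1 n hn2
  have hnr : (0 : ℝ) < n := by exact_mod_cast hn3
  have hpr : ∀ e : Fin m → ℕ, (∀ j, e j ≤ n) →
      ((∏ j, (n - e j) : ℕ) : ℝ) = (n : ℝ) ^ m * ∏ j, (1 - (e j : ℝ) * (n : ℝ)⁻¹) := by
    intro e he
    rw [Nat.cast_prod]
    have h6 : (n : ℝ) ^ m = ∏ _j : Fin m, (n : ℝ) := by
      rw [Finset.prod_const, Finset.card_univ, Fintype.card_fin]
    rw [h6, ← Finset.prod_mul_distrib]
    refine Finset.prod_congr rfl fun j _ => ?_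
    rw [Nat.cast_sub (he j)]
    field_simp
  have hM2 : (((∏ j, (n - a j) + ∏ j, (n - c j)) : ℕ) : ℝ) ≤
      ((M + ∏ j, (n - (a j + c j)) : ℕ) : ℝ) := by
    have h7 : ∀ j, n - (a j + c j) = n - a j - c j := fun j => by omega
    simp only [h7]
    exact_mod_cast hM
  rw [Nat.cast_add, Nat.cast_add, hpr a fun j => by have := hac j; omega,
    hpr c fun j => by have := hac j; omega, hpr (fun j => a j + c j) hac] at hM2
  have h8 : (n : ℝ) ^ m - M ≤ (n : ℝ) ^ m * φ ((n : ℝ)⁻¹) := by
    rw [hφ]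
    simp only
    push_cast at hM2
    linarith
  have hnm : (0 : ℝ) < (n : ℝ) ^ m := by positivity
  have h9 : ((n : ℝ) ^ m - M) * n ≤ (n : ℝ) ^ m * min (η / 2) (1 / 2) := by
    calc ((n : ℝ) ^ m - M) * n ≤ ((n : ℝ) ^ m * φ ((n : ℝ)⁻¹)) * n :=
          mul_le_mul_of_nonneg_right h8 hnr.le
      _ = (n : ℝ) ^ m * ((n : ℝ) * φ ((n : ℝ)⁻¹)) := by ring
      _ ≤ _ := mul_le_mul_of_nonneg_left h5.le hnm.le
  have h10 : (n : ℝ) ^ m ≤ 2 * M := by
    have h11 : (M : ℝ) ≤ (n : ℝ) ^ m := by exact_mod_cast hM'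
    have h12 : (n : ℝ) ^ m - M ≤ ((n : ℝ) ^ m - M) * n := by
      have h13 : (1 : ℝ) ≤ n := by exact_mod_cast hn3
      nlinarith
    have h13 : (n : ℝ) ^ m * min (η / 2) (1 / 2) ≤ (n : ℝ) ^ m * (1 / 2) :=
      mul_le_mul_of_nonneg_left (min_le_right _ _) hnm.le
    linarith
  refine ⟨h9.trans ?_, h10⟩
  calc (n : ℝ) ^ m * min (η / 2) (1 / 2) ≤ (n : ℝ) ^ m * (η / 2) :=
        mul_le_mul_of_nonneg_left (min_le_left _ _) hnm.le
    _ ≤ (2 * M) * (η / 2) := mul_le_mul_of_nonneg_right h10 (by positivity)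
    _ = η * M := by ring

end Pool.Agent.Y724.Vj
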