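import Mathlib
import Pool.Agent.Y724.Vj.LB
import Pool.Agent.TH551.SU.Sst
import Pool.Agent.TH932.S2.Mov

/-!
# The subspace theorem for germs, finitely many primes, fixed and moving forms
-/

set_option autoImplicit false

namespace Pool.Agent.Y724.Vj

open Filter Topology Pool.Agent.TH932.Germs Pool.Agent.TH551.SU Pool.Agent.TH461.SST
open Pool.Agent.TH551.SU.SUI Pool.Agent.TH932.Abs

/-- the condition at a place -/
def Rw (w : AbsoluteValue ℚ ℝ) (Λ ε t : ℝ) (a : ℚ) : Prop := w a ≤ Real.exp ((ε - t) * Λ)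

/-- `S`-integers up to negligible denominators -/
def Rs (β : ℕ) (Λ ε A : ℝ) (a : ℚ) : Prop :=
  ∃ (d m : ℤ) (k : ℕ), d ≠ 0 ∧ |(d : ℝ)| ≤ Real.exp (ε * Λ) ∧ (d : ℚ) * (β : ℚ) ^ k * a = m ∧
    (k : ℝ) ≤ A * Λ

lemma wv_frac {s : ℕ} (b : Fin s → ℕ) (hb : ∀ v, (b v).Prime) (v : Option (Fin s)) (m d : ℤ)
    (hd : d ≠ 0) : wv b hb v ((m : ℚ) / d) ≤ max |(m : ℝ)| |(d : ℝ)| := by
  have hd1 : (1 : ℝ) ≤ |(d : ℝ)| := by exact_mod_cast Int.one_le_abs hd
  have hdq : (d : ℚ) ≠ 0 := by exact_mod_cast hd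
  have h9 : 0 < wv b hb v (d : ℚ) := (wv b hb v).pos hdq
  cases v with
  | none =>
    have h2 : ∀ k : ℤ, wv b hb none (k : ℚ) = |(k : ℝ)| := by
      intro k
      change Rat.AbsoluteValue.real (k : ℚ) = _
      rw [Rat.AbsoluteValue.real_eq_abs]
      push_cast
      rfl
    rw [map_div₀, h2, h2]
    exact (div_le_self (abs_nonneg _) hd1).trans (le_max_left _ _)
  | some v =>
    have := Fact.mk (hb v)
    have h1 : wv b hb (some v) (m : ℚ) ≤ 1 := padic_int_le (b v) m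
    have h2 : 1 ≤ |(d : ℝ)| * wv b hb (some v) (d : ℚ) := padic_int_ge (b v) d hd
    rw [map_div₀, div_le_iff₀ h9]
    calc wv b hb (some v) (m : ℚ) ≤ 1 := h1
      _ ≤ |(d : ℝ)| * wv b hb (some v) (d : ℚ) := h2
      _ ≤ _ := mul_le_mul_of_nonneg_right (le_max_right _ _) h9.le

lemma two_le_exp' {ε Λ : ℝ} (hε : 0 < ε) (h : 1 / ε ≤ Λ) : 2 ≤ Real.exp (ε * Λ) := by
  have h1 : 1 ≤ ε * Λ := by
    rw [div_le_iff₀ hε] at h
    linarith
  linarith [Real.add_one_le_exp (ε * Λ)]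

lemma pre_w {s : ℕ} (b : Fin s → ℕ) (hb : ∀ v, (b v).Prime) (v : Option (Fin s)) :
    Pre (Rw (wv b hb v)) where
  zero := by
    intro ε hε t
    refine ⟨0, fun Λ hΛ => ?_⟩
    unfold Rw
    rw [map_zero]
    exact (Real.exp_pos _).le
  add := by
    intro ε hε
    refine ⟨1 / (ε / 2), fun Λ hΛ t a c ha hc => ?_⟩
    unfold Rw at *
    have h2 := two_le_exp' (half_pos hε) hΛ
    calc wv b hb v (a + c) ≤ wv b hb v a + wv b hb v c := (wv b hb v).add_le _ _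
      _ ≤ Real.exp ((ε / 2 - t) * Λ) + Real.exp ((ε / 2 - t) * Λ) := add_le_add ha hc
      _ = 2 * Real.exp ((ε / 2 - t) * Λ) := by ring
      _ ≤ Real.exp (ε / 2 * Λ) * Real.exp ((ε / 2 - t) * Λ) :=
          mul_le_mul_of_nonneg_right h2 (Real.exp_pos _).le
      _ = _ := by rw [← Real.exp_add]; ring_nf
  mul := by
    intro ε hε
    refine ⟨0, fun Λ hΛ s t a c ha hc => ?_⟩
    unfold Rw at *
    rw [map_mul]
    calc wv b hb v a * wv b hb v c ≤ Real.exp ((ε / 2 - s) * Λ) * Real.exp ((ε / 2 - t) * Λ) :=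
          mul_le_mul ha hc ((wv b hb v).nonneg _) (Real.exp_pos _).le
      _ = _ := by rw [← Real.exp_add]; ring_nf
  anti := by
    intro ε hε
    refine ⟨0, fun Λ hΛ s t a hst ha => ?_⟩
    unfold Rw at *
    refine ha.trans (Real.exp_le_exp.2 ?_)
    have : 0 ≤ Λ := hΛ
    nlinarith
  alg := by
    intro ε hε
    refine ⟨0, fun Λ hΛ m d hd hm hd1 => ?_⟩
    unfold Rw
    rw [sub_zero]
    exact (wv_frac b hb v m d hd).trans (max_le hm hd1)

lemma filt_w {L : ℕ → ℝ} (hL : Tendsto L atTop atTop) {s : ℕ} (b : Fin s → ℕ)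
    (hb : ∀ v, (b v).Prime) (v : Option (Fin s)) :
    Filt (KK L hL) (SS L (Rw (wv b hb v))) := (pre_w b hb v).filt hL

/-- `S`-integral germs, up to negligible denominators -/
def Sg (L : ℕ → ℝ) (β : ℕ) (g : GG) : Prop := ∃ A : ℝ, g ∈ SS L (Rs β) A

section sg
variable {L : ℕ → ℝ} {β : ℕ}

lemma Rs.mono {Λ ε A A' : ℝ} {a : ℚ} (hΛ : 0 ≤ Λ) (h : A ≤ A') (ha : Rs β Λ ε A a) :
    Rs β Λ ε A' a := by
  obtain ⟨d, m, k, h1, h2, h3, h4⟩ := ha
  exact ⟨d, m, k, h1, h2, h3, h4.trans (mul_le_mul_of_nonneg_right h hΛ)⟩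

lemma Sg.mul {g h : GG} (hg : Sg L β g) (hh : Sg L β h) : Sg L β (g * h) := by
  obtain ⟨A, a, rfl, ha⟩ := hg
  obtain ⟨A', a', rfl, ha'⟩ := hh
  refine ⟨A + A', _, gm_mul a a', fun ε hε => ?_⟩
  filter_upwards [ha (ε / 2) (by positivity), ha' (ε / 2) (by positivity)] with n h1 h2
  obtain ⟨d, m, k, h3, h4, h5, h6⟩ := h1
  obtain ⟨d', m', k', h3', h4', h5', h6'⟩ := h2
  refine ⟨d * d', m * m', k + k', mul_ne_zero h3 h3', ?_, ?_, ?_⟩
  · push_cast
    rw [abs_mul]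
    calc |(d : ℝ)| * |(d' : ℝ)| ≤ Real.exp (ε / 2 * L n) * Real.exp (ε / 2 * L n) := by gcongr
      _ = Real.exp (ε * L n) := by rw [← Real.exp_add]; ring_nf
  · push_cast
    rw [← h5, ← h5', pow_add]
    ring
  · push_cast
    linarith

lemma Sg.add (hL : Tendsto L atTop atTop) {g h : GG} (hg : Sg L β g) (hh : Sg L β h) :
    Sg L β (g + h) := by
  obtain ⟨A, a, rfl, ha⟩ := hg
  obtain ⟨A', a', rfl, ha'⟩ := hh
  refine ⟨A + A', _, gm_add a a', fun ε hε => ?_⟩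
  filter_upwards [ha (ε / 2) (by positivity), ha' (ε / 2) (by positivity)] with n h1 h2
  obtain ⟨d, m, k, h3, h4, h5, h6⟩ := h1
  obtain ⟨d', m', k', h3', h4', h5', h6'⟩ := h2
  refine ⟨d * d', d' * β ^ k' * m + d * β ^ k * m', k + k', mul_ne_zero h3 h3', ?_, ?_, ?_⟩
  · push_cast
    rw [abs_mul]
    calc |(d : ℝ)| * |(d' : ℝ)| ≤ Real.exp (ε / 2 * L n) * Real.exp (ε / 2 * L n) := by gcongr
      _ = Real.exp (ε * L n) := by rw [← Real.exp_add]; ring_nf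
  · push_cast
    rw [← h5, ← h5', pow_add]
    ring
  · push_cast
    linarith

lemma Sg.int (hL : Tendsto L atTop atTop) (m : ℕ → ℤ) : Sg L β (gm fun n => (m n : ℚ)) := by
  refine ⟨0, _, rfl, fun ε hε => ?_⟩
  filter_upwards [L_nonneg hL] with n hn
  refine ⟨1, m n, 0, one_ne_zero, ?_, by simp, by simp⟩
  rw [Int.cast_one, abs_one]
  exact Real.one_le_exp (by positivity)

lemma Sg.KK (hL : Tendsto L atTop atTop) {g : GG} (hg : g ∈ KK L hL) : Sg L β g := by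
  obtain ⟨m, d, hm, hd, hd0, rfl⟩ := hg
  refine ⟨0, _, rfl, fun ε hε => ?_⟩
  filter_upwards [L_nonneg hL, hd ε hε, hd0] with n hn h1 h2
  refine ⟨d n, m n, 0, h2, h1, ?_, by simp⟩
  have : (d n : ℚ) ≠ 0 := by exact_mod_cast h2
  field_simp

lemma Sg.sum (hL : Tendsto L atTop atTop) {ι : Type*} (s : Finset ι) (f : ι → GG)
    (h : ∀ i ∈ s, Sg L β (f i)) : Sg L β (∑ i ∈ s, f i) :=
  Finset.sum_induction f (Sg L β) (fun _ _ => Sg.add hL)
    (by have := Sg.int (β := β) hL (fun _ => 0); simpa [gm_zero] using this) h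

lemma Sg.pow (hL : Tendsto L atTop atTop) {g : GG} (hg : Sg L β g) (k : ℕ) : Sg L β (g ^ k) := by
  induction k with
  | zero => rw [pow_zero]; exact Sg.KK hL (one_mem _)
  | succ k ih => rw [pow_succ]; exact ih.mul hg

lemma Sg.prod (hL : Tendsto L atTop atTop) {ι : Type*} (s : Finset ι) (f : ι → GG)
    (h : ∀ i ∈ s, Sg L β (f i)) : Sg L β (∏ i ∈ s, f i) :=
  Finset.prod_induction f (Sg L β) (fun _ _ => Sg.mul) (Sg.KK hL (one_mem _)) h

end sg

/-! ## one index -/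

lemma wv_beta {s : ℕ} (b : Fin s → ℕ) (hb : ∀ v, (b v).Prime) (v : Fin s) :
    wv b hb (some v) ((∏ v, b v : ℕ) : ℚ) ≤ Real.exp (-Real.log (b v)) := by
  have := Fact.mk (hb v)
  have hbv : (0 : ℝ) < b v := by exact_mod_cast (hb v).pos
  rw [Real.exp_neg, Real.exp_log hbv, ← Finset.mul_prod_erase _ _ (Finset.mem_univ v)]
  push_cast
  rw [map_mul]
  have h1 : wv b hb (some v) (b v : ℚ) = (b v : ℝ)⁻¹ := by
    change Rat.AbsoluteValue.padic (b v) ((b v : ℕ) : ℚ) = _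
    rw [Rat.AbsoluteValue.padic_eq_padicNorm, padicNorm.padicNorm_p_of_prime]
    push_cast
    rfl
  have h2 : wv b hb (some v) (∏ x ∈ Finset.univ.erase v, (b x : ℚ)) ≤ 1 := by
    have h3 := padic_int_le (b v) (∏ x ∈ Finset.univ.erase v, (b x : ℤ))
    push_cast at h3
    exact h3
  rw [h1]
  exact mul_le_of_le_one_right (inv_nonneg.2 hbv.le) h2

lemma dvd_of_wv {s : ℕ} (b : Fin s → ℕ) (hb : ∀ v, (b v).Prime) (v : Fin s) (x : ℤ) (τ : ℝ)
    (h : wv b hb (some v) (x : ℚ) ≤ Real.exp (-τ)) :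
    (b v : ℤ) ^ (⌊τ / Real.log (b v)⌋₊) ∣ x := by
  have := Fact.mk (hb v)
  have hbv : (0 : ℝ) < b v := by exact_mod_cast (hb v).pos
  have hlb : 0 < Real.log (b v) := Real.log_pos (by exact_mod_cast (hb v).one_lt)
  rw [← Nat.cast_pow, padicNorm.dvd_iff_norm_le, ← Rat.cast_le (K := ℝ), Rat.cast_zpow,
    Rat.cast_natCast]
  have h1 : wv b hb (some v) (x : ℚ) = ((padicNorm (b v) (x : ℚ) : ℚ) : ℝ) := by
    change Rat.AbsoluteValue.padic (b v) (x : ℚ) = _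
    rw [Rat.AbsoluteValue.padic_eq_padicNorm]
  rcases le_or_gt 0 τ with hτ | hτ
  · rw [← h1]
    refine h.trans ?_
    have h2 := Nat.floor_le (div_nonneg hτ hlb.le)
    rw [le_div_iff₀ hlb] at h2
    rw [← Real.rpow_intCast, Real.rpow_def_of_pos hbv]
    apply Real.exp_le_exp.2
    push_cast
    linarith
  · have h2 : ⌊τ / Real.log (b v)⌋₊ = 0 := by
      apply Nat.floor_of_nonpos
      exact div_nonpos_of_nonpos_of_nonneg hτ.le hlb.le
    rw [h2]
    simp only [Nat.cast_zero, neg_zero, zpow_zero]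
    rw [← h1]
    exact padic_int_le (b v) x

lemma one_index {s n : ℕ} (b : Fin s → ℕ) (hb : ∀ v, (b v).Prime) {Λ ε A : ℝ} (hΛ : 0 ≤ Λ)
    (hA : 0 ≤ A) (C : Option (Fin s) → Fin n → Fin n → ℤ) (w : Option (Fin s) → Fin n → ℝ)
    (a : Fin n → ℚ) (h1 : ∀ j, Rs (∏ v, b v) Λ ε A (a j))
    (h2 : ∀ v i, Rw (wv b hb v) Λ ε (w v i) (∑ j, (C v i j : ℚ) * a j)) :
    ∃ (D : ℤ) (k : ℕ) (x : Fin n → ℤ), D ≠ 0 ∧ |(D : ℝ)| ≤ Real.exp (n * ε * Λ) ∧
      (k : ℝ) ≤ n * A * Λ ∧ (∀ j, (x j : ℚ) = D * ((∏ v, b v : ℕ) : ℚ) ^ k * a j) ∧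
      (∀ i, |((∑ j, C none i j * x j : ℤ) : ℝ)| ≤
        Real.exp (Real.log |(D : ℝ)| + k * Real.log ((∏ v, b v : ℕ) : ℝ) + (ε - w none i) * Λ)) ∧
      ∀ v i, (b v : ℤ) ^ (⌊(k * Real.log (b v) + (w (some v) i - ε) * Λ) / Real.log (b v)⌋₊) ∣
        ∑ j, C (some v) i j * x j := by
  classical
  choose d m k hd0 hd hdm hk using h1
  have hD0 : (∏ j, d j) ≠ 0 := Finset.prod_ne_zero_iff.2 fun j _ => hd0 j
  have hβ0 : (∏ v, b v) ≠ 0 := Finset.prod_ne_zero_iff.2 fun v _ => (hb v).ne_zero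
  have hβ1 : (0 : ℝ) < ((∏ v, b v : ℕ) : ℝ) := by exact_mod_cast Nat.pos_of_ne_zero hβ0
  set β : ℕ := ∏ v, b v with hβ
  have hx : ∀ j, ∃ x : ℤ, (x : ℚ) = ((∏ j, d j : ℤ) : ℚ) * (β : ℚ) ^ (∑ j, k j) * a j := by
    intro j
    refine ⟨(∏ i ∈ Finset.univ.erase j, d i) * (β : ℤ) ^ (∑ i ∈ Finset.univ.erase j, k i) * m j,
      ?_⟩
    rw [← Finset.mul_prod_erase _ _ (Finset.mem_univ j),
      ← Finset.add_sum_erase _ k (Finset.mem_univ j), pow_add]
    push_cast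
    rw [← hdm j]
    ring
  choose x hx using hx
  have hDr : (0 : ℝ) < |((∏ j, d j : ℤ) : ℝ)| := by
    rw [abs_pos]
    exact_mod_cast hD0
  have hDq : ((∏ j, d j : ℤ) : ℚ) ≠ 0 := by exact_mod_cast hD0
  have hsum : ∀ v i, ((∑ j, C v i j * x j : ℤ) : ℚ) =
      ((∏ j, d j : ℤ) : ℚ) * (β : ℚ) ^ (∑ j, k j) * ∑ j, (C v i j : ℚ) * a j := by
    intro v i
    push_cast
    rw [Finset.mul_sum]
    refine Finset.sum_congr rfl fun j _ => ?_
    have := hx j
    push_cast at this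
    rw [this]
    ring
  refine ⟨∏ j, d j, ∑ j, k j, x, hD0, ?_, ?_, hx, ?_, ?_⟩
  · push_cast
    rw [Finset.abs_prod]
    calc ∏ j, |(d j : ℝ)| ≤ ∏ _j : Fin n, Real.exp (ε * Λ) :=
          Finset.prod_le_prod (fun _ _ => abs_nonneg _) fun j _ => hd j
      _ = _ := by
          rw [Finset.prod_const, Finset.card_univ, Fintype.card_fin, ← Real.exp_nat_mul]
          ring_nf
  · push_cast
    calc ∑ j, (k j : ℝ) ≤ ∑ _j : Fin n, A * Λ := Finset.sum_le_sum fun j _ => hk j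
      _ = _ := by
          rw [Finset.sum_const, Finset.card_univ, Fintype.card_fin, nsmul_eq_mul]
          ring
  · intro i
    have h3 := h2 none i
    unfold Rw at h3
    have h4 : ∀ q : ℚ, wv b hb none q = |(q : ℝ)| := by
      intro q
      change Rat.AbsoluteValue.real q = _
      rw [Rat.AbsoluteValue.real_eq_abs]
      push_cast
      rfl
    rw [h4] at h3
    have h5 : |((∑ j, C none i j * x j : ℤ) : ℝ)| =
        |((∏ j, d j : ℤ) : ℝ)| * (β : ℝ) ^ (∑ j, k j) *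
          |((∑ j, (C none i j : ℚ) * a j : ℚ) : ℝ)| := by
      have h6 := congrArg (fun q : ℚ => |(q : ℝ)|) (hsum none i)
      simp only [Rat.cast_intCast, Rat.cast_mul, Rat.cast_pow, Rat.cast_natCast, abs_mul] at h6
      rw [h6, abs_of_nonneg (pow_nonneg hβ1.le _)]
    rw [h5, Real.exp_add, Real.exp_add, Real.exp_log hDr, Real.exp_nat_mul, Real.exp_log hβ1]
    exact mul_le_mul_of_nonneg_left h3 (by positivity)
  · intro v i
    apply dvd_of_wv b hb v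
    have h3 := h2 (some v) i
    unfold Rw at h3
    rw [hsum (some v) i, map_mul, map_mul, map_pow]
    have := Fact.mk (hb v)
    have h4 : wv b hb (some v) ((∏ j, d j : ℤ) : ℚ) ≤ 1 := padic_int_le (b v) _
    have h5 := wv_beta b hb v
    rw [← hβ] at h5
    calc wv b hb (some v) ((∏ j, d j : ℤ) : ℚ) * wv b hb (some v) (β : ℚ) ^ (∑ j, k j) *
          wv b hb (some v) (∑ j, (C (some v) i j : ℚ) * a j)
        ≤ 1 * Real.exp (-Real.log (b v)) ^ (∑ j, k j) *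
            Real.exp ((ε - w (some v) i) * Λ) := by
          refine mul_le_mul (mul_le_mul h4 ?_ (by positivity) zero_le_one) h3
            (by positivity) (by positivity)
          exact pow_le_pow_left₀ ((wv b hb (some v)).nonneg _) h5 _
      _ = _ := by
          rw [one_mul, ← Real.exp_nat_mul, ← Real.exp_add]
          congr 1
          push_cast
          ring

end Pool.Agent.Y724.Vj
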