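import Mathlib
import Pool.Agent.Y724.Vj.Fix

/-!
# The subspace theorem for germs, finitely many primes, fixed and moving forms: the theorems
-/

set_option autoImplicit false

namespace Pool.Agent.Y724.Vj

open Filter Topology Pool.Agent.TH932.Germs Pool.Agent.TH551.SU Pool.Agent.TH461.SST
open Pool.Agent.TH551.SU.SUI Pool.Agent.TH932.Abs

/-- the size condition -/
lemma size_fix {s n : ℕ} (b : Fin s → ℕ) (hb : ∀ v, (b v).Prime) {Λ ε A σ c : ℝ} (hε : 0 < ε)
    (hΛ : 1 ≤ Λ) (hA : 0 ≤ A) (w : Option (Fin s) → Fin n → ℝ) (hσ : σ = ∑ v, ∑ i, w v i)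
    (hε1 : 8 * (n + 1) ^ 2 * (s + 1) * ε = σ)
    (hc : c = n * ε + n * A * Real.log ((∏ v, b v : ℕ) : ℝ) + ε + ∑ v, ∑ i, |w v i| + 1)
    (hbig : 2 * n * Real.log ((∏ v, b v : ℕ) : ℝ) ≤ σ * Λ) (D : ℤ) (k : ℕ) (hD : D ≠ 0)
    (hD1 : |(D : ℝ)| ≤ Real.exp (n * ε * Λ)) (hk : (k : ℝ) ≤ n * A * Λ) :
    Size b c (σ / 4) Λ
      (fun v i => ⌊(k * Real.log (b v) + (w (some v) i - ε) * Λ) / Real.log (b v)⌋₊)
      (fun i => Real.exp (Real.log |(D : ℝ)| + k * Real.log ((∏ v, b v : ℕ) : ℝ) +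
        (ε - w none i) * Λ)) := by
  classical
  have hlb : ∀ v, 0 < Real.log (b v) := fun v => Real.log_pos (by exact_mod_cast (hb v).one_lt)
  have hDr : (1 : ℝ) ≤ |(D : ℝ)| := by exact_mod_cast Int.one_le_abs hD
  have hlD0 : 0 ≤ Real.log |(D : ℝ)| := Real.log_nonneg hDr
  have hlD : Real.log |(D : ℝ)| ≤ n * ε * Λ := by
    rw [Real.log_le_iff_le_exp (by linarith)]
    exact hD1
  have hlβ : Real.log ((∏ v, b v : ℕ) : ℝ) = ∑ v, Real.log (b v) := by
    push_cast
    rw [Real.log_prod]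
    intro v _
    exact_mod_cast (hb v).ne_zero
  have hlβ0 : 0 ≤ Real.log ((∏ v, b v : ℕ) : ℝ) := by
    rw [hlβ]
    exact Finset.sum_nonneg fun v _ => (hlb v).le
  have hlbβ : ∀ v, Real.log (b v) ≤ Real.log ((∏ v, b v : ℕ) : ℝ) := by
    intro v
    rw [hlβ]
    exact Finset.single_le_sum (f := fun v => Real.log (b v : ℝ)) (fun v _ => (hlb v).le)
      (Finset.mem_univ v)
  have hΛ0 : 0 ≤ Λ := by linarith
  have hk0 : (0 : ℝ) ≤ k := Nat.cast_nonneg k
  have hw : ∀ v i, |w v i| ≤ ∑ v, ∑ i, |w v i| := by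
    intro v i
    have h1 : |w v i| ≤ ∑ i, |w v i| :=
      Finset.single_le_sum (f := fun i => |w v i|) (fun i _ => abs_nonneg _) (Finset.mem_univ i)
    have h2 : ∑ i, |w v i| ≤ ∑ v, ∑ i, |w v i| :=
      Finset.single_le_sum (f := fun v => ∑ i, |w v i|)
        (fun v _ => Finset.sum_nonneg fun i _ => abs_nonneg _) (Finset.mem_univ v)
    linarith
  have hkβ : (k : ℝ) * Real.log ((∏ v, b v : ℕ) : ℝ) ≤
      n * A * Real.log ((∏ v, b v : ℕ) : ℝ) * Λ := by
    calc (k : ℝ) * Real.log ((∏ v, b v : ℕ) : ℝ) ≤ (n * A * Λ) *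
        Real.log ((∏ v, b v : ℕ) : ℝ) := mul_le_mul_of_nonneg_right hk hlβ0
      _ = _ := by ring
  have hkb : ∀ v, (k : ℝ) * Real.log (b v) ≤ k * Real.log ((∏ v, b v : ℕ) : ℝ) := fun v =>
    mul_le_mul_of_nonneg_left (hlbβ v) hk0
  have hn0 : (0 : ℝ) ≤ n := Nat.cast_nonneg n
  have hs0 : (0 : ℝ) ≤ s := Nat.cast_nonneg s
  have hnε : 0 ≤ n * ε := by positivity
  refine ⟨?_, fun l => Real.exp_pos _, ?_, ?_⟩
  · intro v i
    have h0 : (0 : ℝ) ≤ c * Λ := by
      have : 0 ≤ ∑ v, ∑ i, |w v i| := Finset.sum_nonneg fun v _ =>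
        Finset.sum_nonneg fun i _ => abs_nonneg _
      have : 0 ≤ n * A * Real.log ((∏ v, b v : ℕ) : ℝ) := by positivity
      rw [hc]
      positivity
    rcases le_or_gt 0 ((k * Real.log (b v) + (w (some v) i - ε) * Λ) / Real.log (b v)) with h | h
    · have h1 := Nat.floor_le h
      rw [le_div_iff₀ (hlb v)] at h1
      refine h1.trans ?_
      have h2 := hw (some v) i
      have h3 := le_abs_self (w (some v) i)
      have h4 : (w (some v) i - ε) * Λ ≤ (∑ v, ∑ i, |w v i|) * Λ :=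
        mul_le_mul_of_nonneg_right (by linarith) hΛ0
      have h5 := hkb v
      rw [hc]
      nlinarith
    · simp only [Nat.floor_of_nonpos h.le]
      simpa using h0
  · intro i
    rw [Real.log_exp]
    have h2 := hw none i
    have h3 := abs_le.1 h2
    have h4 : (w none i) * Λ ≤ (∑ v, ∑ i, |w v i|) * Λ :=
      mul_le_mul_of_nonneg_right h3.2 hΛ0
    have h5 : -(∑ v, ∑ i, |w v i|) * Λ ≤ (w none i) * Λ :=
      mul_le_mul_of_nonneg_right h3.1 hΛ0
    have h6 : 0 ≤ (k : ℝ) * Real.log ((∏ v, b v : ℕ) : ℝ) := mul_nonneg hk0 hlβ0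
    have h7 : 0 ≤ ε * Λ := by positivity
    have h8 : 0 ≤ n * ε * Λ := by positivity
    have h9 : 0 ≤ n * A * Real.log ((∏ v, b v : ℕ) : ℝ) * Λ := by positivity
    rw [hc, abs_le]
    constructor <;> nlinarith
  · have hA1 : ∑ i : Fin n, Real.log (Real.exp (Real.log |(D : ℝ)| +
        k * Real.log ((∏ v, b v : ℕ) : ℝ) + (ε - w none i) * Λ)) =
        n * Real.log |(D : ℝ)| + n * (k * Real.log ((∏ v, b v : ℕ) : ℝ)) + n * ε * Λ -
          (∑ i, w none i) * Λ := by
      have h1 : ∀ i : Fin n, Real.log (Real.exp (Real.log |(D : ℝ)| +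
        k * Real.log ((∏ v, b v : ℕ) : ℝ) + (ε - w none i) * Λ)) =
          (Real.log |(D : ℝ)| + k * Real.log ((∏ v, b v : ℕ) : ℝ) + ε * Λ) - w none i * Λ := by
        intro i
        rw [Real.log_exp]
        ring
      rw [Finset.sum_congr rfl fun i _ => h1 i, Finset.sum_sub_distrib, ← Finset.sum_mul,
        Finset.sum_const, Finset.card_univ, Fintype.card_fin, nsmul_eq_mul]
      ring
    have hB1 : n * (k * Real.log ((∏ v, b v : ℕ) : ℝ)) + (∑ v, ∑ i, w (some v) i) * Λ -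
        s * n * ε * Λ - n * Real.log ((∏ v, b v : ℕ) : ℝ) ≤
        ∑ v, ∑ i, ((⌊(k * Real.log (b v) + (w (some v) i - ε) * Λ) / Real.log (b v)⌋₊ : ℕ) : ℝ) *
          Real.log (b v) := by
      have h1 : ∀ v i, k * Real.log (b v) + (w (some v) i - ε) * Λ - Real.log (b v) ≤
          ((⌊(k * Real.log (b v) + (w (some v) i - ε) * Λ) / Real.log (b v)⌋₊ : ℕ) : ℝ) *
            Real.log (b v) := by
        intro v i
        have h3 := (Nat.lt_floor_add_one
          ((k * Real.log (b v) + (w (some v) i - ε) * Λ) / Real.log (b v))).le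
        rw [div_le_iff₀ (hlb v)] at h3
        linarith
      refine le_trans (le_of_eq ?_) (Finset.sum_le_sum fun v _ =>
        Finset.sum_le_sum fun i _ => h1 v i)
      have h2 : ∀ v : Fin s, ∑ i : Fin n, (k * Real.log (b v) + (w (some v) i - ε) * Λ -
          Real.log (b v)) = (n * k - n) * Real.log (b v) + ((∑ i, w (some v) i) * Λ +
            -(n * ε * Λ)) := by
        intro v
        have h4 : ∀ i : Fin n, (k * Real.log (b v) + (w (some v) i - ε) * Λ -
          Real.log (b v)) = (k * Real.log (b v) - ε * Λ - Real.log (b v)) +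
            w (some v) i * Λ := fun i => by ring
        rw [Finset.sum_congr rfl fun i _ => h4 i, Finset.sum_add_distrib, ← Finset.sum_mul,
          Finset.sum_const, Finset.card_univ, Fintype.card_fin, nsmul_eq_mul]
        ring
      rw [Finset.sum_congr rfl fun v _ => h2 v, Finset.sum_add_distrib, Finset.sum_add_distrib,
        ← Finset.mul_sum, ← Finset.sum_mul, ← hlβ,
        Finset.sum_const, Finset.card_univ, Fintype.card_fin, nsmul_eq_mul]
      ring
    rw [hA1]
    refine le_trans ?_ hB1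
    rw [Fintype.sum_option] at hσ
    have e1 : (∑ i, w none i) * Λ + (∑ v, ∑ i, w (some v) i) * Λ = σ * Λ := by
      rw [hσ]
      ring
    have e2 : n * Real.log |(D : ℝ)| ≤ n * (n * ε * Λ) := mul_le_mul_of_nonneg_left hlD hn0
    have e3 : n * (n * ε * Λ) + n * ε * Λ + s * n * ε * Λ ≤ 1 / 8 * (σ * Λ) := by
      have h7 : 0 ≤ ε * Λ := by positivity
      have h8 : (n : ℝ) * n + n + s * n ≤ (n + 1) ^ 2 * (s + 1) := by nlinarith [mul_nonneg hn0 hs0, mul_nonneg (mul_nonneg hn0 hn0) hs0]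
      have h9 := mul_le_mul_of_nonneg_right h8 h7
      rw [← hε1]
      nlinarith
    have e4 : 0 ≤ σ * Λ := by
      rw [← hε1]
      positivity
    linarith

theorem fix_fin {s : ℕ} (b : Fin s → ℕ) (hb : ∀ v, (b v).Prime) (hbi : Function.Injective b)
    (L : ℕ → ℝ) (hL : Tendsto L atTop atTop) (n : ℕ)
    (z : Option (Fin s) → Fin n → GG) (w : Option (Fin s) → Fin n → ℝ)
    (hind : ∀ v, ∀ c : Fin n → ℤ, ∑ i, (c i : GG) * z v i = 0 → ∀ i, c i = 0)
    (hN : ∀ v i, ∃ N : ℤ, N ≠ 0 ∧ ∃ c : Fin n → ℤ, (N : GG) * z v i = ∑ j, (c j : GG) * z none j)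
    (hv : ∀ v i, z v i ∈ SS L (Rw (wv b hb v)) (w v i))
    (hS : ∀ i, Sg L (∏ v, b v) (z none i)) :
    ∑ v, ∑ i, w v i ≤ 0 := by
  classical
  by_contra hcon
  push Not at hcon
  have hn : 1 ≤ n := by
    rcases Nat.eq_zero_or_pos n with h0 | h0
    · subst h0
      simp at hcon
    · exact h0
  choose K hK0 C hC using hN
  choose a ha using fun i => gm_surj (z none i)
  choose t0 ht0 using hS
  -- determinants
  have hdet : ∀ v, (Matrix.of (C v)).det ≠ 0 := by
    intro v h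
    obtain ⟨u, hu0, hu⟩ := Matrix.exists_vecMul_eq_zero_iff.2 h
    have h1 : ∑ i, ((u i * K v i : ℤ) : GG) * z v i = 0 := by
      calc ∑ i, ((u i * K v i : ℤ) : GG) * z v i
          = ∑ i, (u i : GG) * ∑ j, (C v i j : GG) * z none j := by
            apply Finset.sum_congr rfl
            intro i _
            rw [← hC]; push_cast; ring
        _ = ∑ j, ((∑ i, u i * C v i j : ℤ) : GG) * z none j := by
            simp only [Finset.mul_sum, Int.cast_sum, Finset.sum_mul]
            rw [Finset.sum_comm]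
            apply Finset.sum_congr rfl
            intro j _
            apply Finset.sum_congr rfl
            intro i _
            push_cast; ring
        _ = 0 := by
            apply Finset.sum_eq_zero
            intro j _
            have h2 : (∑ i, u i * C v i j) = 0 := by
              have := congrFun hu j
              simpa [Matrix.vecMul, dotProduct] using this
            rw [h2, Int.cast_zero, zero_mul]
    have h3 := hind v (fun i => u i * K v i) h1
    apply hu0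
    funext i
    exact (mul_eq_zero.1 (h3 i)).resolve_right (hK0 v i)
  have gm_lin : ∀ (c : Fin n → ℤ), ∑ j, (c j : GG) * gm (a j) =
      gm (fun m => ∑ j, (c j : ℚ) * a j m) := by
    intro c
    have h1 : ∀ T : Finset (Fin n), ∑ j ∈ T, (c j : GG) * gm (a j) =
        gm (fun m => ∑ j ∈ T, (c j : ℚ) * a j m) := by
      intro T
      induction T using Finset.induction_on with
      | empty => simp [gm_zero]
      | insert x T hx ih =>
        rw [Finset.sum_insert hx, ih]
        have h2 : (c x : GG) * gm (a x) = gm (fun m => (c x : ℚ) * a x m) := rfl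
        rw [h2, gm_add]
        congr 1
        funext m
        rw [Finset.sum_insert hx]
    exact h1 _
  -- the values of the forms
  have hval : ∀ v i, gm (fun m => ∑ j, (C v i j : ℚ) * a j m) ∈
      SS L (Rw (wv b hb v)) (w v i) := by
    intro v i
    rw [← gm_lin]
    simp only [ha]
    rw [← hC]
    have h1 : algebraMap (KK L hL) GG (K v i : KK L hL) ∈ SS L (Rw (wv b hb v)) 0 :=
      (filt_w hL b hb v).alg_mem _
    rw [map_intCast] at h1
    have h2 := (filt_w hL b hb v).mul_mem h1 (hv v i)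
    rw [zero_add] at h2
    exact h2
  -- parameters
  set σ : ℝ := ∑ v, ∑ i, w v i with hσ
  set ε : ℝ := σ / (8 * (n + 1) ^ 2 * (s + 1)) with hε
  have hε0 : 0 < ε := by positivity
  have hε1 : 8 * (n + 1) ^ 2 * (s + 1) * ε = σ := by
    rw [hε]; field_simp
  set A : ℝ := ∑ i, |t0 i| with hA
  have hA0 : 0 ≤ A := Finset.sum_nonneg fun i _ => abs_nonneg _
  have hA1 : ∀ i, t0 i ≤ A := fun i => (le_abs_self _).trans
    (Finset.single_le_sum (f := fun i => |t0 i|) (fun i _ => abs_nonneg _) (Finset.mem_univ i))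
  set β : ℕ := ∏ v, b v with hβ
  have hβ0 : β ≠ 0 := Finset.prod_ne_zero_iff.2 fun v _ => (hb v).ne_zero
  have hβq : (β : ℚ) ≠ 0 := by exact_mod_cast hβ0
  have hlβ0 : 0 ≤ Real.log (β : ℝ) := Real.log_natCast_nonneg _
  set c : ℝ := n * ε + n * A * Real.log (β : ℝ) + ε + ∑ v, ∑ i, |w v i| + 1 with hc
  have hc1 : 1 ≤ c := by
    have h1 : 0 ≤ ∑ v, ∑ i, |w v i| :=
      Finset.sum_nonneg fun v _ => Finset.sum_nonneg fun i _ => abs_nonneg _
    have : 0 ≤ n * A * Real.log (β : ℝ) := by positivity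
    have : 0 ≤ n * ε := by positivity
    linarith
  -- the good indices
  have hev : ∀ᶠ m in (UU : Filter ℕ), (∀ j, Rs β (L m) ε A (a j m)) ∧
      (∀ v i, Rw (wv b hb v) (L m) ε (w v i) (∑ j, (C v i j : ℚ) * a j m)) ∧
      (∀ j, a j m ≠ 0) ∧ 1 ≤ L m ∧ 2 * n * Real.log (β : ℝ) ≤ σ * L m := by
    have e1 : ∀ᶠ m in (UU : Filter ℕ), ∀ j, Rs β (L m) ε A (a j m) := by
      rw [Filter.eventually_all]
      intro j
      have h1 := ht0 j
      rw [← ha, mem_SS] at h1
      filter_upwards [h1 ε hε0, L_nonneg hL] with m hm hm0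
      exact hm.mono hm0 (hA1 j)
    have e2 : ∀ᶠ m in (UU : Filter ℕ), ∀ v i,
        Rw (wv b hb v) (L m) ε (w v i) (∑ j, (C v i j : ℚ) * a j m) := by
      rw [Filter.eventually_all]
      intro v
      rw [Filter.eventually_all]
      intro i
      have := hval v i
      rw [mem_SS] at this
      exact this ε hε0
    have e3 : ∀ᶠ m in (UU : Filter ℕ), ∀ j, a j m ≠ 0 := by
      rw [Filter.eventually_all]
      intro j
      rw [← gm_ne_zero, ha]
      intro h0
      have h1 := hind none (Pi.single j 1) (by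
        apply Finset.sum_eq_zero
        intro i _
        by_cases hij : i = j
        · subst hij; rw [h0, mul_zero]
        · rw [Pi.single_eq_of_ne hij, Int.cast_zero, zero_mul]) j
      rw [Pi.single_eq_same] at h1
      exact one_ne_zero h1
    have e4 : ∀ᶠ m in (UU : Filter ℕ), 1 ≤ L m := ev_of_atTop (hL.eventually_ge_atTop 1)
    have e5 : ∀ᶠ m in (UU : Filter ℕ), 2 * n * Real.log (β : ℝ) / σ ≤ L m :=
      ev_of_atTop (hL.eventually_ge_atTop _)
    filter_upwards [e1, e2, e3, e4, e5] with m h1 h2 h3 h4 h5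
    refine ⟨h1, h2, h3, h4, ?_⟩
    rw [div_le_iff₀ hcon] at h5
    linarith
  obtain ⟨y, hy⟩ := exists_surjective_nat (Fin n → ℤ)
  have hex : ∀ s' : ℕ, ∃ m : ℕ, ((∀ j, Rs β (L m) ε A (a j m)) ∧
      (∀ v i, Rw (wv b hb v) (L m) ε (w v i) (∑ j, (C v i j : ℚ) * a j m)) ∧
      (∀ j, a j m ≠ 0) ∧ 1 ≤ L m ∧ 2 * n * Real.log (β : ℝ) ≤ σ * L m) ∧ s' ≤ m ∧
      ∀ k < s', y k ≠ 0 → ∑ l, (y k l : ℚ) * a l m ≠ 0 := by
    intro s'
    have e1 : ∀ᶠ m in (UU : Filter ℕ), s' ≤ m := ev_of_atTop (eventually_ge_atTop s')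
    have e2 : ∀ᶠ m in (UU : Filter ℕ), ∀ k ∈ Set.Iio s', y k ≠ 0 →
        ∑ l, (y k l : ℚ) * a l m ≠ 0 := by
      rw [Filter.eventually_all_finite (Set.finite_Iio s')]
      intro k _
      by_cases h0 : y k = 0
      · exact Eventually.of_forall fun m h => absurd h0 h
      · have h1 : gm (fun m => ∑ l, (y k l : ℚ) * a l m) ≠ 0 := by
          rw [← gm_lin]
          simp only [ha]
          intro h2
          exact h0 (funext (hind none (y k) h2))
        rw [gm_ne_zero] at h1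
        filter_upwards [h1] with m hm _ using hm
    obtain ⟨m, h1, h2, h3⟩ := (hev.and (e1.and e2)).exists
    exact ⟨m, h1, h2, h3⟩
  choose mm hmm hms hmy using hex
  have hstep := fun s' => one_index b hb (Λ := L (mm s')) (ε := ε) (A := A)
    (le_trans zero_le_one (hmm s').2.2.2.1) hA0 C w (fun j => a j (mm s')) (hmm s').1
    (hmm s').2.1
  choose D k x hD hD1 hk hx hsolI hsolP using hstep
  have htend : Tendsto (fun s' => L (mm s')) atTop atTop :=
    hL.comp (tendsto_atTop_mono hms tendsto_id)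
  have hpl : Places (Matrix.of (C none)) (fun v => Matrix.of (C (some v))) b :=
    ⟨hdet none, fun v => hdet (some v), fun v => (hb v).two_le, fun v v' hv =>
      (Nat.coprime_primes (hb v) (hb v')).2 fun h => hv (hbi h)⟩
  obtain ⟨u, hu0, hu⟩ := sst n s hn (Matrix.of (C none)) (fun v => Matrix.of (C (some v))) b
    hpl c (σ / 4) hc1 (by positivity) (fun s' => L (mm s')) htend
    (fun s' v i => ⌊(k s' * Real.log (b v) + (w (some v) i - ε) * L (mm s')) /
      Real.log (b v)⌋₊)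
    (fun s' i => Real.exp (Real.log |(D s' : ℝ)| + k s' * Real.log (β : ℝ) +
        (ε - w none i) * L (mm s')))
    (fun s' => size_fix b hb hε0 (hmm s').2.2.2.1 hA0 w hσ hε1 hc
      (hmm s').2.2.2.2 (D s') (k s') (hD s') (hD1 s') (hk s')) x
    (by
      intro s' h0
      have h1 := hx s' ⟨0, hn⟩
      rw [h0] at h1
      simp only [Pi.zero_apply, Int.cast_zero] at h1
      have h2 : (D s' : ℚ) ≠ 0 := by exact_mod_cast hD s'
      exact mul_ne_zero (mul_ne_zero h2 (pow_ne_zero _ hβq)) ((hmm s').2.2.1 ⟨0, hn⟩) h1.symm)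
    (fun s' => ⟨fun l => hsolI s' l, fun v l => hsolP s' v l⟩)
  obtain ⟨k0, rfl⟩ := hy u
  obtain ⟨s', hs1, hs2⟩ := (hu.and_eventually (eventually_gt_atTop k0)).exists
  have h1 := hmy s' k0 hs2 hu0
  apply h1
  have h2 : (((∑ l, y k0 l * x s' l : ℤ)) : ℚ) = D s' * (β : ℚ) ^ k s' *
      ∑ l, (y k0 l : ℚ) * a l (mm s') := by
    push_cast
    rw [Finset.mul_sum]
    apply Finset.sum_congr rfl
    intro l _
    rw [hx]; ring
  rw [hs1, Int.cast_zero] at h2
  have h3 : (D s' : ℚ) ≠ 0 := by exact_mod_cast hD s'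
  exact (mul_eq_zero.1 h2.symm).resolve_left (mul_ne_zero h3 (pow_ne_zero _ hβq))

theorem fixS {s : ℕ} (b : Fin s → ℕ) (hb : ∀ v, (b v).Prime) (hbi : Function.Injective b)
    (L : ℕ → ℝ) (hL : Tendsto L atTop atTop) (ι : Type) (_ : Fintype ι)
    (z : Option (Fin s) → ι → GG) (w : Option (Fin s) → ι → ℝ)
    (hind : ∀ v, ∀ c : ι → ℤ, ∑ i, (c i : GG) * z v i = 0 → ∀ i, c i = 0)
    (hN : ∀ v i, ∃ N : ℤ, N ≠ 0 ∧ ∃ c : ι → ℤ, (N : GG) * z v i = ∑ j, (c j : GG) * z none j)
    (hv : ∀ v i, z v i ∈ SS L (Rw (wv b hb v)) (w v i))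
    (hS : ∀ i, Sg L (∏ v, b v) (z none i)) :
    ∑ v, ∑ i, w v i ≤ 0 := by
  let e : ι ≃ Fin (Fintype.card ι) := Fintype.equivFin ι
  have h := fix_fin b hb hbi L hL (Fintype.card ι) (fun v i => z v (e.symm i))
    (fun v i => w v (e.symm i)) ?_ ?_ (fun v i => hv v _) (fun i => hS _)
  · calc ∑ v, ∑ i, w v i = ∑ v, ∑ i, w v (e.symm i) := by
          apply Finset.sum_congr rfl
          intro v _
          exact (Equiv.sum_comp e.symm (fun i => w v i)).symm
      _ ≤ 0 := h
  · intro v c hc i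
    have h1 := hind v (fun j => c (e j)) (by
      rw [← hc, ← Equiv.sum_comp e.symm]
      simp) (e.symm i)
    simpa using h1
  · intro v i
    obtain ⟨N, hN0, c, hc⟩ := hN v (e.symm i)
    refine ⟨N, hN0, fun j => c (e.symm j), ?_⟩
    rw [hc, ← Equiv.sum_comp e.symm]

/-- the subspace theorem for germs, forms with negligible coefficients -/
theorem movS {s : ℕ} (b : Fin s → ℕ) (hb : ∀ v, (b v).Prime) (hbi : Function.Injective b)
    (L : ℕ → ℝ) (hL : Tendsto L atTop atTop) (ι : Type) [Fintype ι]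
    (z : Option (Fin s) → ι → GG) (w : Option (Fin s) → ι → ℝ)
    (h1 : ∀ v, ∀ c : ι → KK L hL, ∑ i, (c i : GG) * z v i = 0 → ∀ i, c i = 0)
    (h2 : ∀ v i, ∃ c : ι → KK L hL, z v i = ∑ j, (c j : GG) * z none j)
    (h3 : ∀ v i, z v i ∈ SS L (Rw (wv b hb v)) (w v i))
    (h4 : ∀ i, Sg L (∏ v, b v) (z none i))
    (h5 : ∀ v i, ∃ t, z none i ∈ SS L (Rw (wv b hb v)) t) :
    ∑ v, ∑ i, w v i ≤ 0 := by
  choose t ht using h5
  refine Pool.Agent.TH932.S2.Mov.mov_abs (K := KK L hL) (G := GG) none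
    (fun v => SS L (Rw (wv b hb v))) (filt_w hL b hb) (Sg L (∏ v, b v))
    (fun c g hg => (Sg.KK hL c.2).mul hg)
    (fun J _ z w => fixS b hb hbi L hL J _ z w) ι z w h1 h2 h3 h4
    (∑ v, ∑ i, |t v i|) (Finset.sum_nonneg fun v _ => Finset.sum_nonneg fun i _ => abs_nonneg _)
    (fun v i => (filt_w hL b hb v).anti ?_ (ht v i))
  have e1 : |t v i| ≤ ∑ i, |t v i| :=
    Finset.single_le_sum (f := fun i => |t v i|) (fun i _ => abs_nonneg _) (Finset.mem_univ i)
  have e2 : ∑ i, |t v i| ≤ ∑ v, ∑ i, |t v i| :=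
    Finset.single_le_sum (f := fun v => ∑ i, |t v i|)
      (fun v _ => Finset.sum_nonneg fun i _ => abs_nonneg _) (Finset.mem_univ v)
  have e3 := neg_abs_le (t v i)
  linarith

end Pool.Agent.Y724.Vj
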