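import Mathlib
import Pool.Agent.Y724.Vj.Fix2
import Pool.Agent.Y724.Vj.Ech
import Pool.Agent.Y724.Vj.LB2

/-!
# The common divisor of two coprime polynomials at moving S-units is negligible
-/

set_option autoImplicit false

namespace Pool.Agent.Y724.Vj

open Filter Topology Pool.Agent.TH932.Germs Pool.Agent.TH551.SU Pool.Agent.TH461.SST
open Pool.Agent.TH551.SU.SUI Pool.Agent.TH932.Abs MvPolynomial

variable {L : ℕ → ℝ}

/-- exponents -/
noncomputable def ex (L : ℕ → ℝ) (w : AbsoluteValue ℚ ℝ) (a : ℕ → ℚ) (n : ℕ) : ℝ :=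
  -Real.log (w (a n)) / L n

/-- existence of limits -/
lemma exists_lim (hL : Tendsto L atTop atTop) (x : ℕ → ℝ) (A : ℝ)
    (h : ∀ᶠ n in (UU : Filter ℕ), |x n| ≤ A * L n) :
    ∃ t : ℝ, |t| ≤ A ∧ Tendsto (fun n => x n / L n) (UU : Filter ℕ) (𝓝 t) := by
  have h1 : ∀ᶠ n in (UU : Filter ℕ), x n / L n ∈ Set.Icc (-A) A := by
    filter_upwards [h, ev_of_atTop (hL.eventually_gt_atTop 0)] with n h2 h3
    have h4 := abs_le.1 h2
    constructor
    · rw [le_div_iff₀ h3]
      linarith
    · rw [div_le_iff₀ h3]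
      exact h4.2
  have h2 : ((UU.map (fun n => x n / L n) : Ultrafilter ℝ) : Filter ℝ) ≤
      𝓟 (Set.Icc (-A) A) := by
    rw [le_principal_iff]
    exact h1
  obtain ⟨t, ht, htt⟩ := (isCompact_Icc (a := -A) (b := A)).ultrafilter_le_nhds _ h2
  exact ⟨t, abs_le.2 ⟨ht.1, ht.2⟩, htt⟩

section
variable {s : ℕ} (b : Fin s → ℕ) (hb : ∀ v, (b v).Prime)

lemma wv_le_of_bd (v : Option (Fin s)) {a : ℕ → ℚ} (hB : Bd L (gm a)) (h0 : gm a ≠ 0) :
    ∃ A : ℝ, ∀ᶠ n in (UU : Filter ℕ), |-Real.log (wv b hb v (a n))| ≤ A * L n := by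
  obtain ⟨m, d, A, hm, hd, hd0, hmd⟩ := hB
  refine ⟨A, ?_⟩
  rw [gm_eq] at hmd
  filter_upwards [hm, hd, hd0, hmd, gm_ne_zero.1 h0] with n h1 h2 h3 h4 h5
  have h6 : m n ≠ 0 := by
    intro h
    rw [h4, h] at h5
    simp at h5
  have h7 := wv_frac b hb v (m n) (d n) h3
  have h8 := wv_frac b hb v (d n) (m n) h6
  have h9 : 0 < wv b hb v (a n) := (wv b hb v).pos h5
  have h10 : wv b hb v (a n) ≤ Real.exp (A * L n) := by
    rw [h4]
    exact h7.trans (max_le h1 h2)
  have h11 : (wv b hb v (a n))⁻¹ ≤ Real.exp (A * L n) := by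
    rw [← map_inv₀, h4, inv_div]
    exact h8.trans (max_le h2 h1)
  rw [abs_neg, abs_le]
  constructor
  · rw [← neg_le_neg_iff, neg_neg, ← Real.log_inv, Real.log_le_iff_le_exp (inv_pos.2 h9)]
    exact h11
  · rw [Real.log_le_iff_le_exp h9]
    exact h10

lemma mem_of_tendsto (hL : Tendsto L atTop atTop) (v : Option (Fin s)) {a : ℕ → ℚ}
    (h0 : gm a ≠ 0) {t : ℝ} (ht : Tendsto (ex L (wv b hb v) a) (UU : Filter ℕ) (𝓝 t)) :
    gm a ∈ SS L (Rw (wv b hb v)) t := by
  rw [mem_SS]
  intro ε hε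
  have h1 := ht.eventually (lt_mem_nhds (show t - ε < t by linarith))
  filter_upwards [h1, ev_of_atTop (hL.eventually_gt_atTop 0), gm_ne_zero.1 h0] with n h2 h3 h4
  unfold Rw
  have h5 : 0 < wv b hb v (a n) := (wv b hb v).pos h4
  rw [← Real.log_le_iff_le_exp h5]
  unfold ex at h2
  rw [lt_div_iff₀ h3] at h2
  linarith

lemma wv_sign {σ : ℤ} (hσ : σ = 1 ∨ σ = -1) (v : Option (Fin s)) :
    wv b hb v ((σ : ℤ) : ℚ) = 1 := by
  rcases hσ with rfl | rfl
  · simp
  · rw [Int.cast_neg, Int.cast_one, (wv b hb v).map_neg, map_one]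

lemma log_wv_some (hbi : Function.Injective b) {σ : ℤ} (hσ : σ = 1 ∨ σ = -1) (e : Fin s → ℤ)
    (v : Fin s) : Real.log (wv b hb (some v) ((σ : ℤ) * ∏ v, (b v : ℚ) ^ e v)) =
      -((e v : ℝ) * Real.log (b v)) := by
  have := Fact.mk (hb v)
  rw [map_mul, wv_sign b hb hσ, one_mul, map_prod, Finset.prod_eq_single v]
  · rw [map_zpow₀, Real.log_zpow]
    have h3 : wv b hb (some v) (b v : ℚ) = (b v : ℝ)⁻¹ := by
      change Rat.AbsoluteValue.padic (b v) ((b v : ℕ) : ℚ) = _
      rw [Rat.AbsoluteValue.padic_eq_padicNorm, padicNorm.padicNorm_p_of_prime]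
      push_cast
      rfl
    rw [h3, Real.log_inv]
    ring
  · intro v' _ hv'
    rw [map_zpow₀]
    have h3 : wv b hb (some v) (b v' : ℚ) = 1 := by
      change Rat.AbsoluteValue.padic (b v) ((b v' : ℕ) : ℚ) = _
      rw [Rat.AbsoluteValue.padic_eq_padicNorm]
      have h4 : padicNorm (b v) ((b v' : ℕ) : ℚ) = 1 := by
        rw [padicNorm.nat_eq_one_iff]
        intro hdvd
        exact hv' (hbi ((Nat.prime_dvd_prime_iff_eq (hb v) (hb v')).1 hdvd).symm)
      rw [h4, Rat.cast_one]
    rw [h3, one_zpow]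
  · intro h
    exact absurd (Finset.mem_univ _) h

/-- the product formula for S-units -/
lemma prod_formula (hbi : Function.Injective b) {x : ℚ} (hx : IsSU b x) :
    ∑ v, -Real.log (wv b hb v x) = 0 := by
  classical
  obtain ⟨σ, e, hσ, rfl⟩ := hx
  rw [Fintype.sum_option]
  have h1 : Real.log (wv b hb none ((σ : ℤ) * ∏ v, (b v : ℚ) ^ e v)) =
      ∑ v, (e v : ℝ) * Real.log (b v) := by
    rw [map_mul, wv_sign b hb hσ, one_mul, map_prod, Real.log_prod]
    · refine Finset.sum_congr rfl fun v _ => ?_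
      rw [map_zpow₀, Real.log_zpow]
      congr 2
      change Rat.AbsoluteValue.real (b v : ℚ) = _
      rw [Rat.AbsoluteValue.real_eq_abs]
      push_cast
      exact abs_of_nonneg (Nat.cast_nonneg _)
    · intro v _
      rw [map_zpow₀]
      exact zpow_ne_zero _ ((wv b hb none).ne_zero (by exact_mod_cast (hb v).ne_zero))
  have h2 : ∀ v : Fin s, -Real.log (wv b hb (some v) ((σ : ℤ) * ∏ v, (b v : ℚ) ^ e v)) =
      (e v : ℝ) * Real.log (b v) := fun v => by
    rw [log_wv_some b hb hbi hσ e v, neg_neg]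
  rw [h1, Finset.sum_congr rfl fun v _ => h2 v]
  ring

/-- S-units of bounded height are S-integral -/
lemma Sg.of_su (hb : ∀ v, (b v).Prime) (hbi : Function.Injective b)
    (hL : Tendsto L atTop atTop) {a : ℕ → ℚ} (ha : ∀ n, IsSU b (a n))
    (hB : Bd L (gm a)) : Sg L (∏ v, b v) (gm a) := by
  classical
  have hne : gm a ≠ 0 := gsu_ne_zero hb ⟨a, rfl, ha⟩
  have hlb : ∀ v, 0 < Real.log (b v) := fun v => Real.log_pos (by exact_mod_cast (hb v).one_lt)
  choose A hA using fun v => wv_le_of_bd b hb v hB hne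
  set C : ℝ := ∑ v : Fin s, (|A (some v)| / Real.log (b v) + 1) with hC
  refine ⟨C, ?_⟩
  rw [mem_SS]
  intro ε hε
  filter_upwards [eventually_all.2 hA, ev_of_atTop (hL.eventually_ge_atTop 1)] with n h1 h2
  obtain ⟨σ, e, hσ, he⟩ := ha n
  set k : ℕ := ∑ v, (e v).natAbs with hk
  refine ⟨1, (σ * ∏ v, (b v : ℤ) ^ ((k : ℤ) + e v).toNat), k, one_ne_zero, ?_, ?_, ?_⟩
  · rw [Int.cast_one, abs_one]
    exact Real.one_le_exp (by nlinarith)
  · rw [he]
    push_cast
    rw [one_mul, mul_left_comm]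
    congr 1
    rw [← Finset.prod_pow, ← Finset.prod_mul_distrib]
    refine Finset.prod_congr rfl fun v _ => ?_
    have hbv : (b v : ℚ) ≠ 0 := by exact_mod_cast (hb v).ne_zero
    rw [← zpow_natCast, ← zpow_natCast, ← zpow_add₀ hbv]
    congr 1
    have h3 : (e v).natAbs ≤ k :=
      Finset.single_le_sum (f := fun v => (e v).natAbs) (fun _ _ => Nat.zero_le _)
        (Finset.mem_univ v)
    rw [Int.toNat_of_nonneg (by omega)]
  · -- the size of the exponents
    have h3 : ∀ v, ((e v).natAbs : ℝ) ≤ (|A (some v)| / Real.log (b v) + 1) * L n := by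
      intro v
      have := Fact.mk (hb v)
      have h4 := h1 (some v)
      have h5 : Real.log (wv b hb (some v) (a n)) = -((e v : ℝ) * Real.log (b v)) := by
        rw [he]
        exact log_wv_some b hb hbi hσ e v
      rw [h5, neg_neg, abs_mul, abs_of_pos (hlb v)] at h4
      have h6 : ((e v).natAbs : ℝ) = |(e v : ℝ)| := by
        rw [← Int.cast_natCast, Int.natCast_natAbs, Int.cast_abs]
      rw [h6]
      have h7 : |(e v : ℝ)| ≤ A (some v) * L n / Real.log (b v) := by
        rw [le_div_iff₀ (hlb v)]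
        exact h4
      have h8 : A (some v) * L n / Real.log (b v) ≤ |A (some v)| / Real.log (b v) * L n := by
        rw [div_mul_eq_mul_div]
        apply div_le_div_of_nonneg_right _ (hlb v).le
        exact mul_le_mul_of_nonneg_right (le_abs_self _) (by linarith)
      linarith
    rw [hk, hC]
    push_cast
    rw [Finset.sum_mul]
    exact Finset.sum_le_sum fun v _ => h3 v

end

/-- the greatest common divisor theorem for germs -/
theorem gcd_germ {s : ℕ} (b : Fin s → ℕ) (hb : ∀ v, (b v).Prime) (hbi : Function.Injective b)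
    (hL : Tendsto L atTop atTop) {m : ℕ} (T : Fin m → ℕ → ℚ) (hT : ∀ k n, IsSU b (T k n))
    (hTB : ∀ k, Bd L (gm (T k)))
    (hind : ∀ p : MvPolynomial (Fin m) (KK L hL), aeval (fun k => gm (T k)) p = 0 → p = 0)
    (f g : MvPolynomial (Fin m) (KK L hL)) (hf : f ≠ 0) (hg : g ≠ 0) (hfg : IsRelPrime f g)
    (D : ℕ → ℕ) (hD0 : ∀ n, D n ≠ 0) (hDb : ∀ n v, Nat.Coprime (D n) (b v)) (A : ℝ)
    (hDA : ∀ᶠ n in (UU : Filter ℕ), (D n : ℝ) ≤ Real.exp (A * L n))
    (hfD : Sg L (∏ v, b v) (gm (fun n => 1 / (D n : ℚ)) * aeval (fun k => gm (T k)) f))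
    (hgD : Sg L (∏ v, b v) (gm (fun n => 1 / (D n : ℚ)) * aeval (fun k => gm (T k)) g)) :
    Negl L (fun n => (D n : ℤ)) := by
  classical
  have hTne : ∀ k, gm (T k) ≠ 0 := fun k => gsu_ne_zero hb ⟨T k, rfl, hT k⟩
  have hD1 : ∀ n, (1 : ℝ) ≤ D n := fun n => by
    exact_mod_cast Nat.one_le_iff_ne_zero.2 (hD0 n)
  -- the exponents
  have hlimT : ∀ v k, ∃ t : ℝ, Tendsto (ex L (wv b hb v) (T k)) (UU : Filter ℕ) (𝓝 t) := by
    intro v k
    obtain ⟨A', hA'⟩ := wv_le_of_bd b hb v (hTB k) (hTne k)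
    obtain ⟨t, _, ht⟩ := exists_lim hL _ A' hA'
    exact ⟨t, ht⟩
  choose t ht using hlimT
  have htsum : ∀ k, ∑ v, t v k = 0 := by
    intro k
    have h1 : Tendsto (fun n => ∑ v, ex L (wv b hb v) (T k) n) (UU : Filter ℕ)
        (𝓝 (∑ v, t v k)) := tendsto_finsetSum _ fun v _ => ht v k
    have h2 : (fun n => ∑ v, ex L (wv b hb v) (T k) n) = fun _ => 0 := by
      funext n
      unfold ex
      rw [← Finset.sum_div, prod_formula b hb hbi (hT k n), zero_div]
    rw [h2] at h1
    exact tendsto_nhds_unique h1 tendsto_const_nhds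
  obtain ⟨δ, -, hδ⟩ := exists_lim hL (fun n => Real.log (D n)) A (by
    filter_upwards [hDA] with n hn
    have h1 := hD1 n
    rw [abs_of_nonneg (Real.log_nonneg h1), Real.log_le_iff_le_exp (by linarith)]
    exact hn)
  have hδ0 : 0 ≤ δ := by
    refine ge_of_tendsto hδ ?_
    filter_upwards [L_nonneg hL] with n hn
    exact div_nonneg (Real.log_nonneg (hD1 n)) hn
  rcases hδ0.eq_or_lt with hδ1 | hδ1
  · intro ε hε
    rw [← hδ1] at hδ
    filter_upwards [hδ.eventually (gt_mem_nhds hε), ev_of_atTop (hL.eventually_gt_atTop 0)]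
      with n h1 h2
    rw [div_lt_iff₀ h2] at h1
    rw [Int.cast_natCast, abs_of_nonneg (Nat.cast_nonneg _),
      ← Real.log_le_iff_le_exp (by have := hD1 n; linarith)]
    exact h1.le
  exfalso
  -- the place weights of `1 / D`
  have hDmem : ∀ v, gm (fun n => 1 / (D n : ℚ)) ∈ SS L (Rw (wv b hb v))
      (match v with | none => δ | some _ => 0) := by
    intro v
    cases v with
    | none =>
      rw [mem_SS]
      intro ε hε
      filter_upwards [hδ.eventually (lt_mem_nhds (show δ - ε < δ by linarith)),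
        ev_of_atTop (hL.eventually_gt_atTop 0)] with n h1 h2
      rw [lt_div_iff₀ h2] at h1
      unfold Rw
      have h3 : wv b hb none (1 / (D n : ℚ)) = 1 / (D n : ℝ) := by
        change Rat.AbsoluteValue.real (1 / (D n : ℚ)) = _
        rw [Rat.AbsoluteValue.real_eq_abs]
        push_cast
        exact abs_of_nonneg (by positivity)
      have h4 : (0 : ℝ) < D n := by have := hD1 n; linarith
      rw [h3, ← Real.exp_log h4, one_div, ← Real.exp_neg]
      apply Real.exp_le_exp.2
      linarith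
    | some v =>
      rw [mem_SS]
      intro ε hε
      filter_upwards [L_nonneg hL] with n h2
      unfold Rw
      have := Fact.mk (hb v)
      have h3 : wv b hb (some v) (1 / (D n : ℚ)) = 1 := by
        change Rat.AbsoluteValue.padic (b v) (1 / ((D n : ℕ) : ℚ)) = _
        rw [map_div₀, map_one, Rat.AbsoluteValue.padic_eq_padicNorm]
        have h4 : padicNorm (b v) ((D n : ℕ) : ℚ) = 1 := by
          rw [padicNorm.nat_eq_one_iff]
          intro hdvd
          have h5 := Nat.dvd_gcd hdvd (dvd_refl (b v))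
          rw [hDb n v] at h5
          exact (hb v).one_lt.ne' (Nat.dvd_one.1 h5)
        rw [h4, Rat.cast_one, div_one]
      rw [h3]
      apply Real.one_le_exp
      simp only [sub_zero]
      positivity
  -- the parameters
  set E : ℝ := 1 + ∑ v, ∑ k, |t v k| with hE
  have hE0 : 0 < E := by
    have : 0 ≤ ∑ v, ∑ k, |t v k| :=
      Finset.sum_nonneg fun v _ => Finset.sum_nonneg fun k _ => abs_nonneg _
    linarith
  have hEv : ∀ v, ∑ k, |t v k| ≤ E := by
    intro v
    have h2 : ∑ k, |t v k| ≤ ∑ v, ∑ k, |t v k| :=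
      Finset.single_le_sum (f := fun v => ∑ k, |t v k|)
        (fun v _ => Finset.sum_nonneg fun k _ => abs_nonneg _) (Finset.mem_univ v)
    linarith
  obtain ⟨n0, hn0⟩ := count_box (fun j => degreeOf j f) (fun j => degreeOf j g)
    (δ / (2 * ((s : ℝ) + 1) * E)) (by positivity)
  set n : ℕ := max n0 (∑ j, (degreeOf j f + degreeOf j g) + 1) with hn
  have hdeg : ∀ j, degreeOf j f + degreeOf j g < n := by
    intro j
    have h1 := Finset.single_le_sum (f := fun j => degreeOf j f + degreeOf j g)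
      (fun _ _ => Nat.zero_le _) (Finset.mem_univ j)
    have h2 := le_max_right n0 (∑ j, (degreeOf j f + degreeOf j g) + 1)
    omega
  have hn1 : 1 ≤ n := by
    have h2 := le_max_right n0 (∑ j, (degreeOf j f + degreeOf j g) + 1)
    omega
  set W := WW f g n with hW
  have hWle : W ≤ RB (KK L hL) fun _ : Fin m => n := WW_le hdeg
  have hWfin : Module.Finite (KK L hL) W :=
    Module.Finite.of_injective (Submodule.inclusion hWle) (Submodule.inclusion_injective hWle)
  set M := Module.finrank (KK L hL) W with hM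
  have hMn : M ≤ n ^ m := by
    have h1 := Submodule.finrank_mono hWle
    rw [finrank_RB] at h1
    simpa using h1
  obtain ⟨hc1, hc2⟩ := hn0 n (le_max_left _ _) M (finrank_WW hf hg hfg hdeg) hMn
  have hM0 : (0 : ℝ) < M := by
    have h1 : (0 : ℝ) < (n : ℝ) ^ m := by positivity
    linarith
  -- adapted bases
  have hWzero : ∀ x ∈ W, (∀ j ∈ Bs (fun _ : Fin m => n), lcoeff (KK L hL) j x = 0) → x = 0 := by
    intro x hx h0
    ext j
    rw [coeff_zero]
    by_cases hj : j ∈ Bs (fun _ : Fin m => n)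
    · exact congrArg Subtype.val (h0 j hj)
    · have h1 := (mem_restrictSupport_iff (R := KK L hL)).1 (hWle hx)
      have h2 : coeff j x = 0 := by
        by_contra h3
        exact hj (h1 (mem_support_iff.2 h3))
      rw [h2]
  have hech : ∀ v, ∃ (ψ : Fin M → MvPolynomial (Fin m) (KK L hL)) (π : Fin M → (Fin m →₀ ℕ)),
      LinearIndependent (KK L hL) ψ ∧ Submodule.span (KK L hL) (Set.range ψ) = W ∧
      Function.Injective π ∧ (∀ i, π i ∈ Bs (fun _ : Fin m => n)) ∧
      ∀ i, ∀ j ∈ Bs (fun _ : Fin m => n), coeff j (ψ i) ≠ 0 →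
        ∑ k, (π i k : ℝ) * t v k ≤ ∑ k, (j k : ℝ) * t v k := by
    intro v
    obtain ⟨M', ψ, π, h1, h2, h3, h4, h5⟩ := ech (fun j => lcoeff (KK L hL) j)
      (fun j => ∑ k, (j k : ℝ) * t v k) (Bs (fun _ : Fin m => n)) W hWzero
    have h6 : M' = M := by
      have h7 := finrank_span_eq_card h1
      rw [h2, Fintype.card_fin] at h7
      exact h7.symm
    subst h6
    exact ⟨ψ, π, h1, h2, h3, h4, h5⟩
  choose ψ π hψ1 hψ2 hπ1 hπ2 hψ3 using hech
  set ev : MvPolynomial (Fin m) (KK L hL) →ₐ[KK L hL] GG := aeval (fun k => gm (T k)) with hev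
  -- monomials
  have hmon : ∀ v (d : Fin m →₀ ℕ), (∏ k, gm (T k) ^ d k) ∈ SS L (Rw (wv b hb v))
      (∑ k, (d k : ℝ) * t v k) := by
    intro v d
    have hF := filt_w hL b hb v
    have h1 : ∀ S : Finset (Fin m), (∏ k ∈ S, gm (T k) ^ d k) ∈ SS L (Rw (wv b hb v))
      (∑ k ∈ S, (d k : ℝ) * t v k) := by
      intro S
      induction S using Finset.induction_on with
      | empty =>
        rw [Finset.prod_empty, Finset.sum_empty]
        simpa using hF.alg_mem 1
      | insert k S hk ih =>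
        rw [Finset.prod_insert hk, Finset.sum_insert hk]
        refine hF.mul_mem ?_ ih
        have h2 := hF.pow_mem (mem_of_tendsto b hb hL v (hTne k) (ht v k)) (d k)
        rwa [mul_comm] at h2
    exact h1 _
  have hpoly : ∀ v (p : MvPolynomial (Fin m) (KK L hL)) (ω : ℝ),
      (∀ d ∈ p.support, ω ≤ ∑ k, (d k : ℝ) * t v k) → ev p ∈ SS L (Rw (wv b hb v)) ω := by
    intro v p ω hp
    have hF := filt_w hL b hb v
    rw [hev, aeval_def, eval₂_eq']
    refine Finset.sum_induction _ (fun g => g ∈ SS L (Rw (wv b hb v)) ω)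
      (fun _ _ => hF.add_mem) (hF.zero_mem _) ?_
    intro d hd
    have h1 := hF.mul_mem (hF.alg_mem (coeff d p)) (hmon v d)
    rw [zero_add] at h1
    exact hF.anti (hp d hd) h1
  have hSgT : ∀ p : MvPolynomial (Fin m) (KK L hL), Sg L (∏ v, b v) (ev p) := by
    intro p
    rw [hev, aeval_def, eval₂_eq']
    refine Sg.sum hL _ _ fun d _ => (Sg.KK hL (coeff d p).2).mul (Sg.prod hL _ _ fun k _ => ?_)
    exact (Sg.of_su b hb hbi hL (hT k) (hTB k)).pow hL _
  have hDne : gm (fun n => 1 / (D n : ℚ)) ≠ 0 := by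
    rw [gm_ne_zero]
    refine Eventually.of_forall fun n => ?_
    have : (D n : ℚ) ≠ 0 := by exact_mod_cast hD0 n
    exact one_div_ne_zero this
  have hsupp : ∀ v i, ∀ d ∈ (ψ v i).support, d ∈ Bs (fun _ : Fin m => n) := by
    intro v i d hd
    have h1 : ψ v i ∈ W := by
      rw [← hψ2 v]
      exact Submodule.subset_span ⟨i, rfl⟩
    exact (mem_restrictSupport_iff (R := KK L hL)).1 (hWle h1) hd
  have key := movS b hb hbi L hL (Fin M) (fun v i => gm (fun n => 1 / (D n : ℚ)) * ev (ψ v i))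
    (fun v i => (match v with | none => δ | some _ => 0) + ∑ k, (π v i k : ℝ) * t v k)
    ?_ ?_ ?_ ?_ ?_
  · -- the conclusion
    have e1 : ∀ v : Option (Fin s), ∑ i : Fin M,
        ((match v with | none => δ | some _ => 0) + ∑ k, (π v i k : ℝ) * t v k) =
        M * (match v with | none => δ | some _ => 0) +
          (∑ d ∈ Bs (fun _ : Fin m => n), ∑ k, (d k : ℝ) * t v k -
          ∑ d ∈ Bs (fun _ : Fin m => n) \ Finset.univ.image (π v), ∑ k, (d k : ℝ) * t v k) := by
      intro v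
      rw [Finset.sum_add_distrib, Finset.sum_const, Finset.card_univ, Fintype.card_fin,
        nsmul_eq_mul]
      congr 1
      have h1 : Finset.univ.image (π v) ⊆ Bs (fun _ : Fin m => n) := by
        intro d hd
        obtain ⟨i, -, rfl⟩ := Finset.mem_image.1 hd
        exact hπ2 v i
      rw [← Finset.sum_sdiff h1, Finset.sum_image fun i _ j _ h => hπ1 v h]
      ring
    rw [Finset.sum_congr rfl fun v _ => e1 v, Finset.sum_add_distrib, Finset.sum_sub_distrib]
      at key
    have e2 : ∑ v : Option (Fin s), (M : ℝ) * (match v with | none => δ | some _ => 0) =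
        M * δ := by
      rw [Fintype.sum_option]
      simp
    have e3 : ∑ v : Option (Fin s), ∑ d ∈ Bs (fun _ : Fin m => n), ∑ k, (d k : ℝ) * t v k = 0 := by
      rw [Finset.sum_comm]
      apply Finset.sum_eq_zero
      intro d _
      rw [Finset.sum_comm]
      apply Finset.sum_eq_zero
      intro k _
      rw [← Finset.mul_sum, htsum, mul_zero]
    have e4 : ∀ v : Option (Fin s), ∑ d ∈ Bs (fun _ : Fin m => n) \ Finset.univ.image (π v),
        ∑ k, (d k : ℝ) * t v k ≤ ((n : ℝ) ^ m - M) * (n * E) := by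
      intro v
      have h1 : ∀ d ∈ Bs (fun _ : Fin m => n) \ Finset.univ.image (π v),
          ∑ k, (d k : ℝ) * t v k ≤ n * E := by
        intro d hd
        have h2 := mem_Bs.1 (Finset.mem_sdiff.1 hd).1
        calc ∑ k, (d k : ℝ) * t v k ≤ ∑ k, (n : ℝ) * |t v k| := by
              refine Finset.sum_le_sum fun k _ => ?_
              have h3 : (d k : ℝ) ≤ n := by exact_mod_cast (h2 k).le
              calc (d k : ℝ) * t v k ≤ (d k : ℝ) * |t v k| :=
                    mul_le_mul_of_nonneg_left (le_abs_self _) (Nat.cast_nonneg _)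
                _ ≤ _ := mul_le_mul_of_nonneg_right h3 (abs_nonneg _)
          _ = n * ∑ k, |t v k| := by rw [Finset.mul_sum]
          _ ≤ _ := mul_le_mul_of_nonneg_left (hEv v) (Nat.cast_nonneg _)
      refine (Finset.sum_le_card_nsmul _ _ _ h1).trans (le_of_eq ?_)
      rw [nsmul_eq_mul, Finset.card_sdiff_of_subset, Finset.card_image_of_injective _ (hπ1 v),
        Finset.card_univ, Fintype.card_fin, card_Bs, Finset.prod_const, Finset.card_univ,
        Fintype.card_fin, Nat.cast_sub hMn]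
      · push_cast
        ring
      · intro d hd
        obtain ⟨i, -, rfl⟩ := Finset.mem_image.1 hd
        exact hπ2 v i
    have e5 : ∑ v : Option (Fin s), ∑ d ∈ Bs (fun _ : Fin m => n) \ Finset.univ.image (π v),
        ∑ k, (d k : ℝ) * t v k ≤ ((s : ℝ) + 1) * (((n : ℝ) ^ m - M) * (n * E)) := by
      refine (Finset.sum_le_sum fun v _ => e4 v).trans (le_of_eq ?_)
      rw [Finset.sum_const, Finset.card_univ, Fintype.card_option, Fintype.card_fin,
        nsmul_eq_mul]
      push_cast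
      ring
    rw [e2, e3] at key
    have e6 : ((s : ℝ) + 1) * (((n : ℝ) ^ m - M) * (n * E)) ≤ δ / 2 * M := by
      have h1 : ((s : ℝ) + 1) * (((n : ℝ) ^ m - M) * (n * E)) =
          (((n : ℝ) ^ m - M) * n) * (((s : ℝ) + 1) * E) := by ring
      rw [h1]
      calc (((n : ℝ) ^ m - M) * n) * (((s : ℝ) + 1) * E) ≤
          (δ / (2 * ((s : ℝ) + 1) * E) * M) * (((s : ℝ) + 1) * E) :=
            mul_le_mul_of_nonneg_right hc1 (by positivity)
        _ = δ / 2 * M := by
            field_simp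
    have e7 : 0 < M * δ := by positivity
    linarith
  · -- independence
    intro v c hc
    have h1 : ev (∑ i, c i • ψ v i) = 0 := by
      rw [map_sum]
      have h2 : gm (fun n => 1 / (D n : ℚ)) * ∑ i, ev (c i • ψ v i) = 0 := by
        rw [← hc, Finset.mul_sum]
        refine Finset.sum_congr rfl fun i _ => ?_
        rw [map_smul, Algebra.smul_def]
        change _ * ((c i : GG) * _) = _
        ring
      exact (mul_eq_zero.1 h2).resolve_left hDne
    have h2 := hind _ h1
    exact Fintype.linearIndependent_iff.1 (hψ1 v) c h2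
  · intro v i
    have h1 : ψ v i ∈ Submodule.span (KK L hL) (Set.range (ψ none)) := by
      rw [hψ2 none, ← hψ2 v]
      exact Submodule.subset_span ⟨i, rfl⟩
    obtain ⟨c, hc⟩ := (Submodule.mem_span_range_iff_exists_fun (KK L hL)).1 h1
    refine ⟨c, ?_⟩
    rw [← hc, map_sum, Finset.mul_sum]
    refine Finset.sum_congr rfl fun j _ => ?_
    rw [map_smul, Algebra.smul_def]
    change _ * ((c j : GG) * _) = _
    ring
  · intro v i
    refine (filt_w hL b hb v).mul_mem (hDmem v) (hpoly v _ _ ?_)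
    intro d hd
    exact hψ3 v i d (hsupp v i d hd) (mem_support_iff.1 hd)
  · intro i
    have h1 : ψ none i ∈ W := by
      rw [← hψ2 none]
      exact Submodule.subset_span ⟨i, rfl⟩
    obtain ⟨x, hx, y, hy, hxy⟩ := Submodule.mem_sup.1 h1
    obtain ⟨p, -, rfl⟩ := Submodule.mem_map.1 hx
    obtain ⟨q, -, rfl⟩ := Submodule.mem_map.1 hy
    rw [← hxy, LinearMap.mulLeft_apply, LinearMap.mulLeft_apply, map_add, map_mul, map_mul,
      mul_add, ← mul_assoc, ← mul_assoc]
    exact (hfD.mul (hSgT p)).add hL (hgD.mul (hSgT q))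
  · intro v i
    refine ⟨_, (filt_w hL b hb v).mul_mem (hDmem v) (hpoly v _ (-(n * E)) ?_)⟩
    intro d hd
    have h2 := mem_Bs.1 (hsupp none i d hd)
    have h3 : -(∑ k, (n : ℝ) * |t v k|) ≤ ∑ k, (d k : ℝ) * t v k := by
      rw [← Finset.sum_neg_distrib]
      refine Finset.sum_le_sum fun k _ => ?_
      have h3 : (d k : ℝ) ≤ n := by exact_mod_cast (h2 k).le
      have h4 := neg_abs_le (t v k)
      calc -((n : ℝ) * |t v k|) ≤ -((d k : ℝ) * |t v k|) :=
            neg_le_neg (mul_le_mul_of_nonneg_right h3 (abs_nonneg _))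
        _ = (d k : ℝ) * -|t v k| := by ring
        _ ≤ _ := mul_le_mul_of_nonneg_left h4 (Nat.cast_nonneg _)
    have h4 : ∑ k, (n : ℝ) * |t v k| ≤ n * E := by
      rw [← Finset.mul_sum]
      exact mul_le_mul_of_nonneg_left (hEv v) (Nat.cast_nonneg _)
    linarith

end Pool.Agent.Y724.Vj
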