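import Mathlib
import Pool.Agent.Y724.Vj.Cls
import Pool.Agent.TH551.SU.CS
import Pool.Agent.TH551.SU.WT
import Pool.Agent.TH551.SU.CRV

/-!
# A multiplicative basis of finitely many S-unit germs modulo the negligible field
-/

set_option autoImplicit false

namespace Pool.Agent.Y724.Vj

section abs
variable {G : Type} [Field G] (K : Subfield G)

/-- the units in the subfield -/
def HKa : Subgroup Gˣ where
  carrier := {x | (x : G) ∈ K}
  mul_mem' := by
    intro x y hx hy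
    change ((x * y : Gˣ) : G) ∈ K
    rw [Units.val_mul]
    exact K.mul_mem hx hy
  one_mem' := K.one_mem
  inv_mem' := by
    intro x hx
    change ((x⁻¹ : Gˣ) : G) ∈ K
    rw [Units.val_inv_eq_inv_val]
    exact K.inv_mem hx

section A
variable {A : Type} [AddCommGroup A] (φ : Additive Gˣ →+ A)

lemma qm_zpow (x : Gˣ) (k : ℤ) : φ (Additive.ofMul (x ^ k)) = k • φ (Additive.ofMul x) := by
  rw [ofMul_zpow, map_zsmul]

lemma qm_prod {ι : Type} (S : Finset ι) (f : ι → Gˣ) :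
    φ (Additive.ofMul (∏ i ∈ S, f i)) = ∑ i ∈ S, φ (Additive.ofMul (f i)) := by
  rw [ofMul_prod, map_sum]

variable (hφ : ∀ x : Gˣ, φ (Additive.ofMul x) = 0 ↔ (x : G) ∈ K)
  (hs : Function.Surjective φ)

include hφ hs in
lemma qm_torsion (hroot : ∀ (g : G) (n : ℕ), n ≠ 0 → g ^ n ∈ K → g ∈ K)
    (x : A) (k : ℤ) (hk : k ≠ 0) (h : k • x = 0) : x = 0 := by
  obtain ⟨z, rfl⟩ : ∃ z : Gˣ, φ (Additive.ofMul z) = x := by
    obtain ⟨z, hz⟩ := hs x
    exact ⟨Additive.toMul z, hz⟩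
  rw [← qm_zpow, hφ] at h
  rw [hφ]
  rw [Units.val_zpow_eq_zpow_val] at h
  obtain ⟨n, rfl | rfl⟩ := Int.eq_nat_or_neg k
  · rw [zpow_natCast] at h
    exact hroot _ n (by rintro rfl; simp at hk) h
  · rw [zpow_neg, zpow_natCast] at h
    have h1 := K.inv_mem h
    rw [inv_inv] at h1
    exact hroot _ n (by rintro rfl; simp at hk) h1

include hφ hs in
theorem abs_basis' (hroot : ∀ (g : G) (n : ℕ), n ≠ 0 → g ^ n ∈ K → g ∈ K) {r : ℕ} (u : Fin r → G)
    (hu0 : ∀ j, u j ≠ 0) :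
    ∃ (m : ℕ) (c : Fin m → Fin r → ℤ),
      (∀ d : Fin m → ℤ, ∏ k, (∏ j, u j ^ c k j) ^ d k ∈ K → d = 0) ∧
      ∀ j, ∃ (κ : K) (a : Fin m → ℤ), u j = (κ : G) * ∏ k, (∏ j, u j ^ c k j) ^ a k := by
  classical
  set U : Fin r → Gˣ := fun j => Units.mk0 (u j) (hu0 j) with hU
  set N : Submodule ℤ A :=
    Submodule.span ℤ (Set.range fun j => φ (Additive.ofMul (U j))) with hN
  have hNf : Module.Finite ℤ N := Module.Finite.span_of_finite ℤ (Set.finite_range _)
  have hNt : Module.IsTorsionFree ℤ N := by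
    refine ⟨fun k hk x y hxy => ?_⟩
    have hk0 : k ≠ 0 := hk.ne_zero
    have h1 : k • (x - y) = 0 := by
      rw [smul_sub]
      exact sub_eq_zero.2 hxy
    have h2 := qm_torsion K φ hφ hs hroot ((x - y : N) : A) k hk0 (by
      rw [← Submodule.coe_smul, h1]
      rfl)
    have h3 : x - y = 0 := Subtype.ext h2
    exact sub_eq_zero.1 h3
  have hNfree : Module.Free ℤ N := Module.free_of_finite_type_torsion_free'
  let B := Module.finBasis ℤ N
  have hc : ∀ k, ∃ c : Fin r → ℤ, ∑ j, c j • φ (Additive.ofMul (U j)) = ((B k : N) : A) :=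
    fun k => (Submodule.mem_span_range_iff_exists_fun ℤ).1 (B k).2
  choose c hc using hc
  set y : Fin (Module.finrank ℤ N) → Gˣ := fun k => ∏ j, U j ^ c k j with hy
  have hqy : ∀ k, φ (Additive.ofMul (y k)) = ((B k : N) : A) := by
    intro k
    rw [← hc, hy]
    simp only
    rw [qm_prod]
    exact Finset.sum_congr rfl fun j _ => qm_zpow φ _ _
  have hyv : ∀ k, ((y k : Gˣ) : G) = ∏ j, u j ^ c k j := by
    intro k
    rw [hy]
    simp only
    rw [Units.coe_prod]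
    refine Finset.prod_congr rfl fun j _ => ?_
    rw [Units.val_zpow_eq_zpow_val]
    rfl
  have hval : ∀ d : Fin (Module.finrank ℤ N) → ℤ, ((∏ k, y k ^ d k : Gˣ) : G) =
      ∏ k, (∏ j, u j ^ c k j) ^ d k := by
    intro d
    rw [Units.coe_prod]
    refine Finset.prod_congr rfl fun k _ => ?_
    rw [Units.val_zpow_eq_zpow_val, hyv]
  have hq : ∀ d : Fin (Module.finrank ℤ N) → ℤ, φ (Additive.ofMul (∏ k, y k ^ d k)) =
      ((∑ k, d k • B k : N) : A) := by
    intro d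
    rw [qm_prod, Submodule.coe_sum]
    refine Finset.sum_congr rfl fun k _ => ?_
    rw [qm_zpow, hqy, Submodule.coe_smul]
  refine ⟨Module.finrank ℤ N, c, ?_, ?_⟩
  · intro d hd
    rw [← hval, ← hφ, hq] at hd
    have h3 : ∑ k, d k • B k = 0 := Subtype.ext hd
    funext k
    exact Fintype.linearIndependent_iff.1 B.linearIndependent _ h3 k
  · intro j
    have h1 : φ (Additive.ofMul (U j)) ∈ N := Submodule.subset_span ⟨j, rfl⟩
    have h2 := B.sum_repr ⟨_, h1⟩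
    have h3 := hq (fun k => B.repr ⟨_, h1⟩ k)
    rw [h2] at h3
    have h4 : φ (Additive.ofMul (U j / ∏ k, y k ^ (B.repr ⟨_, h1⟩ k))) = 0 := by
      rw [ofMul_div, map_sub, h3, sub_self]
    rw [hφ] at h4
    refine ⟨⟨_, h4⟩, fun k => B.repr ⟨_, h1⟩ k, ?_⟩
    rw [← hval, ← Units.val_mul, div_mul_cancel]
    rfl

end A

theorem abs_basis (hroot : ∀ (g : G) (n : ℕ), n ≠ 0 → g ^ n ∈ K → g ∈ K) {r : ℕ} (u : Fin r → G)
    (hu0 : ∀ j, u j ≠ 0) :
    ∃ (m : ℕ) (c : Fin m → Fin r → ℤ),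
      (∀ d : Fin m → ℤ, ∏ k, (∏ j, u j ^ c k j) ^ d k ∈ K → d = 0) ∧
      ∀ j, ∃ (κ : K) (a : Fin m → ℤ), u j = (κ : G) * ∏ k, (∏ j, u j ^ c k j) ^ a k := by
  let inst : AddCommGroup (Additive (Gˣ ⧸ HKa K)) := inferInstance
  let φ : Additive Gˣ →+ Additive (Gˣ ⧸ HKa K) :=
    MonoidHom.toAdditive (QuotientGroup.mk' (HKa K))
  have hφ : ∀ x : Gˣ, φ (Additive.ofMul x) = 0 ↔ (x : G) ∈ K := by
    intro x
    change Additive.ofMul (QuotientGroup.mk' (HKa K) x) = 0 ↔ _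
    rw [ofMul_eq_zero, QuotientGroup.mk'_apply, QuotientGroup.eq_one_iff]
    rfl
  have hs : Function.Surjective φ := by
    intro x
    obtain ⟨z, hz⟩ := QuotientGroup.mk'_surjective (HKa K) (Additive.toMul x)
    exact ⟨Additive.ofMul z, congrArg Additive.ofMul hz⟩
  exact abs_basis' K (A := Additive (Gˣ ⧸ HKa K)) φ hφ hs hroot u hu0

end abs

open Filter Topology Pool.Agent.TH932.Germs Pool.Agent.TH551.SU Pool.Agent.TH461.SST
open Pool.Agent.TH551.SU.SUI Pool.Agent.TH932.Abs MvPolynomial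

variable {L : ℕ → ℝ}

section gsu
variable {s : ℕ} {b : Fin s → ℕ}

lemma gsu_one : GSU b (1 : GG) := CRV.GSU.one

lemma gsu_inv {g : GG} (hg : GSU b g) : GSU b g⁻¹ := by
  obtain ⟨a, rfl, ha⟩ := hg
  refine ⟨fun n => (a n)⁻¹, gm_inv a, fun n => ?_⟩
  obtain ⟨σ, e, hσ, h⟩ := ha n
  refine ⟨σ, fun v => -e v, hσ, ?_⟩
  change (a n)⁻¹ = (σ : ℚ) * ∏ v, (b v : ℚ) ^ (-e v)
  rw [h, mul_inv, ← Finset.prod_inv_distrib]
  congr 1
  · rcases hσ with rfl | rfl <;> norm_num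
  · exact Finset.prod_congr rfl fun v _ => (zpow_neg _ _).symm

lemma gsu_zpow (hb : ∀ v, (b v).Prime) {g : GG} (hg : GSU b g) (k : ℤ) : GSU b (g ^ k) := by
  obtain ⟨n, rfl | rfl⟩ := Int.eq_nat_or_neg k
  · rw [zpow_natCast]
    exact CRV.GSU.pow hb hg n
  · rw [zpow_neg, zpow_natCast]
    exact gsu_inv (CRV.GSU.pow hb hg n)

lemma gsu_prod (hb : ∀ v, (b v).Prime) {ι : Type} (S : Finset ι) (f : ι → GG)
    (h : ∀ i ∈ S, GSU b (f i)) : GSU b (∏ i ∈ S, f i) := CRV.GSU.prod hb S f h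

end gsu

lemma Bd.zpow (hL : Tendsto L atTop atTop) {g : GG} (hg : g ≠ 0) (hgB : Bd L g) (k : ℤ) :
    Bd L (g ^ k) := by
  obtain ⟨n, rfl | rfl⟩ := Int.eq_nat_or_neg k
  · rw [zpow_natCast]
    exact hgB.pow hL n
  · rw [zpow_neg, zpow_natCast]
    exact (hgB.pow hL n).inv (pow_ne_zero _ hg)

theorem exists_mult_basis {s : ℕ} (b : Fin s → ℕ) (hb : ∀ v, (b v).Prime)
    (hbi : Function.Injective b) (hL : Tendsto L atTop atTop) {r : ℕ} (u : Fin r → GG)
    (hu : ∀ j, GSU b (u j)) (hB : ∀ j, Bd L (u j)) :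
    ∃ (m : ℕ) (T : Fin m → ℕ → ℚ), (∀ k n, IsSU b (T k n)) ∧ (∀ k, Bd L (gm (T k))) ∧
      (∀ p : MvPolynomial (Fin m) (KK L hL), aeval (fun k => gm (T k)) p = 0 → p = 0) ∧
      ∀ j, ∃ (κ : KK L hL) (a : Fin m → ℤ), u j = (κ : GG) * ∏ k, gm (T k) ^ a k := by
  classical
  have hu0 : ∀ j, u j ≠ 0 := fun j => gsu_ne_zero hb (hu j)
  obtain ⟨m, c, hc1, hc2⟩ := abs_basis (KK L hL)
    (fun g n hn h => WT.root_mem hL g n hn h) u hu0
  have hyS : ∀ k, GSU b (∏ j, u j ^ c k j) := fun k =>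
    gsu_prod hb _ _ fun j _ => gsu_zpow hb (hu j) _
  have hyB : ∀ k, Bd L (∏ j, u j ^ c k j) := fun k =>
    Bd.prod hL _ _ fun j _ => Bd.zpow hL (hu0 j) (hB j) _
  have hyS' := hyS
  choose T hT1 hT2 using hyS'
  refine ⟨m, T, hT2, fun k => by rw [← hT1]; exact hyB k, ?_, ?_⟩
  · -- algebraic independence
    intro p hp
    have hTne : ∀ k, gm (T k) ≠ 0 := fun k => gsu_ne_zero hb ⟨T k, rfl, hT2 k⟩
    have hdis : ∀ d d' : Fin m →₀ ℕ, (∏ k, gm (T k) ^ d k) / (∏ k, gm (T k) ^ d' k) ∈ KK L hL →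
        d = d' := by
      intro d d' h
      have h1 : (∏ k, gm (T k) ^ d k) / (∏ k, gm (T k) ^ d' k) =
          ∏ k, (∏ j, u j ^ c k j) ^ ((d k : ℤ) - d' k) := by
        rw [← Finset.prod_div_distrib]
        refine Finset.prod_congr rfl fun k _ => ?_
        rw [hT1, zpow_sub₀ (hTne k), zpow_natCast, zpow_natCast]
      rw [h1] at h
      have h2 := hc1 _ h
      ext k
      have h5 := congrFun h2 k
      simp only [Pi.zero_apply] at h5
      omega
    have hgS : ∀ d : Fin m →₀ ℕ, GSU b (∏ k, gm (T k) ^ d k) := fun d =>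
      gsu_prod hb _ _ fun k _ => CRV.GSU.pow hb ⟨T k, rfl, hT2 k⟩ _
    rw [aeval_def, eval₂_eq'] at hp
    ext d0
    rw [coeff_zero]
    by_cases hd0 : d0 ∈ p.support
    · have h1 := CS.cs SUI.sui s b hb hbi L hL (Fin m →₀ ℕ) p.support (fun d => coeff d p)
        (fun d => ∏ k, gm (T k) ^ d k) (fun d => if d = d0 then 1 else 0) (fun d _ => hgS d)
        (fun i _ j _ hij => by
          have := hdis i j hij
          rw [this]) hp
      have h3 := congrArg (fun p => Polynomial.coeff p 1) h1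
      simp only [Polynomial.finsetSum_coeff, Polynomial.coeff_zero,
        Polynomial.coeff_C_mul_X_pow] at h3
      rw [Finset.sum_eq_single d0 (fun d _ hd => by rw [if_neg hd, if_neg one_ne_zero])
        (fun h => absurd hd0 h), if_pos rfl, if_pos rfl] at h3
      have h4 := (mul_eq_zero.1 h3).resolve_right (gsu_ne_zero hb (hgS d0))
      rw [h4]
      rfl
    · rw [notMem_support_iff.1 hd0]
  · intro j
    obtain ⟨κ, a, h⟩ := hc2 j
    refine ⟨κ, a, ?_⟩
    rw [h]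
    congr 1
    exact Finset.prod_congr rfl fun k _ => by rw [hT1]

end Pool.Agent.Y724.Vj
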