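import Mathlib
import Pool.Agent.Y724.Vj.GTa
import Pool.Agent.Y724.Vj.Grp
import Pool.Agent.Y724.Vj.Gcd2

/-!
# A primitive germ proportional to a short sum of S-units is a short sum of S-units
-/

set_option autoImplicit false

namespace Pool.Agent.Y724.Vj

open Filter Topology Pool.Agent.TH932.Germs Pool.Agent.TH551.SU MvPolynomial
open Pool.Agent.TH551.SU.SUI

variable {L : ℕ → ℝ}

lemma exists_ne_of_prim {ν : ℕ} (x : ℕ → Fin ν → ℤ) (hprim : ∀ t, Finset.univ.gcd (x t) = 1) :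
    ∃ y, gm (fun t => (x t y : ℚ)) ≠ 0 := by
  by_contra hno
  push Not at hno
  have h1 : ∀ᶠ t in (UU : Filter ℕ), ∀ y, x t y = 0 := by
    refine eventually_all.2 fun y => ?_
    have h2 := hno y
    rw [← gm_zero, gm_eq] at h2
    filter_upwards [h2] with t ht
    exact_mod_cast ht
  obtain ⟨t, ht⟩ := h1.exists
  have h2 := hprim t
  have h3 : Finset.univ.gcd (x t) = 0 := by
    rw [Finset.gcd_eq_zero_iff]
    exact fun y _ => ht y
  rw [h3] at h2
  exact zero_ne_one h2

theorem gt_core {s : ℕ} (b : Fin s → ℕ) (hb : ∀ v, (b v).Prime) (hbi : Function.Injective b)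
    (hL : Tendsto L atTop atTop) {r ν : ℕ} (u : Fin r → GG) (hu : ∀ j, GSU b (u j))
    (hB : ∀ j, Bd L (u j)) (V : Fin r → Fin ν → KK L hL) (x : ℕ → Fin ν → ℤ)
    (hprim : ∀ t, Finset.univ.gcd (x t) = 1) (hxB : ∀ y, Bd L (gm (fun t => (x t y : ℚ))))
    (lam : GG) (hlam : lam ≠ 0)
    (hrep : ∀ y, lam * gm (fun t => (x t y : ℚ)) = ∑ j, u j * (V j y : GG)) :
    ∃ (r' : ℕ) (u' : Fin r' → GG) (V' : Fin r' → Fin ν → KK L hL), (∀ j, GSU b (u' j)) ∧
      (∀ j, Bd L (u' j)) ∧ ∀ y, gm (fun t => (x t y : ℚ)) = ∑ j, u' j * (V' j y : GG) := by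
  classical
  obtain ⟨m, T, hT, hTB, hind, hrel⟩ := exists_mult_basis b hb hbi hL u hu hB
  choose κ a ha using hrel
  have hTne : ∀ k, gm (T k) ≠ 0 := fun k => gsu_ne_zero hb ⟨T k, rfl, hT k⟩
  set c : Fin m → ℕ := fun k => ∑ j, (a j k).natAbs with hc
  set Tc : GG := ∏ k, gm (T k) ^ c k with hTc
  have hTc0 : Tc ≠ 0 := Finset.prod_ne_zero_iff.2 fun k _ => pow_ne_zero _ (hTne k)
  set d : Fin r → (Fin m →₀ ℕ) := fun j =>
    Finsupp.equivFunOnFinite.symm (fun k => ((a j k) + c k).toNat) with hd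
  have hdk : ∀ j k, d j k = ((a j k) + c k).toNat := fun j k => rfl
  have hdT : ∀ j, ∏ k, gm (T k) ^ (d j k) = Tc * ∏ k, gm (T k) ^ a j k := by
    intro j
    rw [hTc, ← Finset.prod_mul_distrib]
    refine Finset.prod_congr rfl fun k _ => ?_
    rw [hdk, ← zpow_natCast, ← zpow_natCast, ← zpow_add₀ (hTne k)]
    congr 1
    have h3 : (a j k).natAbs ≤ c k :=
      Finset.single_le_sum (f := fun j => (a j k).natAbs) (fun _ _ => Nat.zero_le _)
        (Finset.mem_univ j)
    omega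
  set X : Fin ν → GG := fun y => gm (fun t => (x t y : ℚ)) with hX
  set ev : MvPolynomial (Fin m) (KK L hL) →ₐ[KK L hL] GG := aeval (fun k => gm (T k)) with hev
  set P : Fin ν → MvPolynomial (Fin m) (KK L hL) := fun y =>
    ∑ j, monomial (d j) (κ j * V j y) with hP
  have hPv : ∀ y, ev (P y) = Tc * lam * X y := by
    intro y
    rw [hP]
    simp only
    rw [map_sum, mul_assoc, hX]
    simp only
    rw [hrep, Finset.mul_sum]
    refine Finset.sum_congr rfl fun j _ => ?_
    rw [hev, aeval_monomial, Finsupp.prod_fintype _ _ (fun k => pow_zero _), hdT, ha j]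
    change ((κ j * V j y : KK L hL) : GG) * _ = _
    push_cast
    ring
  obtain ⟨y1, hy1⟩ := exists_ne_of_prim x hprim
  have hP1 : P y1 ≠ 0 := by
    intro h0
    have h1 := hPv y1
    rw [h0, map_zero] at h1
    exact mul_ne_zero (mul_ne_zero hTc0 hlam) hy1 h1.symm
  obtain ⟨Q, R, hQR, hQ0, hR1, hRπ⟩ := extract P y1 hP1
  have hevne : ∀ p : MvPolynomial (Fin m) (KK L hL), p ≠ 0 → ev p ≠ 0 := fun p hp h =>
    hp (hind p h)
  set q : GG := ev Q / (Tc * lam) with hq
  have hq0 : q ≠ 0 := div_ne_zero (hevne Q hQ0) (mul_ne_zero hTc0 hlam)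
  have hXq : ∀ y, X y = q * ev (R y) := by
    intro y
    have h1 := hPv y
    rw [hQR, map_mul] at h1
    rw [hq, div_mul_eq_mul_div, h1, mul_div_cancel_left₀ _ (mul_ne_zero hTc0 hlam)]
  -- representatives
  obtain ⟨q1, hq1⟩ := gm_surj q
  set q2 : ℕ → ℚ := fun n => if q1 n = 0 then 1 else q1 n with hq2
  have hq2n : ∀ n, q2 n ≠ 0 := by
    intro n
    rw [hq2]
    simp only
    split_ifs with h
    · exact one_ne_zero
    · exact h
  have hq2g : gm q2 = q := by
    rw [← hq1, gm_eq]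
    rw [← hq1] at hq0
    filter_upwards [gm_ne_zero.1 hq0] with n hn
    rw [hq2]
    simp only
    rw [if_neg hn]
  choose σ sn sd N D hσ hσe hsd0 hD0 hqe hNnum hDden hNb hDb hsn hsd hN0 using
    fun n => su_split b hb (q2 n) (hq2n n)
  -- bounds
  have hBev : ∀ p : MvPolynomial (Fin m) (KK L hL), Bd L (ev p) := by
    intro p
    rw [hev, aeval_def, eval₂_eq']
    refine Bd.sum hL _ _ fun e _ => (Bd.of_KK hL (coeff e p).2).mul (Bd.prod hL _ _ fun k _ => ?_)
    exact (hTB k).pow hL _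
  have hSgev : ∀ p : MvPolynomial (Fin m) (KK L hL), Sg L (∏ v, b v) (ev p) := by
    intro p
    rw [hev, aeval_def, eval₂_eq']
    refine Sg.sum hL _ _ fun e _ => (Sg.KK hL (coeff e p).2).mul (Sg.prod hL _ _ fun k _ => ?_)
    exact (Sg.of_su b hb hbi hL (hT k) (hTB k)).pow hL _
  have hBq : Bd L (gm q2) := by
    have h1 : gm q2 = X y1 / ev (R y1) := by
      rw [hq2g, hXq y1, mul_div_cancel_right₀ _ (hevne _ hR1)]
    rw [h1]
    exact (hxB y1).div (hBev _) (hevne _ hR1)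
  obtain ⟨A, hA⟩ := hBq.lowest
  have hA' : ∀ᶠ n in (UU : Filter ℕ), |((q2 n).num : ℝ)| ≤ Real.exp (A * L n) ∧
      ((q2 n).den : ℝ) ≤ Real.exp (A * L n) := by
    filter_upwards [hA] with n hn
    exact hn.resolve_right (hq2n n)
  have hσB : Bd L (gm σ) := by
    refine ⟨sn, fun n => (sd n : ℤ), A, ?_, ?_, Eventually.of_forall fun n => ?_, ?_⟩
    · filter_upwards [hA'] with n hn
      refine le_trans ?_ hn.1
      exact_mod_cast hsn n
    · filter_upwards [hA'] with n hn
      rw [Int.cast_natCast, abs_of_nonneg (Nat.cast_nonneg _)]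
      refine le_trans ?_ hn.2
      exact_mod_cast hsd n
    · change ((sd n : ℕ) : ℤ) ≠ 0
      exact_mod_cast hsd0 n
    · congr 1
      funext n
      rw [hσe n]
      push_cast
      rfl
  have hσS : GSU b (gm σ) := ⟨σ, rfl, hσ⟩
  have hσ0 : gm σ ≠ 0 := gsu_ne_zero hb hσS
  obtain ⟨τ, hτ1, hτ2⟩ := gsu_inv hσS
  have hτB : Bd L (gm τ) := by
    rw [← hτ1]
    exact hσB.inv hσ0
  have hSgτ : Sg L (∏ v, b v) (gm σ)⁻¹ := by
    rw [hτ1]
    exact Sg.of_su b hb hbi hL hτ2 hτB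
  have hqσ : q = gm σ * gm (fun n => (N n : ℚ) / D n) := by
    rw [← hq2g, gm_mul]
    congr 1
    funext n
    exact hqe n
  have hcop : ∀ n, IsCoprime (N n : ℤ) (D n : ℤ) := by
    intro n
    rw [Nat.isCoprime_iff_coprime]
    have h1 := (q2 n).reduced
    have h2 : N n ∣ (q2 n).num.natAbs := Int.natCast_dvd.1 (hNnum n)
    exact Nat.Coprime.coprime_dvd_left h2 (Nat.Coprime.coprime_dvd_right (hDden n) h1)
  choose α β hαβ using hcop
  have hDid : gm (fun n => 1 / (D n : ℚ)) =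
      gm (fun n => (α n : ℚ)) * gm (fun n => (N n : ℚ) / D n) + gm (fun n => (β n : ℚ)) := by
    rw [gm_mul, gm_add]
    congr 1
    funext n
    have h1 : (D n : ℚ) ≠ 0 := by exact_mod_cast hD0 n
    have h2 : (α n : ℚ) * N n + β n * D n = 1 := by exact_mod_cast hαβ n
    rw [← h2]
    field_simp
  have hDX : ∀ F : GG, Sg L (∏ v, b v) (q * F) → Sg L (∏ v, b v) F →
      Sg L (∏ v, b v) (gm (fun n => 1 / (D n : ℚ)) * F) := by
    intro F h1 h2
    have h3 : gm (fun n => 1 / (D n : ℚ)) * F =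
        gm (fun n => (α n : ℚ)) * (gm σ)⁻¹ * (q * F) + gm (fun n => (β n : ℚ)) * F := by
      rw [hDid, hqσ]
      field_simp
    rw [h3]
    exact (((Sg.int hL α).mul hSgτ).mul h1).add hL ((Sg.int hL β).mul h2)
  have hinf : Infinite (KK L hL) := inferInstance
  obtain ⟨cc, hg0, hfg⟩ := exists_coprime R y1 hR1 hRπ
  have hDN : Negl L (fun n => (D n : ℤ)) := by
    refine gcd_germ b hb hbi hL T hT hTB hind (R y1) (∑ y, C (cc y) * R y) hR1 hg0 hfg D hD0 hDb A
      ?_ (hDX _ ?_ (hSgev _)) (hDX _ ?_ (hSgev _))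
    · filter_upwards [hA'] with n hn
      refine le_trans ?_ hn.2
      exact_mod_cast Nat.le_of_dvd (q2 n).pos (hDden n)
    · rw [← hXq y1]
      exact Sg.int hL _
    · have h1 : q * ev (∑ y, C (cc y) * R y) = ∑ y, (cc y : GG) * X y := by
        rw [map_sum, Finset.mul_sum]
        refine Finset.sum_congr rfl fun y _ => ?_
        rw [map_mul, hXq y, hev, aeval_C]
        change q * ((cc y : GG) * _) = _
        ring
      rw [← hev, h1]
      exact Sg.sum hL _ _ fun y _ => (Sg.KK hL (cc y).2).mul (Sg.int hL _)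
  -- the numerator
  have hNN : Negl L (fun n => (N n : ℤ)) := by
    have hRS : ∀ y, ∃ A : ℝ, gm (fun n => (x n y : ℚ) / q2 n) ∈ Pool.Agent.TH932.Germs.SS L
        (Rs (∏ v, b v)) A := by
      intro y
      have h1 : gm (fun n => (x n y : ℚ) / q2 n) = ev (R y) := by
        rw [← gm_div, hq2g]
        change X y / q = _
        rw [hXq y, mul_div_cancel_left₀ _ hq0]
      rw [h1]
      exact hSgev _
    choose A1 hA1 using hRS
    intro ε hε
    have h2 : ∀ᶠ n in (UU : Filter ℕ), ∀ y, Rs (∏ v, b v) (L n) (ε / ((ν : ℝ) + 1)) (A1 y)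
        ((x n y : ℚ) / q2 n) := by
      refine eventually_all.2 fun y => ?_
      have h3 := hA1 y
      rw [mem_SS] at h3
      exact h3 _ (by positivity)
    filter_upwards [h2, L_nonneg hL] with n h3 h4
    choose e me k he1 he2 he3 he4 using h3
    have hNden : IsCoprime (N n : ℤ) ((q2 n).den : ℤ) := by
      rw [Nat.isCoprime_iff_coprime]
      exact Nat.Coprime.coprime_dvd_left (Int.natCast_dvd.1 (hNnum n)) (q2 n).reduced
    have hNβ : IsCoprime (N n : ℤ) ((∏ v, b v : ℕ) : ℤ) := by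
      rw [Nat.isCoprime_iff_coprime]
      exact Nat.Coprime.prod_right fun v _ => hNb n v
    have hdvd : ∀ y, (N n : ℤ) ∣ (∏ y, e y) * x n y := by
      intro y
      have h5 := he3 y
      have h6 : q2 n = ((q2 n).num : ℚ) / ((q2 n).den : ℚ) := (Rat.num_div_den _).symm
      have h7 : ((q2 n).den : ℚ) ≠ 0 := by exact_mod_cast (q2 n).den_ne_zero
      have h8 : ((q2 n).num : ℚ) ≠ 0 := by exact_mod_cast Rat.num_ne_zero.2 (hq2n n)
      have h9 : (e y : ℚ) * ((∏ v, b v : ℕ) : ℚ) ^ k y * (x n y * (q2 n).den) =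
          me y * (q2 n).num := by
        rw [h6] at h5
        rw [← h5]
        field_simp
      have h10 : (N n : ℤ) ∣ (e y * x n y) * (((∏ v, b v : ℕ) : ℤ) ^ k y * (q2 n).den) := by
        have h11 : (e y * x n y) * (((∏ v, b v : ℕ) : ℤ) ^ k y * (q2 n).den) =
            me y * (q2 n).num := by
          have : (((e y * x n y) * (((∏ v, b v : ℕ) : ℤ) ^ k y * (q2 n).den) : ℤ) : ℚ) =
            ((me y * (q2 n).num : ℤ) : ℚ) := by
            push_cast at h9 ⊢
            rw [← h9]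
            ring
          exact_mod_cast this
        rw [h11]
        exact (hNnum n).mul_left _
      have h12 : (N n : ℤ) ∣ e y * x n y :=
        (IsCoprime.mul_right (hNβ.pow_right) hNden).dvd_of_dvd_mul_right h10
      rw [← Finset.mul_prod_erase _ _ (Finset.mem_univ y)]
      have h13 : e y * (∏ y ∈ Finset.univ.erase y, e y) * x n y =
        (e y * x n y) * (∏ y ∈ Finset.univ.erase y, e y) := by ring
      rw [h13]
      exact h12.mul_right _
    have hdvd2 : (N n : ℤ) ∣ ∏ y, e y := by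
      have h5 : (N n : ℤ) ∣ Finset.univ.gcd (fun y => (∏ y, e y) * x n y) :=
        Finset.dvd_gcd fun y _ => hdvd y
      rw [Finset.gcd_mul_left, hprim n, mul_one] at h5
      exact (dvd_normalize_iff).1 h5
    have hprod0 : (∏ y, e y) ≠ 0 := Finset.prod_ne_zero_iff.2 fun y _ => he1 y
    have h5 := Int.natAbs_le_of_dvd_ne_zero hdvd2 hprod0
    rw [Int.natAbs_natCast] at h5
    rw [Int.cast_natCast, abs_of_nonneg (Nat.cast_nonneg _)]
    calc (N n : ℝ) ≤ (((∏ y, e y).natAbs : ℕ) : ℝ) := by exact_mod_cast h5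
      _ = |((∏ y, e y : ℤ) : ℝ)| := by
          rw [← Int.cast_abs, Int.abs_eq_natAbs, Int.cast_natCast]
      _ = ∏ y, |(e y : ℝ)| := by
          push_cast
          rw [Finset.abs_prod]
      _ ≤ ∏ _y : Fin ν, Real.exp (ε / ((ν : ℝ) + 1) * L n) :=
          Finset.prod_le_prod (fun _ _ => abs_nonneg _) fun y _ => he2 y
      _ = Real.exp (ν * (ε / ((ν : ℝ) + 1) * L n)) := by
          rw [Finset.prod_const, Finset.card_univ, Fintype.card_fin, ← Real.exp_nat_mul]
      _ ≤ _ := by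
          apply Real.exp_le_exp.2
          have h6 : (ν : ℝ) * (ε / ((ν : ℝ) + 1)) ≤ ε := by
            have h7 : (0 : ℝ) < (ν : ℝ) + 1 := by positivity
            rw [← mul_div_assoc, div_le_iff₀ h7]
            nlinarith
          calc (ν : ℝ) * (ε / ((ν : ℝ) + 1) * L n) = (ν * (ε / ((ν : ℝ) + 1))) * L n := by ring
            _ ≤ ε * L n := mul_le_mul_of_nonneg_right h6 h4
  have hκ : gm (fun n => (N n : ℚ) / D n) ∈ KK L hL :=
    ⟨fun n => (N n : ℤ), fun n => (D n : ℤ), hNN, hDN,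
      Eventually.of_forall fun n => by
        change ((D n : ℕ) : ℤ) ≠ 0
        exact_mod_cast hD0 n, by
      congr 1⟩
  set κ' : KK L hL := ⟨_, hκ⟩ with hκ'
  set S : Finset (Fin m →₀ ℕ) := Finset.univ.biUnion (fun y => (R y).support) with hS
  let eS := S.equivFin
  refine ⟨S.card, fun i => gm σ * ∏ k, gm (T k) ^ ((eS.symm i : Fin m →₀ ℕ) k),
    fun i y => κ' * coeff (eS.symm i : Fin m →₀ ℕ) (R y), ?_, ?_, ?_⟩
  · intro i
    exact CRV.GSU.mul hb hσS (gsu_prod hb _ _ fun k _ => CRV.GSU.pow hb ⟨T k, rfl, hT k⟩ _)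
  · intro i
    exact hσB.mul (Bd.prod hL _ _ fun k _ => (hTB k).pow hL _)
  · intro y
    change X y = _
    rw [hXq y, hqσ, hev, aeval_def, eval₂_eq']
    have h1 : ∑ e ∈ (R y).support, (algebraMap (KK L hL) GG) (coeff e (R y)) *
        ∏ k, gm (T k) ^ e k =
        ∑ e ∈ S, ((coeff e (R y) : KK L hL) : GG) * ∏ k, gm (T k) ^ e k := by
      refine Finset.sum_subset (fun e he => ?_) (fun e _ he => ?_)
      · rw [hS, Finset.mem_biUnion]
        exact ⟨y, Finset.mem_univ _, he⟩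
      · rw [notMem_support_iff.1 he]
        simp
    rw [h1, ← Finset.sum_coe_sort S, Finset.mul_sum, ← Equiv.sum_comp eS.symm]
    refine Finset.sum_congr rfl fun i _ => ?_
    have h2 : ((κ' * coeff (eS.symm i : Fin m →₀ ℕ) (R y) : KK L hL) : GG) =
        gm (fun n => (N n : ℚ) / D n) * ((coeff (eS.symm i : Fin m →₀ ℕ) (R y) : KK L hL) : GG) :=
      rfl
    rw [h2]
    ring

end Pool.Agent.Y724.Vj
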