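import Mathlib

/-!
# The determinant bound near a divisor with normal crossings, over a valuation ring
-/

set_option autoImplicit false

namespace Pool.Agent.Y724.Vj

open MvPolynomial

/-- a determinant is not larger than the product of bounds of its rows -/
theorem det_le {R Γ : Type} [CommRing R] [LinearOrderedCommGroupWithZero Γ] (v : Valuation R Γ)
    {ν : ℕ} (M : Matrix (Fin ν) (Fin ν) R) (r : Fin ν → Γ) (h : ∀ i j, v (M i j) ≤ r i) :
    v M.det ≤ ∏ i, r i := by
  classical
  rw [Matrix.det_apply]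
  apply Valuation.map_sum_le
  intro σ _
  have h1 : v (Equiv.Perm.sign σ • ∏ i, M (σ i) i) = v (∏ i, M (σ i) i) := by
    rcases Int.units_eq_one_or (Equiv.Perm.sign σ) with h2 | h2
    · rw [h2, one_smul]
    · rw [h2, Units.neg_smul, one_smul, Valuation.map_neg]
  rw [h1, map_prod, ← Equiv.prod_comp σ r]
  exact Finset.prod_le_prod' fun i _ => h _ _

/-- a linearly independent family of rows is part of an invertible matrix -/
theorem extend_rows {k : Type} [Field k] {κ : Type} {ν : ℕ} (M : κ → Fin ν → k)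
    (h : LinearIndependent k M) : ∃ (e : κ → Fin ν) (B : Fin ν → Fin ν → k),
      Function.Injective e ∧ (∀ i, B (e i) = M i) ∧ LinearIndependent k B := by
  classical
  let b := h.linearIndepOn_id.extend (Set.subset_univ (Set.range M))
  let bas : Module.Basis b k (Fin ν → k) := Module.Basis.extend h.linearIndepOn_id
  have hfin : Finite b := Module.Finite.finite_basis bas
  have : Fintype b := Fintype.ofFinite b
  have hcard : Fintype.card b = ν := by
    have h1 := Module.finrank_eq_card_basis bas
    rw [Module.finrank_fin_fun] at h1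
    exact h1.symm
  let ψ := Fintype.equivFinOfCardEq hcard
  have hsub : ∀ i, M i ∈ b := fun i =>
    h.linearIndepOn_id.subset_extend (Set.subset_univ _) ⟨i, rfl⟩
  refine ⟨fun i => ψ ⟨M i, hsub i⟩, fun c => (ψ.symm c : Fin ν → k), ?_, ?_, ?_⟩
  · intro i j hij
    have h1 := ψ.injective hij
    exact h.injective (congrArg Subtype.val h1)
  · intro i
    simp
  · have h1 : LinearIndependent k (fun x : b => (x : Fin ν → k)) := by
      have h2 := bas.linearIndependent
      have h3 : ⇑bas = fun x : b => (x : Fin ν → k) := Module.Basis.coe_extend _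
      rwa [h3] at h2
    exact h1.comp ψ.symm ψ.symm.injective

/-- few independent rows are orthogonal to the columns of a matrix of maximal rank -/
theorem too_many {G : Type} [Field G] {ν n s : ℕ} (hν : ν = n + s)
    (T : Matrix (Fin ν) (Fin n) G) (J0 : Fin n → Fin ν) (hdet : (T.submatrix J0 id).det ≠ 0)
    {κ : Type} [Fintype κ] (R : κ → Fin ν → G) (hR : LinearIndependent G R)
    (h0 : ∀ z c, ∑ y, R z y * T y c = 0) : Fintype.card κ ≤ s := by
  classical
  have hmem : ∀ z, R z ∈ LinearMap.ker T.transpose.mulVecLin := by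
    intro z
    rw [LinearMap.mem_ker, Matrix.mulVecLin_apply]
    funext c
    have h1 := h0 z c
    rw [Pi.zero_apply, ← h1]
    change ∑ y, T y c * R z y = _
    exact Finset.sum_congr rfl fun y _ => mul_comm (T y c) (R z y)
  have h1 : LinearIndependent G
      (fun z => (⟨R z, hmem z⟩ : LinearMap.ker T.transpose.mulVecLin)) := by
    apply LinearIndependent.of_comp (LinearMap.ker T.transpose.mulVecLin).subtype
    exact hR
  have h2 := h1.fintype_card_le_finrank
  have h3 := LinearMap.finrank_range_add_finrank_ker T.transpose.mulVecLin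
  rw [Module.finrank_fin_fun] at h3
  have h4 : Module.finrank G (LinearMap.range T.transpose.mulVecLin) = T.rank := by
    rw [← Matrix.rank_transpose T]
    rfl
  have h5 : n ≤ T.rank := by
    have h6 : (T.submatrix J0 id).rank = n := by
      rw [Matrix.rank_of_isUnit _ ((Matrix.isUnit_iff_isUnit_det _).2 (isUnit_iff_ne_zero.2 hdet)),
        Fintype.card_fin]
    exact h6.ge.trans (Matrix.rank_submatrix_le T J0 id)
  omega

section core

variable {G : Type} [Field G] (A : ValuationSubring G) {ν n s : ℕ} (hν : ν = n + s)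
  {I : Type} [Fintype I] (ρ : Fin s ⊕ I → Fin ν → A)
  (hli : LinearIndependent (IsLocalRing.ResidueField A)
    (fun x y => IsLocalRing.residue A (ρ x y)))

include hli in
/-- rows which are independent modulo the maximal ideal are part of an invertible matrix -/
theorem extend_rows_A : ∃ (e : Fin s ⊕ I → Fin ν) (B : Matrix (Fin ν) (Fin ν) A),
    Function.Injective e ∧ (∀ x y, B (e x) y = ρ x y) ∧ IsUnit B.det := by
  classical
  obtain ⟨e, B, he, hBe, hB⟩ := extend_rows _ hli
  choose lift hlift using IsLocalRing.residue_surjective (R := A)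
  let Bm : Matrix (Fin ν) (Fin ν) A := Matrix.of fun c y =>
    if hc : ∃ x, e x = c then ρ hc.choose y else lift (B c y)
  have hBm1 : ∀ x y, Bm (e x) y = ρ x y := by
    intro x y
    have hc : ∃ x', e x' = e x := ⟨x, rfl⟩
    have hcx : hc.choose = x := he hc.choose_spec
    simp only [Bm, Matrix.of_apply]
    rw [dif_pos hc, hcx]
  have hBmres : Bm.map (IsLocalRing.residue A) = Matrix.of B := by
    ext1 c y
    rw [Matrix.map_apply, Matrix.of_apply]
    by_cases hc : ∃ x, e x = c
    · obtain ⟨x, rfl⟩ := hc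
      rw [hBm1, hBe]
    · simp only [Bm, Matrix.of_apply]
      rw [dif_neg hc]
      exact hlift _
  refine ⟨e, Bm, he, hBm1, ?_⟩
  rw [← IsLocalRing.residue_ne_zero_iff_isUnit]
  have h1 : (IsLocalRing.residue A) Bm.det = (Bm.map (IsLocalRing.residue A)).det :=
    RingHom.map_det _ Bm
  rw [h1, hBmres]
  have h2 : LinearIndependent (IsLocalRing.ResidueField A) (Matrix.of B).row := hB
  exact ((Matrix.linearIndependent_rows_iff_isUnit.1 h2).map Matrix.detMonoidHom).ne_zero

include hli in
/-- the rows are independent over the field -/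
theorem li_rows : LinearIndependent G (fun x y => ((ρ x y : A) : G)) := by
  classical
  obtain ⟨e, Bm, he, hBe, hdetB⟩ := extend_rows_A A ρ hli
  have hBG : LinearIndependent G (Bm.map A.subtype).row := by
    rw [Matrix.linearIndependent_rows_iff_isUnit, Matrix.isUnit_iff_isUnit_det]
    have h2 : (Bm.map A.subtype).det = A.subtype Bm.det := (RingHom.map_det A.subtype Bm).symm
    rw [h2]
    exact hdetB.map A.subtype
  have h2 : (fun x y => ((ρ x y : A) : G)) = fun x => (Bm.map A.subtype).row (e x) := by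
    funext x y
    rw [← hBe]
    rfl
  rw [h2]
  exact hBG.comp _ he

include hν hli in
theorem core_ne (T : Matrix (Fin ν) (Fin n) A) (J0 : Fin n → Fin ν)
    (hdet : (T.submatrix J0 id).det ≠ 0)
    (h0 : ∀ a c, ∑ y, ρ (Sum.inl a) y * T y c = 0) (i : I)
    (hi : ∀ c, ∑ y, ρ (Sum.inr i) y * T y c = 0) : False := by
  classical
  have h1 : ∀ x : Fin s ⊕ Unit, ∀ c, ∑ y, ρ (Sum.map id (fun _ => i) x) y * T y c = 0 := by
    rintro (a | _) c
    · exact h0 a c
    · exact hi c
  let TG : Matrix (Fin ν) (Fin n) G := T.map A.subtype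
  have hTG : (TG.submatrix J0 id).det ≠ 0 := by
    have h2 : (TG.submatrix J0 id).det = A.subtype (T.submatrix J0 id).det :=
      (RingHom.map_det A.subtype (T.submatrix J0 id)).symm
    rw [h2]
    intro h3
    exact hdet (Subtype.ext h3)
  have hRi : LinearIndependent G (fun x : Fin s ⊕ Unit => fun y : Fin ν =>
      ((ρ (Sum.map id (fun _ => i) x) y : A) : G)) := by
    refine (li_rows A ρ hli).comp (fun x : Fin s ⊕ Unit => Sum.map id (fun _ => i) x) ?_
    intro x x' hxx
    rcases x with a | _
    · rcases x' with a' | _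
      · exact congrArg Sum.inl (Sum.inl_injective hxx)
      · exact absurd hxx (by simp)
    · rcases x' with a' | _
      · exact absurd hxx (by simp)
      · rfl
  have h5 := too_many hν TG J0 hTG _ hRi (by
    intro x c
    have h6 := congrArg A.subtype (h1 x c)
    rw [map_sum, map_zero] at h6
    rw [← h6]
    refine Finset.sum_congr rfl fun y _ => ?_
    rw [map_mul]
    rfl)
  rw [Fintype.card_sum, Fintype.card_fin, Fintype.card_unit] at h5
  omega

include hν hli in
/-- the bound for the minors -/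
theorem core_bound (T : Matrix (Fin ν) (Fin n) A)
    (h0 : ∀ a c, ∑ y, ρ (Sum.inl a) y * T y c = 0) (f : I → A) (hf : ∀ i, f i ≠ 0)
    (hi : ∀ i c, A.valuation ((∑ y, ρ (Sum.inr i) y * T y c : A) : G) ≤ A.valuation (f i : G))
    (Jc : Fin n → Fin ν) :
    A.valuation (((T.submatrix Jc id).det : A) : G) ≤ ∏ i, A.valuation (f i : G) := by
  classical
  set v : Valuation A A.ValueGroup := A.valuation.comap A.subtype with hv
  have hvA : ∀ a : A, v a = A.valuation (a : G) := fun a => rfl
  have hv1 : ∀ a : A, v a ≤ 1 := fun a => A.valuation_le_one a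
  have hvu : ∀ a : A, IsUnit a → v a = 1 := fun a ha => (A.valuation_eq_one_iff a).1 ha
  have hv0 : ∀ a : A, a ≠ 0 → v a ≠ 0 := by
    intro a ha h0
    rw [hvA, Valuation.zero_iff] at h0
    exact ha (Subtype.ext h0)
  obtain ⟨e, Bm, he, hBm1, hdetB⟩ := extend_rows_A A ρ hli
  by_cases hJ : Function.Injective Jc
  swap
  · rw [Function.not_injective_iff] at hJ
    obtain ⟨a, b, hab, hne'⟩ := hJ
    have h0 : (T.submatrix Jc id).det = 0 := by
      refine Matrix.det_zero_of_row_eq hne' ?_
      funext c
      rw [Matrix.submatrix_apply, Matrix.submatrix_apply, hab]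
    rw [h0, ZeroMemClass.coe_zero, map_zero]
    exact zero_le
  set ϖ : A := ∏ i, f i with hϖ
  have hϖ0 : ϖ ≠ 0 := Finset.prod_ne_zero_iff.2 fun i _ => hf i
  have hϖle : ∀ i : I, v ϖ ≤ v (f i) := by
    intro i
    rw [hϖ, ← Finset.mul_prod_erase _ _ (Finset.mem_univ i), map_mul]
    exact mul_le_of_le_one_right' (hv1 _)
  -- the square matrix
  let e1 : Fin n ≃ Set.range Jc := Equiv.ofInjective Jc hJ
  have hcard : Fintype.card ↥(Set.range Jc)ᶜ = s := by
    rw [Fintype.card_compl_set, Fintype.card_fin, Set.card_range_of_injective hJ,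
      Fintype.card_fin]
    omega
  let e2 : Fin s ≃ ↥(Set.range Jc)ᶜ := (Fintype.equivFinOfCardEq hcard).symm
  let σ : Fin n ⊕ Fin s ≃ Fin ν := (Equiv.sumCongr e1 e2).trans (Equiv.Set.sumCompl (Set.range Jc))
  have hσ1 : ∀ i, σ (Sum.inl i) = Jc i := fun i => rfl
  let M2 : Matrix (Fin ν) (Fin ν) A := fun j c =>
    Sum.elim (fun k => T j k) (fun a => if j = σ (Sum.inr a) then ϖ else 0) (σ.symm c)
  have hM2l : ∀ j k, M2 j (σ (Sum.inl k)) = T j k := by
    intro j k
    simp only [M2]
    rw [Equiv.symm_apply_apply, Sum.elim_inl]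
  have hM2r : ∀ j a, M2 j (σ (Sum.inr a)) = if j = σ (Sum.inr a) then ϖ else 0 := by
    intro j a
    simp only [M2]
    rw [Equiv.symm_apply_apply, Sum.elim_inr]
  have hblock : M2.submatrix σ σ = Matrix.fromBlocks (T.submatrix Jc id) 0
      (Matrix.of fun a k => T (σ (Sum.inr a)) k) (Matrix.diagonal fun _ : Fin s => ϖ) := by
    ext1 x y
    rw [Matrix.submatrix_apply]
    rcases x with i | a
    · rcases y with k | a'
      · rw [hM2l, Matrix.fromBlocks_apply₁₁, Matrix.submatrix_apply, hσ1]
        rfl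
      · rw [hM2r, Matrix.fromBlocks_apply₁₂, if_neg, Matrix.zero_apply]
        intro h0
        have := σ.injective h0
        cases this
    · rcases y with k | a'
      · rw [hM2l, Matrix.fromBlocks_apply₂₁, Matrix.of_apply]
      · rw [hM2r, Matrix.fromBlocks_apply₂₂, Matrix.diagonal_apply]
        by_cases haa : a = a'
        · rw [if_pos (by rw [haa]), if_pos haa]
        · rw [if_neg, if_neg haa]
          intro h0
          exact haa (Sum.inr_injective (σ.injective h0))
  have hdet2 : M2.det = (T.submatrix Jc id).det * ϖ ^ s := by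
    rw [← Matrix.det_submatrix_equiv_self σ M2, hblock, Matrix.det_fromBlocks_zero₁₂,
      Matrix.det_diagonal, Finset.prod_const, Finset.card_univ, Fintype.card_fin]
  -- the bound
  let r : Fin ν → A.ValueGroup := fun c =>
    if hc : ∃ x, e x = c then Sum.elim (fun _ : Fin s => v ϖ)
      (fun i : I => v (f i)) hc.choose else 1
  have hr1 : ∀ x, r (e x) = Sum.elim (fun _ : Fin s => v ϖ)
      (fun i : I => v (f i)) x := by
    intro x
    have hc : ∃ x', e x' = e x := ⟨x, rfl⟩
    have hcx : hc.choose = x := he hc.choose_spec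
    simp only [r]
    rw [dif_pos hc, hcx]
  have hr2 : ∀ c, c ∉ Set.range e → r c = 1 := by
    intro c hc
    simp only [r]
    rw [dif_neg]
    rintro ⟨x, hx⟩
    exact hc ⟨x, hx⟩
  have hle := det_le v (Bm * M2) r (by
    intro c d
    by_cases hc : ∃ x, e x = c
    · obtain ⟨x, rfl⟩ := hc
      rw [hr1, Matrix.mul_apply]
      obtain ⟨d', rfl⟩ := σ.surjective d
      rcases d' with k | a'
      · simp only [hM2l, hBm1]
        rcases x with a | i
        · rw [h0 a k, map_zero]
          exact zero_le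
        · exact hi i k
      · simp only [hM2r, mul_ite, mul_zero]
        rw [Finset.sum_ite_eq' Finset.univ (σ (Sum.inr a')), if_pos (Finset.mem_univ _), map_mul]
        rcases x with a | i
        · exact mul_le_of_le_one_left' (hv1 _)
        · exact (mul_le_of_le_one_left' (hv1 _)).trans (hϖle i)
    · rw [hr2 c (fun ⟨x, hx⟩ => hc ⟨x, hx⟩)]
      exact hv1 _)
  rw [← Fintype.prod_of_injective e he (Sum.elim (fun _ : Fin s => v ϖ)
      (fun i : I => v (f i))) r hr2 (fun x => (hr1 x).symm),
    Fintype.prod_sum_type] at hle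
  simp only [Sum.elim_inl, Sum.elim_inr, Finset.prod_const, Finset.card_univ,
    Fintype.card_fin] at hle
  rw [Matrix.det_mul, map_mul, hvu _ hdetB, one_mul, hdet2, map_mul, map_pow, mul_comm] at hle
  have hϖs : v ϖ ^ s ≠ 0 := pow_ne_zero _ (hv0 _ hϖ0)
  exact le_of_mul_le_mul_left hle (zero_lt_iff.2 hϖs)

end core

/-- the value of an integral polynomial -/
noncomputable def evi {k : Type} [CommRing k] {ν : ℕ} (z : Fin ν → k)
    (P : MvPolynomial (Fin ν) ℤ) : k := eval₂ (Int.castRingHom k) z P

lemma map_evi {k k' : Type} [CommRing k] [CommRing k'] {ν : ℕ} (φ : k →+* k') (z : Fin ν → k)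
    (P : MvPolynomial (Fin ν) ℤ) : φ (evi z P) = evi (fun y => φ (z y)) P := by
  unfold evi
  rw [hom_eval₂]
  congr 1
  exact Subsingleton.elim _ _

/-- smoothness and normal crossings at the points with coordinates in the field `k` -/
def NCf (k : Type) [Field k] {ν g q w : ℕ} (s : ℕ) (Gp : Fin g → MvPolynomial (Fin ν) ℤ)
    (F : Fin q → Fin w → MvPolynomial (Fin ν) ℤ) : Prop :=
  ∀ z : Fin ν → k, z ≠ 0 → (∀ a, evi z (Gp a) = 0) →
    ∃ (K : Fin s → Fin g) (J : Fin q → Fin w),
      LinearIndependent k (Sum.elim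
        (fun a : Fin s => fun y : Fin ν => evi z (pderiv y (Gp (K a))))
        (fun i : {i : Fin q // ∀ j, evi z (F i j) = 0} => fun y : Fin ν =>
          evi z (pderiv y (F i.1 (J i.1)))))

theorem nc_bound {G : Type} [Field G] (A : ValuationSubring G) {ν n s : ℕ} (hν : ν = n + s)
    {g q w : ℕ} (Gp : Fin g → MvPolynomial (Fin ν) ℤ) (F : Fin q → Fin w → MvPolynomial (Fin ν) ℤ)
    (hnc : NCf (IsLocalRing.ResidueField A) s Gp F) (ξ : Fin ν → A) (hξ : ∃ y, IsUnit (ξ y))
    (hG : ∀ a, evi ξ (Gp a) = 0) (T : Matrix (Fin ν) (Fin n) A)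
    (hGT : ∀ a c, ∑ y, evi ξ (pderiv y (Gp a)) * T y c = 0)
    (hFT : ∀ i j c, A.valuation ((∑ y, evi ξ (pderiv y (F i j)) * T y c : A) : G) ≤
      A.valuation ((evi ξ (F i j) : A) : G))
    (J0 : Fin n → Fin ν) (hdet : (T.submatrix J0 id).det ≠ 0) :
    ∃ jj : Fin q → Fin w, (∀ i, evi ξ (F i (jj i)) ≠ 0) ∧ ∀ J : Fin n → Fin ν,
      A.valuation (((T.submatrix J id).det : A) : G) ≤
        ∏ i, A.valuation ((evi ξ (F i (jj i)) : A) : G) := by
  classical
  have hev : ∀ P : MvPolynomial (Fin ν) ℤ, evi (fun y => IsLocalRing.residue A (ξ y)) P =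
      IsLocalRing.residue A (evi ξ P) := fun P => (map_evi _ _ _).symm
  obtain ⟨K, J, hli⟩ := hnc (fun y => IsLocalRing.residue A (ξ y)) (by
    obtain ⟨y, hy⟩ := hξ
    intro h0
    exact ((IsLocalRing.residue_ne_zero_iff_isUnit _).2 hy) (congrFun h0 y)) (by
    intro a
    rw [hev, hG, map_zero])
  have hU : ∀ i : Fin q, (¬ ∀ j, evi (fun y => IsLocalRing.residue A (ξ y)) (F i j) = 0) →
      ∃ j, IsUnit (evi ξ (F i j)) := by
    intro i hi
    push Not at hi
    obtain ⟨j, hj⟩ := hi
    rw [hev] at hj
    exact ⟨j, (IsLocalRing.residue_ne_zero_iff_isUnit _).1 hj⟩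
  choose j' hj' using hU
  set ρ : Fin s ⊕ {i : Fin q // ∀ j, evi (fun y => IsLocalRing.residue A (ξ y)) (F i j) = 0} →
      Fin ν → A := Sum.elim (fun a y => evi ξ (pderiv y (Gp (K a))))
    (fun i y => evi ξ (pderiv y (F i.1 (J i.1)))) with hρ
  have hli' : LinearIndependent (IsLocalRing.ResidueField A)
      (fun x y => IsLocalRing.residue A (ρ x y)) := by
    have h1 : (fun x y => IsLocalRing.residue A (ρ x y)) = Sum.elim
        (fun a : Fin s => fun y : Fin ν => evi (fun y => IsLocalRing.residue A (ξ y))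
          (pderiv y (Gp (K a))))
        (fun i : {i : Fin q // ∀ j, evi (fun y => IsLocalRing.residue A (ξ y)) (F i j) = 0} =>
          fun y : Fin ν => evi (fun y => IsLocalRing.residue A (ξ y))
          (pderiv y (F i.1 (J i.1)))) := by
      funext x y
      rcases x with a | i
      · simp only [Sum.elim_inl, ρ]
        rw [hev]
      · simp only [Sum.elim_inr, ρ]
        rw [hev]
    rw [h1]
    exact hli
  have hne : ∀ i : {i : Fin q // ∀ j, evi (fun y => IsLocalRing.residue A (ξ y)) (F i j) = 0},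
      evi ξ (F i.1 (J i.1)) ≠ 0 := by
    intro i h0
    refine core_ne A hν ρ hli' T J0 hdet (fun a c => hGT (K a) c) i fun c => ?_
    have h2 := hFT i.1 (J i.1) c
    rw [h0, ZeroMemClass.coe_zero, map_zero] at h2
    have h3 := le_antisymm h2 zero_le
    rw [Valuation.zero_iff] at h3
    exact Subtype.ext h3
  have key := core_bound A hν ρ hli' T (fun a c => hGT (K a) c)
    (fun i => evi ξ (F i.1 (J i.1))) hne (fun i c => hFT i.1 (J i.1) c)
  refine ⟨fun i => if hi : ∀ j, evi (fun y => IsLocalRing.residue A (ξ y)) (F i j) = 0 then J i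
    else j' i hi, ?_, ?_⟩
  · intro i
    by_cases hi : ∀ j, evi (fun y => IsLocalRing.residue A (ξ y)) (F i j) = 0
    · simp only [dif_pos hi]
      exact hne ⟨i, hi⟩
    · simp only [dif_neg hi]
      exact (hj' i hi).ne_zero
  intro Jc
  refine (key Jc).trans (le_of_eq ?_)
  refine Fintype.prod_of_injective
    (fun i : {i : Fin q // ∀ j, evi (fun y => IsLocalRing.residue A (ξ y)) (F i j) = 0} => i.1)
    Subtype.val_injective _ _ ?_ ?_
  · intro i hi
    have hi' : ¬ ∀ j, evi (fun y => IsLocalRing.residue A (ξ y)) (F i j) = 0 :=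
      fun h3 => hi ⟨⟨i, h3⟩, rfl⟩
    simp only [dif_neg hi']
    exact (A.valuation_eq_one_iff _).1 (hj' i hi')
  · intro i
    simp only [dif_pos i.2]

end Pool.Agent.Y724.Vj
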