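import Mathlib
import Pool.Agent.Y724.Vj.LB
import Pool.Agent.TH585.VF.Plu
import Pool.Agent.Y724.Vj.Det
import Pool.Agent.W552.Emb

/-!
# The height of the vector of minors, transfer of the normal crossings condition
-/

set_option autoImplicit false

namespace Pool.Agent.Y724.Vj

open MvPolynomial Pool.Agent.TH585.VF

lemma wv_none {s : ℕ} (b : Fin s → ℕ) (hb : ∀ v, (b v).Prime) (q : ℚ) :
    wv b hb none q = |(q : ℝ)| := by
  change Rat.AbsoluteValue.real q = _
  rw [Rat.AbsoluteValue.real_eq_abs]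
  push_cast
  rfl

lemma wv_some {s : ℕ} (b : Fin s → ℕ) (hb : ∀ v, (b v).Prime) (v : Fin s) (q : ℚ) :
    wv b hb (some v) q = ((padicNorm (b v) q : ℚ) : ℝ) := by
  have := Fact.mk (hb v)
  change Rat.AbsoluteValue.padic (b v) q = _
  rw [Rat.AbsoluteValue.padic_eq_padicNorm]

lemma wv_some_int {s : ℕ} (b : Fin s → ℕ) (hb : ∀ v, (b v).Prime) (v : Fin s) (z : ℤ)
    (hz : z ≠ 0) : wv b hb (some v) (z : ℚ) = ((b v : ℝ) ^ padicValInt (b v) z)⁻¹ := by
  have := Fact.mk (hb v)
  rw [wv_some, padicNorm.eq_zpow_of_nonzero (by exact_mod_cast hz), padicValRat.of_int]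
  push_cast
  rw [zpow_neg, zpow_natCast]

/-- the height of a vector of `S`-integral minors is at most the product of the local sizes over
the places in `S` -/
theorem ratio_S {ν n s : ℕ} (b : Fin s → ℕ) (hb : ∀ v, (b v).Prime)
    (hbi : Function.Injective b) (Tq : Matrix (Fin ν) (Fin n) ℚ) (B : Matrix (Fin ν) (Fin n) ℤ)
    (k : Fin s → ℕ) (hB : ∀ y c, (B y c : ℚ) = (∏ v, (b v : ℚ) ^ k v) * Tq y c)
    (J0 : Fin n → Fin ν) (hdet : (Tq.submatrix J0 id).det ≠ 0) (U : Option (Fin s) → ℝ)
    (hU : ∀ v (J : Fin n → Fin ν), wv b hb v (Tq.submatrix J id).det ≤ U v) :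
    0 < ratio (fun J : Fin n → Fin ν => (B.submatrix J id).det) ∧
      ratio (fun J : Fin n → Fin ν => (B.submatrix J id).det) ≤ ∏ v, U v := by
  classical
  set N : ℚ := ∏ v, (b v : ℚ) ^ k v with hN
  have hbq : ∀ v, (0 : ℚ) < b v := fun v => by exact_mod_cast (hb v).pos
  have hbr : ∀ v, (0 : ℝ) < b v := fun v => by exact_mod_cast (hb v).pos
  have hN0 : 0 < N := Finset.prod_pos fun v _ => pow_pos (hbq v) _
  have hdetB : ∀ J : Fin n → Fin ν, (((B.submatrix J id).det : ℤ) : ℚ) =
      N ^ n * (Tq.submatrix J id).det := by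
    intro J
    have h1 : (((B.submatrix J id).det : ℤ) : ℚ) =
        ((B.submatrix J id).map (Int.castRingHom ℚ)).det :=
      RingHom.map_det (Int.castRingHom ℚ) (B.submatrix J id)
    have h2 : (B.submatrix J id).map (Int.castRingHom ℚ) = N • (Tq.submatrix J id) := by
      ext i c
      exact hB (J i) c
    rw [h1, h2, Matrix.det_smul, Fintype.card_fin]
  have hB0 : (B.submatrix J0 id).det ≠ 0 := by
    intro h0
    have h1 := hdetB J0
    rw [h0, Int.cast_zero] at h1
    rcases mul_eq_zero.1 h1.symm with h2 | h2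
    · exact pow_ne_zero _ hN0.ne' h2
    · exact hdet h2
  have hmin : ∀ v, ∃ J : Fin n → Fin ν, (B.submatrix J id).det ≠ 0 ∧
      ∀ J' : Fin n → Fin ν, (B.submatrix J' id).det ≠ 0 →
        padicValInt (b v) (B.submatrix J id).det ≤ padicValInt (b v) (B.submatrix J' id).det := by
    intro v
    obtain ⟨J, hJ, hJ2⟩ := Finset.exists_min_image
      (Finset.univ.filter fun J : Fin n → Fin ν => (B.submatrix J id).det ≠ 0)
      (fun J => padicValInt (b v) (B.submatrix J id).det) ⟨J0, by simpa using hB0⟩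
    refine ⟨J, (Finset.mem_filter.1 hJ).2, fun J' hJ' => hJ2 J' ?_⟩
    exact Finset.mem_filter.2 ⟨Finset.mem_univ _, hJ'⟩
  choose Jv hJv1 hJv2 using hmin
  set κ : Fin s → ℕ := fun v => padicValInt (b v) (B.submatrix (Jv v) id).det with hκ
  have hdv : ∀ J : Fin n → Fin ν, ((∏ v, b v ^ κ v : ℕ) : ℤ) ∣ (B.submatrix J id).det := by
    intro J
    push_cast
    apply Finset.prod_dvd_of_coprime
    · intro v _ v' _ hvv'
      exact (Nat.isCoprime_iff_coprime.2 ((Nat.coprime_primes (hb v) (hb v')).2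
        fun h => hvv' (hbi h))).pow
    · intro v _
      by_cases h0 : (B.submatrix J id).det = 0
      · rw [h0]
        exact dvd_zero _
      · refine (pow_dvd_pow _ (hJv2 v J h0)).trans ?_
        exact padicValInt_dvd _
  have hnone : ∀ J : Fin n → Fin ν, |(((B.submatrix J id).det : ℤ) : ℝ)| ≤ (N : ℝ) ^ n * U none := by
    intro J
    have h1 := hU none J
    rw [wv_none] at h1
    have h2 : (((B.submatrix J id).det : ℤ) : ℝ) = (N : ℝ) ^ n * ((Tq.submatrix J id).det : ℝ) := by
      have := congrArg (fun q : ℚ => (q : ℝ)) (hdetB J)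
      simp only [Rat.cast_mul, Rat.cast_pow, Rat.cast_intCast] at this
      exact this
    rw [h2, abs_mul, abs_of_pos (pow_pos (by exact_mod_cast hN0) n)]
    exact mul_le_mul_of_nonneg_left h1 (pow_pos (by exact_mod_cast hN0) n).le
  have hNr : (0 : ℝ) < N := by exact_mod_cast hN0
  have : Nonempty (Fin n → Fin ν) := ⟨J0⟩
  have h1 := ratio_le (fun J : Fin n → Fin ν => (B.submatrix J id).det) ((N : ℝ) ^ n * U none)
    (∏ v, b v ^ κ v) (Finset.prod_pos fun v _ => pow_pos (hb v).pos _) ⟨J0, hB0⟩ hnone hdv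
  refine ⟨h1.1, h1.2.trans ?_⟩
  have h2 : ∀ v, ((b v : ℝ) ^ κ v)⁻¹ ≤ (((b v : ℝ) ^ k v)⁻¹) ^ n * U (some v) := by
    intro v
    have hprime := Fact.mk (hb v)
    have h3 := wv_some_int b hb v _ (hJv1 v)
    rw [hdetB, map_mul, map_pow] at h3
    rw [hκ]
    simp only
    rw [← h3]
    have h4 : wv b hb (some v) N = ((b v : ℝ) ^ k v)⁻¹ := by
      rw [hN, map_prod, Finset.prod_eq_single v]
      · rw [map_pow, wv_some, padicNorm.padicNorm_p (hb v).one_lt]
        push_cast
        rw [inv_pow]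
      · intro v' _ hv'
        rw [map_pow, wv_some]
        have h5 : padicNorm (b v) (b v' : ℚ) = 1 := by
          have h6 : ¬ (b v ∣ b v') := by
            intro h7
            exact hv' (hbi ((Nat.prime_dvd_prime_iff_eq (hb v) (hb v')).1 h7)).symm
          exact padicNorm.nat_eq_one_iff _ |>.2 h6
        rw [h5]
        simp
      · intro h
        exact absurd (Finset.mem_univ _) h
    rw [h4]
    refine mul_le_mul_of_nonneg_left (hU _ _) ?_
    have := hbr v
    positivity
  have h3 : 0 ≤ U none := (AbsoluteValue.nonneg _ _).trans (hU none J0)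
  have h4 : (∏ v, ((b v : ℝ) ^ κ v)⁻¹) ≤ ∏ v, ((((b v : ℝ) ^ k v)⁻¹) ^ n * U (some v)) :=
    Finset.prod_le_prod (fun v _ => inv_nonneg.2 (pow_pos (hbr v) _).le) fun v _ => h2 v
  rw [Finset.prod_mul_distrib, Finset.prod_pow, Finset.prod_inv_distrib,
    Finset.prod_inv_distrib] at h4
  have h5 : (N : ℝ) = ∏ v, (b v : ℝ) ^ k v := by
    rw [hN]
    push_cast
    rfl
  rw [← h5] at h4
  rw [Fintype.prod_option, div_eq_mul_inv]
  have h6 : (((∏ v, b v ^ κ v : ℕ) : ℝ))⁻¹ = (∏ v, (b v : ℝ) ^ κ v)⁻¹ := by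
    push_cast
    rfl
  rw [h6]
  calc (N : ℝ) ^ n * U none * (∏ v, (b v : ℝ) ^ κ v)⁻¹
      ≤ (N : ℝ) ^ n * U none * ((((N : ℝ))⁻¹) ^ n * ∏ v, U (some v)) := by
        refine mul_le_mul_of_nonneg_left h4 ?_
        positivity
    _ = ((N : ℝ) * (N : ℝ)⁻¹) ^ n * (U none * ∏ v, U (some v)) := by
        rw [mul_pow]
        ring
    _ = U none * ∏ v, U (some v) := by rw [mul_inv_cancel₀ hNr.ne', one_pow, one_mul]

/-! ### transfer of the normal crossings condition -/

lemma li_up {k K : Type} [Field k] [Field K] (φ : k →+* K) {κ : Type} {ν : ℕ}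
    (M : κ → Fin ν → k) (h : LinearIndependent k M) :
    LinearIndependent K (fun i y => φ (M i y)) := by
  classical
  obtain ⟨e, B, he, hBe, hB⟩ := extend_rows M h
  have h1 : IsUnit (Matrix.of B).det := by
    have h2 : LinearIndependent k (Matrix.of B).row := hB
    exact (Matrix.linearIndependent_rows_iff_isUnit.1 h2).map Matrix.detMonoidHom
  have h2 : LinearIndependent K ((Matrix.of B).map φ).row := by
    rw [Matrix.linearIndependent_rows_iff_isUnit, Matrix.isUnit_iff_isUnit_det]
    have h3 : ((Matrix.of B).map φ).det = φ (Matrix.of B).det := (RingHom.map_det φ _).symm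
    rw [h3]
    exact h1.map φ
  have h3 : (fun i y => φ (M i y)) = fun i => ((Matrix.of B).map φ).row (e i) := by
    funext i y
    rw [← hBe]
    rfl
  rw [h3]
  exact h2.comp e he

lemma li_down {k K : Type} [Field k] [Field K] (φ : k →+* K) {κ : Type} {ν : ℕ}
    (M : κ → Fin ν → k) (h : LinearIndependent K (fun i y => φ (M i y))) :
    LinearIndependent k M := by
  rw [linearIndependent_iff'] at h ⊢
  intro S c hc i hi
  have h1 := h S (fun i => φ (c i)) (by
    funext y
    have h2 := congrArg φ (congrFun hc y)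
    rw [Finset.sum_apply, map_sum, Pi.zero_apply, map_zero] at h2
    rw [Finset.sum_apply, Pi.zero_apply, ← h2]
    refine Finset.sum_congr rfl fun i _ => ?_
    simp) i hi
  exact (map_eq_zero φ).1 h1

lemma NCf.of_hom {k K : Type} [Field k] [Field K] (φ : k →+* K) {ν g q w : ℕ} {s : ℕ}
    {Gp : Fin g → MvPolynomial (Fin ν) ℤ} {F : Fin q → Fin w → MvPolynomial (Fin ν) ℤ}
    (h : NCf K s Gp F) : NCf k s Gp F := by
  classical
  intro z hz hG
  have hev : ∀ P : MvPolynomial (Fin ν) ℤ, evi (fun y => φ (z y)) P = φ (evi z P) :=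
    fun P => (map_evi φ z P).symm
  obtain ⟨K', J, hli⟩ := h (fun y => φ (z y)) (by
    intro h0
    apply hz
    funext y
    exact (map_eq_zero φ).1 (congrFun h0 y)) (by
    intro a
    rw [hev, hG, map_zero])
  refine ⟨K', J, ?_⟩
  apply li_down φ
  let f : Fin s ⊕ {i : Fin q // ∀ j, evi z (F i j) = 0} →
      Fin s ⊕ {i : Fin q // ∀ j, evi (fun y => φ (z y)) (F i j) = 0} :=
    Sum.map id (fun i => ⟨i.1, fun j => by rw [hev, i.2 j, map_zero]⟩)
  have hf : Function.Injective f := by
    apply Function.Injective.sumMap Function.injective_id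
    intro i i' hii
    have hi2 := congrArg Subtype.val hii
    exact Subtype.ext hi2
  have h1 := hli.comp f hf
  have h2 : (fun (x : Fin s ⊕ {i : Fin q // ∀ j, evi z (F i j) = 0}) (y : Fin ν) =>
      φ (Sum.elim (fun (a : Fin s) (y : Fin ν) => evi z (pderiv y (Gp (K' a))))
        (fun (i : {i : Fin q // ∀ j, evi z (F i j) = 0}) (y : Fin ν) =>
          evi z (pderiv y (F i.1 (J i.1)))) x y)) =
      (Sum.elim (fun (a : Fin s) (y : Fin ν) => evi (fun y => φ (z y)) (pderiv y (Gp (K' a))))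
        (fun (i : {i : Fin q // ∀ j, evi (fun y => φ (z y)) (F i j) = 0}) (y : Fin ν) =>
          evi (fun y => φ (z y)) (pderiv y (F i.1 (J i.1))))) ∘ f := by
    funext x y
    rcases x with a | i
    · exact (hev _).symm
    · exact (hev _).symm
  rw [h2]
  exact h1

/-- a condition over the complex numbers holds over all fields of characteristic zero -/
theorem NCf.transfer {K : Type} [Field K] [CharZero K] {ν g q w : ℕ} {s : ℕ}
    {Gp : Fin g → MvPolynomial (Fin ν) ℤ} {F : Fin q → Fin w → MvPolynomial (Fin ν) ℤ}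
    (h : NCf ℂ s Gp F) : NCf K s Gp F := by
  classical
  intro z hz hG
  obtain ⟨k, φ, hk⟩ := Pool.Agent.W552.exists_subfield_hom (Set.range z) (Set.countable_range z)
  have h1 : NCf k s Gp F := NCf.of_hom φ h
  let z' : Fin ν → k := fun y => ⟨z y, hk ⟨y, rfl⟩⟩
  have hev : ∀ P : MvPolynomial (Fin ν) ℤ, ((evi z' P : k) : K) = evi z P :=
    fun P => map_evi k.subtype z' P
  obtain ⟨K', J, hli⟩ := h1 z' (by
    intro h0
    apply hz
    funext y
    exact congrArg Subtype.val (congrFun h0 y)) (by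
    intro a
    apply Subtype.ext
    rw [hev, hG]
    rfl)
  refine ⟨K', J, ?_⟩
  have h2 := li_up k.subtype _ hli
  let f : Fin s ⊕ {i : Fin q // ∀ j, evi z (F i j) = 0} →
      Fin s ⊕ {i : Fin q // ∀ j, evi z' (F i j) = 0} :=
    Sum.map id (fun i => ⟨i.1, fun j => by
      apply Subtype.ext
      rw [hev, i.2 j]
      rfl⟩)
  have hf : Function.Injective f := by
    apply Function.Injective.sumMap Function.injective_id
    intro i i' hii
    have hi2 := congrArg Subtype.val hii
    exact Subtype.ext hi2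
  have h3 := h2.comp f hf
  have h4 : (Sum.elim (fun (a : Fin s) (y : Fin ν) => evi z (pderiv y (Gp (K' a))))
        (fun (i : {i : Fin q // ∀ j, evi z (F i j) = 0}) (y : Fin ν) =>
          evi z (pderiv y (F i.1 (J i.1))))) =
      (fun (x : Fin s ⊕ {i : Fin q // ∀ j, evi z' (F i j) = 0}) (y : Fin ν) =>
      k.subtype (Sum.elim (fun (a : Fin s) (y : Fin ν) => evi z' (pderiv y (Gp (K' a))))
        (fun (i : {i : Fin q // ∀ j, evi z' (F i j) = 0}) (y : Fin ν) =>
          evi z' (pderiv y (F i.1 (J i.1)))) x y)) ∘ f := by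
    funext x y
    rcases x with a | i
    · exact (hev _).symm
    · exact (hev _).symm
  rw [h4]
  exact h3

end Pool.Agent.Y724.Vj
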