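import Mathlib
import Pool.Agent.Y724.Vj.Ratio
import Pool.Agent.TH585.VF.FinX

/-!
# From the inequalities at the places to the inequality of heights, at one point
-/

set_option autoImplicit false

namespace Pool.Agent.Y724.Vj

open MvPolynomial Pool.Agent.TH585.VF

lemma evi_int {ν : ℕ} (x : Fin ν → ℤ) (P : MvPolynomial (Fin ν) ℤ) : evi x P = eval x P := by
  unfold evi
  rw [eval, coe_eval₂Hom]
  congr 1

lemma evi_cast {k : Type} [CommRing k] {ν : ℕ} (x : Fin ν → ℤ) (P : MvPolynomial (Fin ν) ℤ) :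
    evi (fun y => ((x y : ℤ) : k)) P = ((eval x P : ℤ) : k) := by
  rw [← evi_int]
  exact (map_evi (Int.castRingHom k) x P).symm

variable {s sc g q w ν n : ℕ}

/-- the size of a primitive vector at the real place -/
lemma prim_none (b : Fin s → ℕ) (hb : ∀ v, (b v).Prime) (x : Fin ν → ℤ) (y0 : Fin ν)
    (hy0 : ∀ y, wv b hb none (x y : ℚ) ≤ wv b hb none (x y0 : ℚ)) :
    wv b hb none (x y0 : ℚ) = ((Finset.univ.sup (fun i => (x i).natAbs) : ℕ) : ℝ) := by
  classical
  have hab : ∀ y, wv b hb none (x y : ℚ) = ((x y).natAbs : ℝ) := by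
    intro y
    rw [wv_none, Nat.cast_natAbs, Int.cast_abs, Rat.cast_intCast]
  rw [hab]
  apply le_antisymm
  · exact_mod_cast Finset.le_sup (f := fun i => (x i).natAbs) (Finset.mem_univ y0)
  · have h1 : Finset.univ.sup (fun i => (x i).natAbs) ≤ (x y0).natAbs := by
      refine Finset.sup_le fun y _ => ?_
      have h2 := hy0 y
      rw [hab, hab] at h2
      exact_mod_cast h2
    exact_mod_cast h1

/-- the size of a primitive vector at a prime -/
lemma prim_some (b : Fin s → ℕ) (hb : ∀ v, (b v).Prime) (x : Fin ν → ℤ)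
    (hprim : Finset.univ.gcd x = 1) (v : Fin s) (y0 : Fin ν)
    (hy0 : ∀ y, wv b hb (some v) (x y : ℚ) ≤ wv b hb (some v) (x y0 : ℚ)) :
    wv b hb (some v) (x y0 : ℚ) = 1 := by
  classical
  have hp := Fact.mk (hb v)
  apply le_antisymm
  · rw [wv_some]
    exact_mod_cast padicNorm.of_int (x y0)
  · obtain ⟨y, hy⟩ : ∃ y, ¬ ((b v : ℤ) ∣ x y) := by
      by_contra hcon
      push Not at hcon
      have h1 : (b v : ℤ) ∣ Finset.univ.gcd x := Finset.dvd_gcd fun y _ => hcon y
      rw [hprim] at h1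
      have h2 := Int.le_of_dvd one_pos h1
      have h3 := (hb v).two_le
      have h4 : (2 : ℤ) ≤ b v := by exact_mod_cast h3
      linarith
    refine le_trans (le_of_eq ?_) (hy0 y)
    rw [wv_some, (padicNorm.int_eq_one_iff _).2 hy]
    simp

/-- **The inequality of heights from the inequalities at the places.** -/
theorem at_point (b : Fin s → ℕ) (hb : ∀ v, (b v).Prime) (hbi : Function.Injective b)
    (hν : ν = n + sc) (Gp : Fin g → MvPolynomial (Fin ν) ℤ)
    (F : Fin q → Fin w → MvPolynomial (Fin ν) ℤ) (d : Fin q → Fin w → ℕ)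
    (hnc : NCf ℚ sc Gp F) (x : Fin ν → ℤ) (hprim : Finset.univ.gcd x = 1)
    (hGx : ∀ a, eval x (Gp a) = 0) (Tq : Matrix (Fin ν) (Fin n) ℚ)
    (hTq : ∀ a c, ∑ y, ((eval x (pderiv y (Gp a)) : ℤ) : ℚ) * Tq y c = 0) (k : Fin s → ℕ)
    (hint : ∀ y c, ∃ z : ℤ, (z : ℚ) = (∏ v, (b v : ℚ) ^ k v) * Tq y c) (J0 : Fin n → Fin ν)
    (hdet : (Tq.submatrix J0 id).det ≠ 0) (y0 : Option (Fin s) → Fin ν)
    (hy0 : ∀ v y, wv b hb v (x y : ℚ) ≤ wv b hb v (x (y0 v) : ℚ))
    (jj : Option (Fin s) → Fin q → Fin w) (hF : ∀ v i, eval x (F i (jj v i)) ≠ 0) (δ : ℝ)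
    (hineq : ∀ v (J : Fin n → Fin ν), wv b hb v ((Tq.submatrix J id).det *
      ∏ i, (x (y0 v) : ℚ) ^ (d i (jj v i))) ≤ wv b hb v ((x (y0 v) : ℚ) ^ n *
        ∏ i, ((eval x (F i (jj v i)) : ℤ) : ℚ)) * Real.exp δ)
    (AA : Matrix (Fin ν) (Fin n) ℤ)
    (hAA : ∀ y : Fin n → ℚ, (∀ j, ∑ c, (AA j c : ℚ) * y c = 0) → y = 0)
    (hGA : ∀ a c, ∑ j, eval x (pderiv j (Gp a)) * AA j c = 0) :
    ∑ i, (locInf (F i) (d i) (Finset.univ.sup (fun i => (x i).natAbs)) x +
        ∑ v, locP (F i) (b v) x) +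
      Real.log (ratio (fun J : Fin n → Fin ν => (AA.submatrix J id).det)) ≤
      n * Real.log ((Finset.univ.sup (fun i => (x i).natAbs) : ℕ) : ℝ) + (s + 1) * δ := by
  classical
  set H : ℕ := Finset.univ.sup (fun i => (x i).natAbs) with hH
  have hx0 : x ≠ 0 := by
    intro h0
    rw [h0] at hprim
    have : Finset.univ.gcd (0 : Fin ν → ℤ) = 0 := by
      rw [Finset.gcd_eq_zero_iff]
      exact fun _ _ => rfl
    rw [this] at hprim
    exact zero_ne_one hprim
  have hH0 : 0 < H := by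
    by_contra hcon
    apply hx0
    funext y
    have h1 := Finset.le_sup (f := fun i => (x i).natAbs) (Finset.mem_univ y)
    have h2 : (x y).natAbs = 0 := by
      change (x y).natAbs ≤ H at h1
      omega
    exact Int.natAbs_eq_zero.1 h2
  have hsz : ∀ v, 0 < wv b hb v (x (y0 v) : ℚ) := by
    intro v
    cases v with
    | none =>
      rw [prim_none b hb x (y0 none) (hy0 none)]
      exact_mod_cast hH0
    | some v =>
      rw [prim_some b hb x hprim v (y0 (some v)) (hy0 (some v))]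
      exact one_pos
  have hFw : ∀ v i, 0 < wv b hb v ((eval x (F i (jj v i)) : ℤ) : ℚ) := fun v i =>
    (wv b hb v).pos (by exact_mod_cast hF v i)
  -- the matrix of integers
  choose B hB using hint
  set U : Option (Fin s) → ℝ := fun v => wv b hb v (x (y0 v) : ℚ) ^ n *
    (∏ i, (wv b hb v ((eval x (F i (jj v i)) : ℤ) : ℚ) /
      wv b hb v (x (y0 v) : ℚ) ^ (d i (jj v i)))) * Real.exp δ with hU
  have hU' : ∀ v (J : Fin n → Fin ν), wv b hb v (Tq.submatrix J id).det ≤ U v := by
    intro v J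
    have h1 := hineq v J
    rw [map_mul, map_mul, map_prod, map_prod, map_pow] at h1
    simp only [map_pow] at h1
    have h2 : 0 < ∏ i, wv b hb v (x (y0 v) : ℚ) ^ (d i (jj v i)) :=
      Finset.prod_pos fun i _ => pow_pos (hsz v) _
    rw [hU]
    simp only
    rw [Finset.prod_div_distrib]
    rw [← le_div_iff₀ h2] at h1
    refine h1.trans (le_of_eq ?_)
    ring
  have hUpos : ∀ v, 0 < U v := by
    intro v
    have h1 := hsz v
    have h2 : 0 < ∏ i, (wv b hb v ((eval x (F i (jj v i)) : ℤ) : ℚ) /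
      wv b hb v (x (y0 v) : ℚ) ^ (d i (jj v i))) :=
      Finset.prod_pos fun i _ => div_pos (hFw v i) (pow_pos h1 _)
    rw [hU]
    positivity
  obtain ⟨hr0, hr1⟩ := ratio_S b hb hbi Tq (Matrix.of B) k hB J0 hdet U hU'
  -- the columns span the same space
  obtain ⟨K, jK, hind⟩ := hnc (fun y => (x y : ℚ)) (by
    intro h0
    apply hx0
    funext y
    have := congrFun h0 y
    simp only [Pi.zero_apply] at this
    exact_mod_cast this) (by
    intro a
    rw [evi_cast, hGx, Int.cast_zero])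
  have hrows : LinearIndependent ℚ
      (Matrix.of fun (a : Fin sc) (j : Fin ν) => ((eval x (pderiv j (Gp (K a))) : ℤ) : ℚ)).row := by
    have h1 := hind.comp Sum.inl Sum.inl_injective
    have h2 : (Matrix.of fun (a : Fin sc) (j : Fin ν) =>
        ((eval x (pderiv j (Gp (K a))) : ℤ) : ℚ)).row =
        (Sum.elim (fun a : Fin sc => fun y : Fin ν => evi (fun y => (x y : ℚ))
          (pderiv y (Gp (K a))))
        (fun i : {i : Fin q // ∀ j, evi (fun y => (x y : ℚ)) (F i j) = 0} => fun y : Fin ν =>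
          evi (fun y => (x y : ℚ)) (pderiv y (F i.1 (jK i.1))))) ∘ Sum.inl := by
      funext a y
      simp only [Function.comp_apply, Sum.elim_inl]
      rw [evi_cast]
      rfl
    rw [h2]
    exact h1
  obtain ⟨α, β, hα, hβ, hpl⟩ := plucker hν _ hrows AA (Matrix.of B) hAA (by
    intro y hy
    have hN0 : (∏ v, (b v : ℚ) ^ k v) ≠ 0 := Finset.prod_ne_zero_iff.2 fun v _ =>
      pow_ne_zero _ (by exact_mod_cast (hb v).ne_zero)
    apply Matrix.eq_zero_of_mulVec_eq_zero hdet
    funext i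
    have h1 := hy (J0 i)
    simp only [Matrix.of_apply, hB] at h1
    have h2 : (∏ v, (b v : ℚ) ^ k v) * ∑ c, Tq (J0 i) c * y c = 0 := by
      rw [← h1, Finset.mul_sum]
      exact Finset.sum_congr rfl fun c _ => by ring
    exact (mul_eq_zero.1 h2).resolve_left hN0) (by
    intro a c
    have h1 := hGA (K a) c
    simp only [Matrix.of_apply]
    exact_mod_cast h1) (by
    intro a c
    simp only [Matrix.of_apply, hB]
    have h1 := hTq (K a) c
    calc ∑ y, ((eval x (pderiv y (Gp (K a))) : ℤ) : ℚ) * ((∏ v, (b v : ℚ) ^ k v) * Tq y c)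
        = (∏ v, (b v : ℚ) ^ k v) * ∑ y, ((eval x (pderiv y (Gp (K a))) : ℤ) : ℚ) * Tq y c := by
          rw [Finset.mul_sum]
          exact Finset.sum_congr rfl fun y _ => by ring
      _ = 0 := by rw [h1, mul_zero])
  have hnef : Nonempty (Fin n → Fin ν) := ⟨J0⟩
  have hreq := ratio_eq (fun J : Fin n → Fin ν => (AA.submatrix J id).det)
    (fun J => ((Matrix.of B).submatrix J id).det) α β hα hβ hpl
  rw [hreq]
  have hlog : Real.log (ratio (fun J : Fin n → Fin ν => ((Matrix.of B).submatrix J id).det)) ≤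
      ∑ v, Real.log (U v) := by
    rw [← Real.log_prod fun v _ => (hUpos v).ne']
    exact Real.log_le_log hr0 hr1
  have hlogU : ∀ v, Real.log (U v) = n * Real.log (wv b hb v (x (y0 v) : ℚ)) +
      ∑ i, (Real.log (wv b hb v ((eval x (F i (jj v i)) : ℤ) : ℚ)) -
        d i (jj v i) * Real.log (wv b hb v (x (y0 v) : ℚ))) + δ := by
    intro v
    have h1 := hsz v
    have h2 : 0 < ∏ i, (wv b hb v ((eval x (F i (jj v i)) : ℤ) : ℚ) /
      wv b hb v (x (y0 v) : ℚ) ^ (d i (jj v i))) :=
      Finset.prod_pos fun i _ => div_pos (hFw v i) (pow_pos h1 _)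
    rw [hU]
    simp only
    rw [Real.log_mul (by positivity) (Real.exp_pos _).ne', Real.log_exp,
      Real.log_mul (by positivity) h2.ne', Real.log_pow,
      Real.log_prod fun i _ => (div_pos (hFw v i) (pow_pos h1 _)).ne']
    congr 2
    refine Finset.sum_congr rfl fun i _ => ?_
    rw [Real.log_div (hFw v i).ne' (pow_pos h1 _).ne', Real.log_pow]
  have hUnone : Real.log (U none) ≤ n * Real.log H - ∑ i, locInf (F i) (d i) H x + δ := by
    rw [hlogU, prim_none b hb x (y0 none) (hy0 none)]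
    have h1 : ∑ i, (Real.log (wv b hb none ((eval x (F i (jj none i)) : ℤ) : ℚ)) -
        d i (jj none i) * Real.log H) ≤ ∑ i, -locInf (F i) (d i) H x := by
      refine Finset.sum_le_sum fun i _ => ?_
      have h2 := locInf_le (F i) (d i) H x hH0 (jj none i) (hF none i)
      rw [wv_none]
      have h3 : (((eval x (F i (jj none i)) : ℤ) : ℚ) : ℝ) =
        ((eval x (F i (jj none i)) : ℤ) : ℝ) := by push_cast; rfl
      rw [h3]
      linarith
    rw [Finset.sum_neg_distrib] at h1
    linarith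
  have hUsome : ∀ v, Real.log (U (some v)) ≤ - ∑ i, locP (F i) (b v) x + δ := by
    intro v
    rw [hlogU, prim_some b hb x hprim v (y0 (some v)) (hy0 (some v))]
    simp only [Real.log_one, mul_zero, sub_zero, zero_add]
    have h1 : ∑ i, Real.log (wv b hb (some v) ((eval x (F i (jj (some v) i)) : ℤ) : ℚ)) ≤
        ∑ i, -locP (F i) (b v) x := by
      refine Finset.sum_le_sum fun i _ => ?_
      have h2 := locP_le (F i) (b v) (hb v) x (jj (some v) i) (hF (some v) i)
      rw [wv_some_int b hb v _ (hF (some v) i), Real.log_inv, Real.log_pow]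
      linarith
    rw [Finset.sum_neg_distrib] at h1
    linarith
  rw [Fintype.sum_option] at hlog
  have h1 : ∑ v, Real.log (U (some v)) ≤ ∑ v, (- ∑ i, locP (F i) (b v) x + δ) :=
    Finset.sum_le_sum fun v _ => hUsome v
  rw [Finset.sum_add_distrib, Finset.sum_neg_distrib, Finset.sum_const, Finset.card_univ,
    Fintype.card_fin, nsmul_eq_mul, Finset.sum_comm] at h1
  rw [Finset.sum_add_distrib]
  linarith

end Pool.Agent.Y724.Vj
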