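import Mathlib

/-!
# Tangent vectors with the same terms as the point
-/

set_option autoImplicit false

namespace Pool.Agent.Y724.Vj

open MvPolynomial

section Tan

variable {G : Type} [Field G] [CharZero G] [Algebra ℚ G] {r ν : ℕ}

/-- `F (∑ Y_j W_j)` -/
noncomputable def PG {A : Type} [Field A] [Algebra ℚ A] (W : Fin r → Fin ν → A)
    (F : MvPolynomial (Fin ν) ℚ) : MvPolynomial (Fin r) A :=
  eval₂ (C.comp (algebraMap ℚ A)) (fun i => ∑ j, C (W j i) * X j) F

/-- the derivative of `F` at `∑ Y_j W_j` in the direction `∑ Y_j W'_j` -/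
noncomputable def DG {A : Type} [Field A] [Algebra ℚ A] (W W' : Fin r → Fin ν → A)
    (F : MvPolynomial (Fin ν) ℚ) : MvPolynomial (Fin r) A :=
  ∑ i, PG W (pderiv i F) * ∑ j, C (W' j i) * X j

section
variable {A : Type} [Field A] [Algebra ℚ A] (W W' : Fin r → Fin ν → A)

lemma PG_C (a : ℚ) : PG W (C a) = C (algebraMap ℚ A a) := by
  unfold PG
  rw [eval₂_C]
  rfl

lemma PG_add (F F' : MvPolynomial (Fin ν) ℚ) : PG W (F + F') = PG W F + PG W F' := by
  unfold PG
  rw [eval₂_add]

lemma PG_mul (F F' : MvPolynomial (Fin ν) ℚ) : PG W (F * F') = PG W F * PG W F' := by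
  unfold PG
  rw [eval₂_mul]

lemma PG_X (i : Fin ν) : PG W (X i) = ∑ j, C (W j i) * X j := by
  unfold PG
  rw [eval₂_X]

lemma PG_zero : PG W 0 = 0 := by
  unfold PG
  rw [eval₂_zero]

lemma DG_add (F F' : MvPolynomial (Fin ν) ℚ) : DG W W' (F + F') = DG W W' F + DG W W' F' := by
  unfold DG
  rw [← Finset.sum_add_distrib]
  refine Finset.sum_congr rfl fun i _ => ?_
  rw [map_add, PG_add, add_mul]

lemma DG_C (a : ℚ) : DG W W' (C a) = 0 := by
  unfold DG
  refine Finset.sum_eq_zero fun i _ => ?_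
  rw [pderiv_C, PG_zero, zero_mul]

lemma DG_mul_X (F : MvPolynomial (Fin ν) ℚ) (i : Fin ν) :
    DG W W' (F * X i) = DG W W' F * (∑ j, C (W j i) * X j) + PG W F * ∑ j, C (W' j i) * X j := by
  classical
  unfold DG
  have h1 : ∀ k, PG W (pderiv k (F * X i)) * ∑ j, C (W' j k) * X j =
      (PG W (pderiv k F) * ∑ j, C (W' j k) * X j) * (∑ j, C (W j i) * X j) +
        (if k = i then PG W F * ∑ j, C (W' j k) * X j else 0) := by
    intro k
    rw [pderiv_mul, PG_add, PG_mul, PG_mul, PG_X, pderiv_X]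
    by_cases hk : k = i
    · rw [if_pos hk, hk, Pi.single_eq_same]
      have : PG W (1 : MvPolynomial (Fin ν) ℚ) = 1 := by
        rw [← C_1, PG_C, map_one, C_1]
      rw [this]
      ring
    · rw [if_neg hk, Pi.single_eq_of_ne (Ne.symm hk), PG_zero]
      ring
  rw [Finset.sum_congr rfl fun k _ => h1 k, Finset.sum_add_distrib, ← Finset.sum_mul,
    Finset.sum_ite_eq' Finset.univ i]
  simp

end

/-- the coefficients of `Q'` are the derivatives of the coefficients of `Q` -/
def IsE (E : Derivation ℚ G G) (Q Q' : MvPolynomial (Fin r) G) : Prop :=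
  ∀ α, coeff α Q' = E (coeff α Q)

lemma IsE.add {E : Derivation ℚ G G} {Q Q' R R' : MvPolynomial (Fin r) G} (h : IsE E Q Q')
    (h' : IsE E R R') : IsE E (Q + R) (Q' + R') := by
  intro α
  rw [coeff_add, coeff_add, map_add, h, h']

lemma IsE.mul {E : Derivation ℚ G G} {Q Q' R R' : MvPolynomial (Fin r) G} (h : IsE E Q Q')
    (h' : IsE E R R') : IsE E (Q * R) (Q' * R + Q * R') := by
  intro α
  rw [coeff_add, coeff_mul, coeff_mul, coeff_mul, map_sum, ← Finset.sum_add_distrib]
  refine Finset.sum_congr rfl fun x _ => ?_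
  rw [h, h', Derivation.leibniz, smul_eq_mul, smul_eq_mul]
  ring

lemma IsE.lin (E : Derivation ℚ G G) (w : Fin r → G) :
    IsE E (∑ j, C (w j) * X j) (∑ j, C (E (w j)) * X j) := by
  classical
  intro α
  rw [coeff_sum, coeff_sum, map_sum]
  refine Finset.sum_congr rfl fun j _ => ?_
  rw [coeff_C_mul, coeff_C_mul, coeff_X']
  split_ifs
  · rw [mul_one, mul_one]
  · rw [mul_zero, mul_zero, map_zero]

/-- a derivation acts on the coefficients of `F (∑ Y_j W_j)` as the derivative of `F` in the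
direction of the derivatives of `W` -/
lemma isE_PG (E : Derivation ℚ G G) (W : Fin r → Fin ν → G) (F : MvPolynomial (Fin ν) ℚ) :
    IsE E (PG W F) (DG W (fun j i => E (W j i)) F) := by
  classical
  induction F using MvPolynomial.induction_on with
  | C a =>
    intro α
    rw [PG_C, DG_C, coeff_C, coeff_zero]
    split_ifs
    · rw [Derivation.map_algebraMap]
    · rw [map_zero]
  | add p q hp hq =>
    rw [PG_add, DG_add]
    exact hp.add hq
  | mul_X p i hp =>
    rw [PG_mul, PG_X, DG_mul_X]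
    exact hp.mul (IsE.lin E _)

/-! ### the subfield -/

variable (K : Subfield G) (u : Fin r → G)

/-- the monomials in the `u j` -/
noncomputable def mo (u : Fin r → G) (α : Fin r →₀ ℕ) : G := ∏ j, u j ^ (α j)

/-- rescaling of the variables -/
noncomputable def phi : MvPolynomial (Fin r) K →+* MvPolynomial (Fin r) G :=
  eval₂Hom (C.comp K.subtype) (fun j => C (u j) * X j)

lemma phi_C (a : K) : phi K u (C a) = C (a : G) := by
  unfold phi
  rw [coe_eval₂Hom, eval₂_C]
  rfl

lemma phi_X (j : Fin r) : phi K u (X j) = C (u j) * X j := by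
  unfold phi
  rw [coe_eval₂Hom, eval₂_X]

lemma coeff_phi (Q : MvPolynomial (Fin r) K) (α : Fin r →₀ ℕ) :
    coeff α (phi K u Q) = mo u α * ((coeff α Q : K) : G) := by
  classical
  induction Q using MvPolynomial.induction_on' with
  | monomial β a =>
    have h1 : phi K u (monomial β a) = C (mo u β) * monomial β (a : G) := by
      unfold phi mo
      rw [coe_eval₂Hom, eval₂_monomial, monomial_eq (s := β) (a := (a : G)), Finsupp.prod_fintype _ _ (by simp),
        Finsupp.prod_fintype _ _ (by simp)]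
      simp only [mul_pow, Finset.prod_mul_distrib, map_prod, map_pow]
      change C (a : G) * _ = _
      ring
    rw [h1, coeff_C_mul, coeff_monomial, coeff_monomial]
    split_ifs with h
    · rw [h]
    · simp
  | add p q hp hq =>
    rw [map_add, coeff_add, hp, hq, coeff_add]
    push_cast
    ring

variable (V : Fin r → Fin ν → K)

lemma phi_lin (w : Fin r → K) : phi K u (∑ j, C (w j) * X j) = ∑ j, C (u j * (w j : G)) * X j := by
  rw [map_sum]
  refine Finset.sum_congr rfl fun j _ => ?_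
  rw [map_mul, phi_C, phi_X, ← mul_assoc, ← C_mul, mul_comm (u j)]

lemma phi_PG (F : MvPolynomial (Fin ν) ℚ) :
    phi K u (PG V F) = PG (fun j i => u j * (V j i : G)) F := by
  induction F using MvPolynomial.induction_on with
  | C a =>
    rw [PG_C, PG_C, phi_C]
    congr 1
    have : (K.subtype.comp (algebraMap ℚ K)) = algebraMap ℚ G := Subsingleton.elim _ _
    exact RingHom.congr_fun this a
  | add p q hp hq => rw [PG_add, PG_add, map_add, hp, hq]
  | mul_X p i hp => rw [PG_mul, PG_mul, map_mul, hp, PG_X, PG_X, phi_lin]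

lemma phi_DG (τ : Fin r → Fin ν → K) (F : MvPolynomial (Fin ν) ℚ) :
    phi K u (DG V τ F) = DG (fun j i => u j * (V j i : G)) (fun j i => u j * (τ j i : G)) F := by
  unfold DG
  rw [map_sum]
  refine Finset.sum_congr rfl fun i _ => ?_
  rw [map_mul, phi_PG, phi_lin]

/-- the exponents which occur -/
noncomputable def TT (F : MvPolynomial (Fin ν) ℚ) : Finset (Fin r →₀ ℕ) :=
  (PG V F).support ∪ Finset.univ.biUnion fun x : Fin r × Fin ν =>
    (PG V (pderiv x.2 F) * X x.1).support

omit [Algebra ℚ G] in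
lemma coeff_DG_eq (τ : Fin r → Fin ν → K) (F : MvPolynomial (Fin ν) ℚ) (α : Fin r →₀ ℕ) :
    coeff α (DG V τ F) = ∑ x : Fin r × Fin ν, τ x.1 x.2 * coeff α (PG V (pderiv x.2 F) * X x.1) := by
  unfold DG
  rw [coeff_sum, Fintype.sum_prod_type, Finset.sum_comm]
  refine Finset.sum_congr rfl fun i _ => ?_
  rw [Finset.mul_sum, coeff_sum]
  refine Finset.sum_congr rfl fun j _ => ?_
  rw [← coeff_C_mul]
  congr 1
  ring

omit [Algebra ℚ G] in
lemma PG_support (F : MvPolynomial (Fin ν) ℚ) (α : Fin r →₀ ℕ) (h : α ∉ TT K V F) :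
    coeff α (PG V F) = 0 := by
  by_contra hne
  apply h
  unfold TT
  rw [Finset.mem_union]
  exact Or.inl (mem_support_iff.2 hne)

omit [Algebra ℚ G] in
lemma DG_support (τ : Fin r → Fin ν → K) (F : MvPolynomial (Fin ν) ℚ) (α : Fin r →₀ ℕ)
    (h : α ∉ TT K V F) : coeff α (DG V τ F) = 0 := by
  rw [coeff_DG_eq]
  refine Finset.sum_eq_zero fun x _ => ?_
  by_cases h1 : coeff α (PG V (pderiv x.2 F) * X x.1) = 0
  · rw [h1, mul_zero]
  · exfalso
    apply h
    unfold TT
    rw [Finset.mem_union, Finset.mem_biUnion]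
    exact Or.inr ⟨x, Finset.mem_univ _, mem_support_iff.2 h1⟩

open Classical in
/-- the sum of the terms of `Q` in the class of `α0` -/
noncomputable def cs (F : MvPolynomial (Fin ν) ℚ) (Q : MvPolynomial (Fin r) K)
    (α0 : Fin r →₀ ℕ) : G :=
  ∑ α : TT K V F with mo u α.1 / mo u α0 ∈ K, ((coeff α.1 Q : K) : G) * mo u α.1

/-- good tangent data -/
def Good (τ : Fin r → Fin ν → K) : Prop :=
  ∀ (F : MvPolynomial (Fin ν) ℚ) (e : ℕ) (_ : F.IsHomogeneous e) (α0 : TT K V F),
    cs K u V F (PG V F) α0 = 0 → cs K u V F (DG V τ F) α0 = 0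

/-- good tangent data with values in the big field -/
def GoodG (τ : Fin r → Fin ν → G) : Prop :=
  ∀ (F : MvPolynomial (Fin ν) ℚ) (e : ℕ) (_ : F.IsHomogeneous e) (α0 : TT K V F),
    cs K u V F (PG V F) α0 = 0 →
    ∑ x : Fin r × Fin ν, τ x.1 x.2 * cs K u V F (PG V (pderiv x.2 F) * X x.1) α0 = 0

/-- derivations give good tangent data -/
lemma goodG_der (hu : ∀ j, u j ≠ 0) (E : Derivation ℚ G G) :
    GoodG K u V (fun j i => E (u j * (V j i : G)) / u j) := by
  classical
  intro F e _ α0 h0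
  have h1 : E (cs K u V F (PG V F) α0) = 0 := by rw [h0, map_zero]
  rw [← h1]
  unfold cs
  rw [map_sum]
  have h2 : ∀ α : TT K V F, E (((coeff α.1 (PG V F) : K) : G) * mo u α.1) =
      ∑ x : Fin r × Fin ν, E (u x.1 * (V x.1 x.2 : G)) / u x.1 *
        (((coeff α.1 (PG V (pderiv x.2 F) * X x.1) : K) : G) * mo u α.1) := by
    intro α
    have h3 := isE_PG E (fun j i => u j * (V j i : G)) F α.1
    rw [← phi_PG, coeff_phi, mul_comm (mo u α.1)] at h3
    rw [← h3]
    unfold DG
    rw [coeff_sum, Fintype.sum_prod_type, Finset.sum_comm]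
    refine Finset.sum_congr rfl fun i _ => ?_
    rw [Finset.mul_sum, coeff_sum]
    refine Finset.sum_congr rfl fun j _ => ?_
    have h4 : PG (fun j i => u j * (V j i : G)) (pderiv i F) *
        (C (E (u j * (V j i : G))) * X j) =
        C (E (u j * (V j i : G)) / u j) * phi K u (PG V (pderiv i F) * X j) := by
      rw [map_mul (phi K u), phi_PG, phi_X]
      have h5 : (C (E (u j * (V j i : G)) / u j) : MvPolynomial (Fin r) G) * C (u j) =
          C (E (u j * (V j i : G))) := by
        rw [← C_mul, div_mul_cancel₀ _ (hu j)]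
      rw [← h5]
      ring
    rw [h4, coeff_C_mul, coeff_phi]
    ring
  rw [Finset.sum_congr rfl fun α _ => h2 α, Finset.sum_comm]
  refine Finset.sum_congr rfl fun x _ => ?_
  rw [Finset.mul_sum]

/-- the class sums are multiples of a monomial by elements of the subfield -/
lemma cs_mem (hu : ∀ j, u j ≠ 0) (F : MvPolynomial (Fin ν) ℚ) (Q : MvPolynomial (Fin r) K)
    (α0 : Fin r →₀ ℕ) : ∃ κ : K, cs K u V F Q α0 = mo u α0 * (κ : G) := by
  classical
  have h0 : mo u α0 ≠ 0 := Finset.prod_ne_zero_iff.2 fun j _ => pow_ne_zero _ (hu j)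
  refine ⟨∑ α : {α : TT K V F // mo u α.1 / mo u α0 ∈ K},
    coeff α.1.1 Q * ⟨mo u α.1.1 / mo u α0, α.2⟩, ?_⟩
  unfold cs
  rw [Finset.sum_subtype (p := fun α : TT K V F => mo u α.1 / mo u α0 ∈ K)
    (Finset.univ.filter fun α : TT K V F => mo u α.1 / mo u α0 ∈ K) (by simp)
    (fun α : TT K V F => ((coeff α.1 Q : K) : G) * mo u α.1)]
  rw [AddSubmonoidClass.coe_finsetSum, Finset.mul_sum]
  refine Finset.sum_congr rfl fun α _ => ?_
  rw [MulMemClass.coe_mul]
  change _ = mo u α0 * (((coeff α.1.1 Q : K) : G) * (mo u α.1.1 / mo u α0))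
  field_simp

omit [Algebra ℚ G] in
lemma cs_DG (τ : Fin r → Fin ν → K) (F : MvPolynomial (Fin ν) ℚ) (α0 : Fin r →₀ ℕ) :
    cs K u V F (DG V τ F) α0 =
      ∑ x : Fin r × Fin ν, (τ x.1 x.2 : G) * cs K u V F (PG V (pderiv x.2 F) * X x.1) α0 := by
  classical
  unfold cs
  simp_rw [Finset.mul_sum]
  rw [Finset.sum_comm]
  refine Finset.sum_congr rfl fun α _ => ?_
  rw [coeff_DG_eq, AddSubmonoidClass.coe_finsetSum, Finset.sum_mul]
  refine Finset.sum_congr rfl fun x _ => ?_
  rw [MulMemClass.coe_mul, mul_assoc]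

/-- the point itself is good -/
lemma good_self : Good K u V V := by
  classical
  intro F e hF α0 h0
  have h1 : DG V V F = (e : MvPolynomial (Fin r) K) * PG V F := by
    have h2 := hF.sum_X_mul_pderiv
    have h3 := congrArg (PG V) h2
    have h4 : ∀ s : Finset (Fin ν), PG V (∑ i ∈ s, X i * pderiv i F) =
        ∑ i ∈ s, PG V (pderiv i F) * ∑ j, C (V j i) * X j := by
      intro s
      induction s using Finset.induction_on with
      | empty => simp [PG_zero]
      | insert a s ha ih =>
        rw [Finset.sum_insert ha, Finset.sum_insert ha, PG_add, PG_mul, PG_X, ih, mul_comm]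
    rw [h4] at h3
    have h5 : PG V (e • F) = (e : MvPolynomial (Fin r) K) * PG V F := by
      rw [nsmul_eq_mul, PG_mul]
      congr 1
      have : ((e : MvPolynomial (Fin ν) ℚ)) = C (e : ℚ) := by simp
      rw [this, PG_C]
      simp
    rw [h5] at h3
    exact h3
  rw [h1]
  unfold cs at h0 ⊢
  have h2 : ∀ α : TT K V F, ((coeff α.1 ((e : MvPolynomial (Fin r) K) * PG V F) : K) : G) *
      mo u α.1 = (e : G) * (((coeff α.1 (PG V F) : K) : G) * mo u α.1) := by
    intro α
    have h3 : ((e : MvPolynomial (Fin r) K)) = C (e : K) := by simp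
    rw [h3, coeff_C_mul]
    push_cast
    ring
  rw [Finset.sum_congr rfl fun α _ => h2 α, ← Finset.mul_sum, h0, mul_zero]

omit [Algebra ℚ G] in
/-- good tangent data with values in the big field are combinations of good tangent data -/
lemma goodG_decomp (hu : ∀ j, u j ≠ 0) (τ : Fin r → Fin ν → G) (h : GoodG K u V τ) :
    ∃ (ι : Type) (T : Finset ι) (e : ι → G) (σ : ι → Fin r → Fin ν → K),
      (∀ k, Good K u V (σ k)) ∧ ∀ j i, τ j i = ∑ k ∈ T, e k * (σ k j i : G) := by
  classical
  let B := Module.Basis.ofVectorSpace K G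
  refine ⟨_, Finset.univ.biUnion fun x : Fin r × Fin ν => (B.repr (τ x.1 x.2)).support,
    fun k => B k, fun k j i => B.repr (τ j i) k, ?_, ?_⟩
  · intro k F e hF α0 h0
    have h1 := h F e hF α0 h0
    choose κ hκ using fun x : Fin r × Fin ν =>
      cs_mem K u V hu F (PG V (pderiv x.2 F) * X x.1) α0.1
    have hm : mo u α0.1 ≠ 0 := Finset.prod_ne_zero_iff.2 fun j _ => pow_ne_zero _ (hu j)
    have h2 : ∑ x : Fin r × Fin ν, κ x • τ x.1 x.2 = 0 := by
      apply mul_left_cancel₀ hm
      rw [mul_zero, Finset.mul_sum, ← h1]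
      refine Finset.sum_congr rfl fun x _ => ?_
      rw [hκ, Subfield.smul_def, smul_eq_mul]
      ring
    have h3 : ∑ x : Fin r × Fin ν, κ x * B.repr (τ x.1 x.2) k = 0 := by
      have h4 := congrArg (fun y => B.repr y k) h2
      simp only [map_sum, map_zero, Finsupp.coe_zero, Pi.zero_apply, Finsupp.coe_finset_sum,
        Finset.sum_apply, map_smul, Finsupp.smul_apply, smul_eq_mul] at h4
      exact h4
    rw [cs_DG]
    have h5 := congrArg (fun y : K => (y : G)) h3
    simp only [AddSubmonoidClass.coe_finsetSum, MulMemClass.coe_mul, ZeroMemClass.coe_zero] at h5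
    calc ∑ x : Fin r × Fin ν, ((B.repr (τ x.1 x.2) k : K) : G) *
          cs K u V F (PG V (pderiv x.2 F) * X x.1) α0.1
        = mo u α0.1 * ∑ x : Fin r × Fin ν, (κ x : G) * ((B.repr (τ x.1 x.2) k : K) : G) := by
          rw [Finset.mul_sum]
          refine Finset.sum_congr rfl fun x _ => ?_
          rw [hκ]
          ring
      _ = 0 := by rw [h5, mul_zero]
  · intro j i
    have h1 := (B.linearCombination_repr (τ j i)).symm
    rw [Finsupp.linearCombination_apply, Finsupp.sum] at h1
    have h2 : ∑ k ∈ (B.repr (τ j i)).support, B.repr (τ j i) k • B k =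
        ∑ k ∈ (B.repr (τ j i)).support, B k * ((B.repr (τ j i) k : K) : G) := by
      refine Finset.sum_congr rfl fun k _ => ?_
      rw [Subfield.smul_def, smul_eq_mul, mul_comm]
    rw [h2] at h1
    refine h1.trans ?_
    apply Finset.sum_subset
    · intro k hk
      exact Finset.mem_biUnion.2 ⟨(j, i), Finset.mem_univ _, hk⟩
    · intro k _ hk
      rw [Finsupp.notMem_support_iff.1 hk, ZeroMemClass.coe_zero, mul_zero]

end Tan

end Pool.Agent.Y724.Vj
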