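import Mathlib
import Pool.Agent.Y724.Vj.Tan
import Pool.Agent.Y724.Vj.Cls
import Pool.Agent.TH551.SU.CRV

/-!
# Derivatives in good directions are not larger than the values of the forms
-/

set_option autoImplicit false

namespace Pool.Agent.Y724.Vj

open MvPolynomial Filter Topology Pool.Agent.TH932.Germs Pool.Agent.TH551.SU

section ev

variable {G : Type} [Field G] [CharZero G] [Algebra ℚ G] {r ν : ℕ} (K : Subfield G) (u : Fin r → G)
  (V : Fin r → Fin ν → K)

/-- evaluation at the `u j` -/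
noncomputable def evu : MvPolynomial (Fin r) K →+* G := eval₂Hom K.subtype u

lemma evu_eq (Q : MvPolynomial (Fin r) K) (F : MvPolynomial (Fin ν) ℚ)
    (h : ∀ α, α ∉ TT K V F → coeff α Q = 0) :
    evu K u Q = ∑ α : TT K V F, ((coeff α.1 Q : K) : G) * mo u α.1 := by
  unfold evu mo
  rw [coe_eval₂Hom, eval₂_eq', Finset.sum_coe_sort (TT K V F)
    (fun α => ((coeff α Q : K) : G) * ∏ j, u j ^ (α j))]
  apply Finset.sum_subset
  · intro α hα
    by_contra hne
    exact (mem_support_iff.1 hα) (h α hne)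
  · intro α _ hα
    rw [notMem_support_iff.1 hα, map_zero, zero_mul]

lemma evu_PG (F : MvPolynomial (Fin ν) ℚ) :
    evu K u (PG V F) = aeval (fun i => ∑ j, u j * (V j i : G)) F := by
  induction F using MvPolynomial.induction_on with
  | C a =>
    rw [PG_C, aeval_C]
    unfold evu
    rw [coe_eval₂Hom, eval₂_C]
    have : (K.subtype.comp (algebraMap ℚ K)) = algebraMap ℚ G := Subsingleton.elim _ _
    exact RingHom.congr_fun this a
  | add p q hp hq => rw [PG_add, map_add, map_add, hp, hq]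
  | mul_X p i hp =>
    rw [PG_mul, PG_X, map_mul, map_mul, hp, aeval_X, map_sum]
    congr 1
    refine Finset.sum_congr rfl fun j _ => ?_
    unfold evu
    rw [coe_eval₂Hom, eval₂_mul, eval₂_C, eval₂_X, mul_comm]
    rfl

lemma evu_DG (τ : Fin r → Fin ν → K) (F : MvPolynomial (Fin ν) ℚ) :
    evu K u (DG V τ F) = ∑ i, aeval (fun i => ∑ j, u j * (V j i : G)) (pderiv i F) *
      ∑ j, u j * (τ j i : G) := by
  unfold DG
  rw [map_sum]
  refine Finset.sum_congr rfl fun i _ => ?_
  rw [map_mul, evu_PG, map_sum]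
  congr 1
  refine Finset.sum_congr rfl fun j _ => ?_
  unfold evu
  rw [coe_eval₂Hom, eval₂_mul, eval₂_C, eval₂_X, mul_comm]
  rfl

end ev

variable {L : ℕ → ℝ} {r ν : ℕ}

/-- **The derivative of a form in a good direction is not larger than the form.** -/
theorem val_deriv_le {s : ℕ} (b : Fin s → ℕ) (hb : ∀ v, (b v).Prime)
    (hbi : Function.Injective b) (hL : Tendsto L atTop atTop) (u : Fin r → GG)
    (hu : ∀ j, GSU b (u j)) (hbd : ∀ j, Bd L (u j)) (V τ : Fin r → Fin ν → KK L hL)
    (hτ : Good (KK L hL) u V τ) (v0 : Option (Fin s)) (F : MvPolynomial (Fin ν) ℚ)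
    (e : ℕ) (hF : F.IsHomogeneous e) :
    (OO L hL (wv b hb v0)).valuation (∑ i, aeval (fun i => ∑ j, u j * (V j i : GG)) (pderiv i F) *
      ∑ j, u j * (τ j i : GG)) ≤
    (OO L hL (wv b hb v0)).valuation (aeval (fun i => ∑ j, u j * (V j i : GG)) F) := by
  classical
  rw [← evu_DG, ← evu_PG, evu_eq (KK L hL) u V (DG V τ F) F (fun α => DG_support _ V τ F α),
    evu_eq (KK L hL) u V (PG V F) F (fun α => PG_support _ V F α)]
  have hg : ∀ α : TT (KK L hL) V F, GSU b (mo u α.1) := fun α =>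
    CRV.GSU.prod hb _ _ fun j _ => CRV.GSU.pow hb (hu j) _
  have hgb : ∀ α : TT (KK L hL) V F, Bd L (mo u α.1) := fun α =>
    Bd.prod hL _ _ fun j _ => (hbd j).pow hL _
  refine ub_class b hb hL (fun α : TT (KK L hL) V F => mo u α.1)
    (fun α => gsu_ne_zero hb (hg α)) (fun α => coeff α.1 (DG V τ F)) v0 _ ?_
  intro α0
  by_cases h : cs (KK L hL) u V F (PG V F) α0.1 = 0
  · left
    intro p _ hp
    have h1 := hτ F e hF α0 h
    unfold cs at h1
    rw [← h1]
    refine Finset.sum_congr ?_ fun _ _ => rfl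
    ext α
    simp only [Finset.mem_filter, Finset.mem_univ, true_and]
    exact hp α
  · right
    refine lb_class b hb hbi hL (fun α : TT (KK L hL) V F => mo u α.1) hg hgb
      (fun α => coeff α.1 (PG V F)) v0 α0 (fun α => mo u α.1 / mo u α0.1 ∈ KK L hL)
      (fun α => Iff.rfl) ?_
    intro h2
    apply h
    unfold cs
    rw [← h2]

end Pool.Agent.Y724.Vj
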