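import Mathlib
import Pool.Agent.Y724.Vj.Det
import Pool.Agent.Y724.Vj.GV

/-!
# The inequality at one place, for germs
-/

set_option autoImplicit false

namespace Pool.Agent.Y724.Vj

open MvPolynomial Filter Topology Pool.Agent.TH932.Germs Pool.Agent.TH551.SU

section scale

variable {k : Type} [CommRing k] {ν : ℕ}

lemma evi_smul (P : MvPolynomial (Fin ν) ℤ) (e : ℕ) (hP : P.IsHomogeneous e) (c : k)
    (x : Fin ν → k) : evi (fun y => c * x y) P = c ^ e * evi x P := by
  unfold evi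
  rw [eval₂_eq', eval₂_eq', Finset.mul_sum]
  refine Finset.sum_congr rfl fun α hα => ?_
  have h2 := hP (mem_support_iff.1 hα)
  rw [Finsupp.weight_apply, Finsupp.sum_fintype _ _ (by simp)] at h2
  have h3 : ∑ j, α j = e := by simpa using h2
  rw [← h3, ← Finset.prod_pow_eq_pow_sum]
  simp only [mul_pow]
  rw [Finset.prod_mul_distrib]
  ring

lemma evi_zero (x : Fin ν → k) : evi x 0 = 0 := by
  unfold evi
  rw [eval₂_zero]

lemma sum_pderiv_smul (P : MvPolynomial (Fin ν) ℤ) (e : ℕ) (hP : P.IsHomogeneous e) (c : k)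
    (x t : Fin ν → k) : ∑ y, evi (fun y => c * x y) (pderiv y P) * (c * t y) =
      c ^ e * ∑ y, evi x (pderiv y P) * t y := by
  rcases Nat.eq_zero_or_pos e with h0 | h0
  · have h1 : ∀ y, pderiv y P = 0 := by
      intro y
      have h2 := hP
      rw [h0, ← totalDegree_zero_iff_isHomogeneous, totalDegree_eq_zero_iff_eq_C] at h2
      rw [h2, pderiv_C]
    simp [h1, evi_zero]
  · rw [Finset.mul_sum]
    refine Finset.sum_congr rfl fun y _ => ?_
    rw [evi_smul _ (e - 1) hP.pderiv]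
    obtain ⟨e', rfl⟩ : ∃ e', e = e' + 1 := ⟨e - 1, by omega⟩
    rw [Nat.add_sub_cancel, pow_succ]
    ring

end scale

lemma evi_eq_aeval {G : Type} [CommRing G] [Algebra ℚ G] {ν : ℕ} (x : Fin ν → G)
    (P : MvPolynomial (Fin ν) ℤ) : aeval x (map (Int.castRingHom ℚ) P) = evi x P := by
  unfold evi
  rw [aeval_def, eval₂_map]
  congr 1
  exact Subsingleton.elim _ _

variable {L : ℕ → ℝ} {r ν n q w g : ℕ}

/-- **The inequality at one place.** -/
theorem place_ineq {s sc : ℕ} (b : Fin s → ℕ) (hb : ∀ v, (b v).Prime)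
    (hbi : Function.Injective b) (hL : Tendsto L atTop atTop) (hν : ν = n + sc)
    (u : Fin r → GG) (hu : ∀ j, GSU b (u j)) (hbd : ∀ j, Bd L (u j))
    (V : Fin r → Fin ν → KK L hL) (τ : Fin n → Fin r → Fin ν → KK L hL)
    (hτ : ∀ c, Good (KK L hL) u V (τ c)) (v0 : Option (Fin s))
    (x : Fin ν → GG) (hx : ∀ y, x y = ∑ j, u j * (V j y : GG))
    (T : Matrix (Fin ν) (Fin n) GG) (hT : ∀ y c, T y c = ∑ j, u j * (τ c j y : GG))
    (Gp : Fin g → MvPolynomial (Fin ν) ℤ) (e : Fin g → ℕ) (hGh : ∀ a, (Gp a).IsHomogeneous (e a))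
    (F : Fin q → Fin w → MvPolynomial (Fin ν) ℤ) (d : Fin q → Fin w → ℕ)
    (hFh : ∀ i j, (F i j).IsHomogeneous (d i j))
    (hnc : NCf (IsLocalRing.ResidueField (OO L hL (wv b hb v0))) sc Gp F)
    (hGx : ∀ a, evi x (Gp a) = 0) (J0 : Fin n → Fin ν) (hdet : (T.submatrix J0 id).det ≠ 0)
    (y0 : Fin ν) (hy0 : x y0 ≠ 0) (hmax : ∀ y, (OO L hL (wv b hb v0)).valuation (x y) ≤
      (OO L hL (wv b hb v0)).valuation (x y0)) :
    ∃ jj : Fin q → Fin w, (∀ i, evi x (F i (jj i)) ≠ 0) ∧ ∀ J : Fin n → Fin ν,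
      (OO L hL (wv b hb v0)).valuation ((T.submatrix J id).det * ∏ i, x y0 ^ (d i (jj i))) ≤
        (OO L hL (wv b hb v0)).valuation (x y0 ^ n * ∏ i, evi x (F i (jj i))) := by
  classical
  set A := OO L hL (wv b hb v0) with hA
  have hxe : x = fun i => ∑ j, u j * (V j i : GG) := funext hx
  have hder : ∀ (P : MvPolynomial (Fin ν) ℤ) (e : ℕ) (_ : P.IsHomogeneous e) (c : Fin n),
      A.valuation (∑ y, evi x (pderiv y P) * T y c) ≤ A.valuation (evi x P) := by
    intro P e hP c
    have h1 := val_deriv_le b hb hbi hL u hu hbd V (τ c) (hτ c) v0 (map (Int.castRingHom ℚ) P) e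
      (hP.map _)
    rw [← hxe, evi_eq_aeval] at h1
    refine le_trans (le_of_eq ?_) h1
    congr 1
    refine Finset.sum_congr rfl fun y _ => ?_
    rw [pderiv_map, evi_eq_aeval, hT]
  have hTy : ∀ y c, A.valuation (T y c) ≤ A.valuation (x y0) := by
    intro y c
    have h1 := hder (X y) 1 (isHomogeneous_X ℤ y) c
    have h2 : ∑ y', evi x (pderiv y' (X y : MvPolynomial (Fin ν) ℤ)) * T y' c = T y c := by
      rw [Finset.sum_eq_single y]
      · rw [pderiv_X_self]
        unfold evi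
        rw [eval₂_one, one_mul]
      · intro y' _ hy'
        rw [pderiv_X_of_ne (Ne.symm hy'), evi_zero, zero_mul]
      · intro h
        exact absurd (Finset.mem_univ _) h
    have h3 : evi x (X y : MvPolynomial (Fin ν) ℤ) = x y := by
      unfold evi
      rw [eval₂_X]
    rw [h2, h3] at h1
    exact h1.trans (hmax y)
  have hv0 : 0 < A.valuation (x y0) := by
    rw [zero_lt_iff]
    exact (Valuation.ne_zero_iff _).2 hy0
  have hdiv : ∀ a : GG, A.valuation a ≤ A.valuation (x y0) → (x y0)⁻¹ * a ∈ A := by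
    intro a ha
    rw [← ValuationSubring.valuation_le_one_iff, map_mul, map_inv₀]
    rw [mul_comm, ← div_eq_mul_inv]
    exact div_le_one_of_le₀ ha zero_le
  set ξ : Fin ν → A := fun y => ⟨(x y0)⁻¹ * x y, hdiv _ (hmax y)⟩ with hξ
  set T' : Matrix (Fin ν) (Fin n) A := Matrix.of fun y c => ⟨(x y0)⁻¹ * T y c, hdiv _ (hTy y c)⟩
    with hT'
  have hcoe : ∀ P : MvPolynomial (Fin ν) ℤ, ((evi ξ P : A) : GG) =
      evi (fun y => (x y0)⁻¹ * x y) P := fun P => map_evi A.subtype ξ P
  have hcoeh : ∀ (P : MvPolynomial (Fin ν) ℤ) (e : ℕ) (_ : P.IsHomogeneous e),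
      ((evi ξ P : A) : GG) = (x y0)⁻¹ ^ e * evi x P := by
    intro P e hP
    rw [hcoe, evi_smul P e hP]
  have hsum : ∀ (P : MvPolynomial (Fin ν) ℤ) (e : ℕ) (_ : P.IsHomogeneous e) (c : Fin n),
      ((∑ y, evi ξ (pderiv y P) * T' y c : A) : GG) =
        (x y0)⁻¹ ^ e * ∑ y, evi x (pderiv y P) * T y c := by
    intro P e hP c
    rw [← sum_pderiv_smul P e hP, AddSubmonoidClass.coe_finsetSum]
    refine Finset.sum_congr rfl fun y _ => ?_
    rw [MulMemClass.coe_mul, hcoe]
    rfl
  have hdetT : ∀ J : Fin n → Fin ν, (((T'.submatrix J id).det : A) : GG) =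
      (x y0)⁻¹ ^ n * (T.submatrix J id).det := by
    intro J
    have h1 : (((T'.submatrix J id).det : A) : GG) = ((T'.submatrix J id).map A.subtype).det :=
      RingHom.map_det A.subtype (T'.submatrix J id)
    rw [h1]
    have h2 : (T'.submatrix J id).map A.subtype = (x y0)⁻¹ • (T.submatrix J id) := by
      ext i c
      rfl
    rw [h2, Matrix.det_smul, Fintype.card_fin]
  obtain ⟨jj, hjj, hb'⟩ := nc_bound A hν Gp F hnc ξ ⟨y0, by
      rw [ValuationSubring.valuation_eq_one_iff]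
      change A.valuation ((x y0)⁻¹ * x y0) = 1
      rw [inv_mul_cancel₀ hy0, map_one]⟩ (by
      intro a
      apply Subtype.ext
      rw [hcoeh _ _ (hGh a), hGx, mul_zero]
      rfl) T' (by
      intro a c
      apply Subtype.ext
      rw [hsum _ _ (hGh a)]
      have h1 := hder (Gp a) (e a) (hGh a) c
      rw [hGx, map_zero] at h1
      have h2 := le_antisymm h1 zero_le
      rw [Valuation.zero_iff] at h2
      rw [h2, mul_zero]
      rfl) (by
      intro i j c
      rw [hsum _ _ (hFh i j), hcoeh _ _ (hFh i j), map_mul, map_mul]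
      exact mul_le_mul_right (hder _ _ (hFh i j) c) _) J0 (by
      intro h0
      have h1 := hdetT J0
      rw [h0, ZeroMemClass.coe_zero] at h1
      rcases mul_eq_zero.1 h1.symm with h2 | h2
      · exact pow_ne_zero _ (inv_ne_zero hy0) h2
      · exact hdet h2)
  refine ⟨jj, ?_, ?_⟩
  · intro i h0
    apply hjj i
    apply Subtype.ext
    rw [hcoeh _ _ (hFh i (jj i)), h0, mul_zero]
    rfl
  · intro J
    have h1 := hb' J
    rw [hdetT J, map_mul] at h1
    have h2 : ∀ i, A.valuation ((evi ξ (F i (jj i)) : A) : GG) =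
        A.valuation ((x y0)⁻¹ ^ (d i (jj i))) * A.valuation (evi x (F i (jj i))) := by
      intro i
      rw [hcoeh _ _ (hFh i (jj i)), map_mul]
    rw [Finset.prod_congr rfl fun i _ => h2 i, Finset.prod_mul_distrib, ← map_prod, ← map_prod]
      at h1
    have h3 : A.valuation (x y0 ^ n) * A.valuation ((x y0)⁻¹ ^ n) = 1 := by
      rw [← map_mul, ← mul_pow, mul_inv_cancel₀ hy0, one_pow, map_one]
    have h4 : A.valuation (∏ i, x y0 ^ (d i (jj i))) *
        A.valuation (∏ i, (x y0)⁻¹ ^ (d i (jj i))) = 1 := by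
      rw [← map_mul, ← Finset.prod_mul_distrib]
      have : ∀ i : Fin q, x y0 ^ (d i (jj i)) * (x y0)⁻¹ ^ (d i (jj i)) = 1 := by
        intro i
        rw [← mul_pow, mul_inv_cancel₀ hy0, one_pow]
      rw [Finset.prod_congr rfl fun i _ => this i, Finset.prod_const_one, map_one]
    calc A.valuation ((T.submatrix J id).det * ∏ i, x y0 ^ (d i (jj i)))
        = (A.valuation (x y0 ^ n) * A.valuation ((x y0)⁻¹ ^ n)) *
            (A.valuation (T.submatrix J id).det * A.valuation (∏ i, x y0 ^ (d i (jj i)))) := by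
          rw [h3, one_mul, map_mul]
      _ = A.valuation (x y0 ^ n) * A.valuation (∏ i, x y0 ^ (d i (jj i))) *
            (A.valuation ((x y0)⁻¹ ^ n) * A.valuation (T.submatrix J id).det) := by
          ac_rfl
      _ ≤ A.valuation (x y0 ^ n) * A.valuation (∏ i, x y0 ^ (d i (jj i))) *
            (A.valuation (∏ i, (x y0)⁻¹ ^ (d i (jj i))) *
              A.valuation (∏ i, evi x (F i (jj i)))) := mul_le_mul_right h1 _
      _ = (A.valuation (∏ i, x y0 ^ (d i (jj i))) *
            A.valuation (∏ i, (x y0)⁻¹ ^ (d i (jj i)))) *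
              (A.valuation (x y0 ^ n) * A.valuation (∏ i, evi x (F i (jj i)))) := by
          ac_rfl
      _ = _ := by rw [h4, one_mul, map_mul]

end Pool.Agent.Y724.Vj
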