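import Mathlib
import Pool.Agent.Y724.Vj.GV
import Pool.Agent.W602.GT.Der

/-!
# Enough good directions at a generic germ
-/

set_option autoImplicit false

namespace Pool.Agent.Y724.Vj

open MvPolynomial Filter Topology Pool.Agent.TH932.Germs Pool.Agent.TH551.SU

lemma algebraMap_eq' (q : ℚ) : algebraMap ℚ GG q = gm (fun _ => q) := by
  have h : (algebraMap ℚ GG) = (Germ.coeRingHom (UU : Filter ℕ)).comp (Pi.constRingHom ℕ ℚ) :=
    Subsingleton.elim _ _
  rw [h]
  rfl

/-- evaluation of polynomials at germs -/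
lemma aeval_gm' {ι : Type} (X : ι → ℕ → ℚ) (F : MvPolynomial ι ℚ) :
    aeval (fun i => gm (X i)) F = gm (fun t => aeval (fun i => X i t) F) := by
  induction F using MvPolynomial.induction_on with
  | C a =>
    rw [aeval_C, algebraMap_eq']
    congr 1
    funext t
    rw [aeval_C]
    rfl
  | add p q hp hq =>
    rw [map_add, hp, hq, gm_add]
    congr 1
    funext t
    rw [map_add]
  | mul_X p i hp =>
    rw [map_mul, hp, aeval_X, gm_mul]
    congr 1
    funext t
    rw [map_mul, aeval_X]

/-- homogeneous polynomials and scaling -/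
lemma aeval_smul_hom {ι A : Type} [Fintype ι] [CommRing A] [Algebra ℚ A] (F : MvPolynomial ι ℚ) (e : ℕ)
    (hF : F.IsHomogeneous e) (c : A) (x : ι → A) :
    aeval (fun i => c * x i) F = c ^ e * aeval x F := by
  rw [aeval_def, eval₂_eq', aeval_def, eval₂_eq', Finset.mul_sum]
  refine Finset.sum_congr rfl fun α hα => ?_
  have h2 := hF (mem_support_iff.1 hα)
  rw [Finsupp.weight_apply, Finsupp.sum_fintype _ _ (by simp)] at h2
  have h3 : ∑ j, α j = e := by simpa using h2
  rw [← h3, ← Finset.prod_pow_eq_pow_sum]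
  simp only [mul_pow]
  rw [Finset.prod_mul_distrib]
  ring

/-- the restriction of a polynomial to the line through a point -/
noncomputable def qp {n : ℕ} (Q : MvPolynomial (Fin n) ℚ) (ξ : Fin n → ℚ) : Polynomial ℚ :=
  ∑ k ∈ Finset.range (Q.totalDegree + 1),
    Polynomial.C (aeval ξ (homogeneousComponent k Q)) * Polynomial.X ^ k

lemma qp_eval {n : ℕ} (Q : MvPolynomial (Fin n) ℚ) (ξ : Fin n → ℚ) (s : ℚ) :
    (qp Q ξ).eval s = aeval (fun i => s * ξ i) Q := by
  unfold qp
  conv_rhs => rw [← sum_homogeneousComponent Q]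
  rw [Polynomial.eval_finsetSum, map_sum]
  refine Finset.sum_congr rfl fun k _ => ?_
  rw [aeval_smul_hom _ k (homogeneousComponent_isHomogeneous k Q), Polynomial.eval_mul,
    Polynomial.eval_C, Polynomial.eval_pow, Polynomial.eval_X, mul_comm]

lemma qp_ne_zero {n : ℕ} (Q : MvPolynomial (Fin n) ℚ) (ξ : Fin n → ℚ) (k : ℕ)
    (hk : k ≤ Q.totalDegree) (h : aeval ξ (homogeneousComponent k Q) ≠ 0) : qp Q ξ ≠ 0 := by
  intro h0
  apply h
  have h1 : (qp Q ξ).coeff k = aeval ξ (homogeneousComponent k Q) := by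
    unfold qp
    rw [Polynomial.finsetSum_coeff]
    simp_rw [Polynomial.coeff_C_mul_X_pow]
    rw [Finset.sum_ite_eq, if_pos (Finset.mem_range.2 (by omega))]
  rw [← h1, h0, Polynomial.coeff_zero]

/-- after multiplication by a suitable germ the coordinates are algebraically independent -/
theorem exists_scale {n : ℕ} (ξ : Fin n → ℕ → ℚ)
    (hgen : ∀ (Φ : MvPolynomial (Fin n) ℚ) (e : ℕ), Φ.IsHomogeneous e → Φ ≠ 0 →
      aeval (fun i => gm (ξ i)) Φ ≠ 0) :
    ∃ σ : GG, AlgebraicIndependent ℚ (fun i => σ * gm (ξ i)) := by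
  classical
  have hcount : Countable (MvPolynomial (Fin n) ℚ) := by
    rw [← Cardinal.mk_le_aleph0_iff]
    refine MvPolynomial.cardinalMk_le_max.trans ?_
    simp
  obtain ⟨f, hf⟩ := exists_surjective_nat (MvPolynomial (Fin n) ℚ)
  have hex : ∀ t : ℕ, ∃ s : ℚ, ∀ k ≤ t, qp (f k) (fun i => ξ i t) ≠ 0 →
      (qp (f k) (fun i => ξ i t)).eval s ≠ 0 := by
    intro t
    set P : Polynomial ℚ := ∏ k ∈ (Finset.range (t + 1)).filter
      (fun k => qp (f k) (fun i => ξ i t) ≠ 0), qp (f k) (fun i => ξ i t) with hP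
    have hP0 : P ≠ 0 := by
      rw [hP, Finset.prod_ne_zero_iff]
      intro k hk
      exact (Finset.mem_filter.1 hk).2
    obtain ⟨s, hs⟩ : ∃ s : ℚ, P.eval s ≠ 0 := by
      by_contra hcon
      push Not at hcon
      apply hP0
      apply Polynomial.funext
      intro s
      rw [hcon s, Polynomial.eval_zero]
    refine ⟨s, fun k hk h0 h1 => hs ?_⟩
    rw [hP, Polynomial.eval_prod]
    exact Finset.prod_eq_zero (Finset.mem_filter.2 ⟨Finset.mem_range.2 (by omega), h0⟩) h1
  choose σ hσ using hex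
  refine ⟨gm σ, ?_⟩
  rw [algebraicIndependent_iff]
  intro Q hQ
  by_contra hQ0
  obtain ⟨k, hk⟩ : ∃ k, homogeneousComponent k Q ≠ 0 := by
    by_contra hcon
    push Not at hcon
    apply hQ0
    rw [← sum_homogeneousComponent Q]
    exact Finset.sum_eq_zero fun k _ => hcon k
  have hkd : k ≤ Q.totalDegree := by
    by_contra hcon
    exact hk (homogeneousComponent_eq_zero _ _ (by omega))
  have h1 := hgen _ k (homogeneousComponent_isHomogeneous k Q) hk
  rw [aeval_gm', gm_ne_zero] at h1
  have h2 : (fun i => gm σ * gm (ξ i)) = fun i => gm (fun t => σ t * ξ i t) := by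
    funext i
    rw [gm_mul]
  rw [h2, aeval_gm', ← gm_zero, gm_eq] at hQ
  obtain ⟨q, rfl⟩ := hf Q
  have h3 : ∀ᶠ t in (UU : Filter ℕ), q ≤ t := ev_of_atTop (eventually_ge_atTop q)
  obtain ⟨t, h4, h5, h6⟩ := (h1.and (hQ.and h3)).exists
  have h7 := hσ t q h6 (qp_ne_zero _ _ k hkd h4)
  rw [qp_eval] at h7
  exact h7 h5

section abs

variable {G : Type} [Field G] [CharZero G] [Algebra ℚ G]

/-- dual derivations of algebraically independent elements -/
theorem exists_dual {n : ℕ} (y : Fin n → G) (hy : AlgebraicIndependent ℚ y) (k : Fin n) :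
    ∃ E : Derivation ℚ G G, ∀ i, E (y i) = if i = k then 1 else 0 := by
  classical
  have hyr : AlgebraicIndepOn ℚ id (Set.range y) := hy.coe_range
  obtain ⟨t, hst, ht⟩ := exists_isTranscendenceBasis_superset hyr
  obtain ⟨E, hE⟩ := Pool.Agent.W602.GT.exists_der (L := ℚ) (K := G) (fun z : t => (z : G)) ht
    (fun z => if (z : G) = y k then 1 else 0)
  refine ⟨E, fun i => ?_⟩
  have h1 := hE ⟨y i, hst ⟨i, rfl⟩⟩
  simp only at h1
  rw [h1]
  by_cases h : i = k
  · rw [if_pos h, if_pos (by rw [h])]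
  · rw [if_neg h, if_neg (fun h' => h (hy.injective h'))]

variable {r ν n : ℕ}

/-- **Enough good directions**, abstract form. -/
theorem exists_good_abs (K : Subfield G) (u : Fin r → G) (hu : ∀ j, u j ≠ 0)
    (V : Fin r → Fin ν → K) (J0 : Fin n → Fin ν) (σ : G)
    (hσ : AlgebraicIndependent ℚ (fun i => σ * ∑ j, u j * (V j (J0 i) : G))) :
    ∃ τ : Fin n → Fin r → Fin ν → K, (∀ c, Good K u V (τ c)) ∧
      (Matrix.of fun (i c : Fin n) => ∑ j, u j * (τ c j (J0 i) : G)).det ≠ 0 := by
  classical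
  set x : Fin ν → G := fun i => ∑ j, u j * (V j i : G) with hx
  choose E hE using fun k => exists_dual _ hσ k
  -- the span of the good directions
  set S : Set (Fin n → G) := {w | ∃ τ : Fin r → Fin ν → K, Good K u V τ ∧
    w = fun i => ∑ j, u j * (τ j (J0 i) : G)} with hS
  have hx1 : (fun i => x (J0 i)) ∈ Submodule.span G S :=
    Submodule.subset_span ⟨V, good_self K u V, rfl⟩
  have hx2 : ∀ D : Derivation ℚ G G, (fun i => D (x (J0 i))) ∈ Submodule.span G S := by
    intro D
    obtain ⟨ι, T, e, τ, hτ, hdec⟩ := goodG_decomp K u V hu _ (goodG_der K u V hu D)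
    have h1 : (fun i => D (x (J0 i))) =
        ∑ k ∈ T, e k • (fun i => ∑ j, u j * (τ k j (J0 i) : G)) := by
      funext i
      rw [Finset.sum_apply, hx]
      simp only [Pi.smul_apply, smul_eq_mul]
      rw [map_sum]
      have h2 : ∀ j, D (u j * (V j (J0 i) : G)) =
          u j * ∑ k ∈ T, e k * (τ k j (J0 i) : G) := by
        intro j
        rw [← hdec, mul_div_cancel₀ _ (hu j)]
      rw [Finset.sum_congr rfl fun j _ => h2 j]
      simp_rw [Finset.mul_sum]
      rw [Finset.sum_comm]
      refine Finset.sum_congr rfl fun k _ => Finset.sum_congr rfl fun j _ => ?_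
      ring
    rw [h1]
    refine Submodule.sum_mem _ fun k _ => Submodule.smul_mem _ _ ?_
    exact Submodule.subset_span ⟨τ k, hτ k, rfl⟩
  have htop : Submodule.span G S = ⊤ := by
    rw [eq_top_iff]
    intro w _
    have h1 : ∀ k : Fin n, (Pi.single k 1 : Fin n → G) ∈ Submodule.span G S := by
      intro k
      have h2 : (Pi.single k 1 : Fin n → G) =
          σ • (fun i => E k (x (J0 i))) + E k σ • (fun i => x (J0 i)) := by
        funext i
        have h3 := hE k i
        rw [Derivation.leibniz, smul_eq_mul, smul_eq_mul] at h3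
        rw [Pi.add_apply, Pi.smul_apply, Pi.smul_apply, smul_eq_mul, smul_eq_mul,
          mul_comm (E k σ), Pi.single_apply]
        exact h3.symm
      rw [h2]
      exact Submodule.add_mem _ (Submodule.smul_mem _ _ (hx2 _)) (Submodule.smul_mem _ _ hx1)
    have h2 : w = ∑ k, w k • (Pi.single k 1 : Fin n → G) := by
      funext i
      rw [Finset.sum_apply]
      simp [Pi.single_apply]
    rw [h2]
    exact Submodule.sum_mem _ fun k _ => Submodule.smul_mem _ _ (h1 k)
  -- a basis
  obtain ⟨B, hBS, hBspan, hB⟩ := exists_linearIndependent G S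
  rw [htop] at hBspan
  have hBfin : B.Finite := hB.setFinite
  have : Fintype B := hBfin.fintype
  have hcard : Fintype.card B = n := by
    have h1 := finrank_span_set_eq_card hB
    rw [hBspan, finrank_top, Module.finrank_fin_fun] at h1
    rw [← Set.toFinset_card, ← h1]
  let eq := (Fintype.equivFinOfCardEq hcard).symm
  choose τ hτ1 hτ2 using fun c : Fin n => hBS (eq c).2
  refine ⟨τ, hτ1, ?_⟩
  have hli : LinearIndependent G (fun c : Fin n => ((eq c : B) : Fin n → G)) :=
    hB.comp eq eq.injective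
  have h1 : (Matrix.of fun (i c : Fin n) => ∑ j, u j * (τ c j (J0 i) : G)) =
      (Matrix.of fun c : Fin n => ((eq c : B) : Fin n → G)).transpose := by
    ext i c
    rw [Matrix.transpose_apply, Matrix.of_apply, Matrix.of_apply, hτ2]
  rw [h1, Matrix.det_transpose]
  have h2 : LinearIndependent G (Matrix.of fun c : Fin n => ((eq c : B) : Fin n → G)).row := hli
  exact ((Matrix.linearIndependent_rows_iff_isUnit.1 h2).map Matrix.detMonoidHom).ne_zero

end abs

variable {L : ℕ → ℝ} {r ν n : ℕ}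

/-- **Enough good directions.** -/
theorem exists_good (hL : Tendsto L atTop atTop) (u : Fin r → GG) (hu : ∀ j, u j ≠ 0)
    (V : Fin r → Fin ν → KK L hL) (J0 : Fin n → Fin ν)
    (hgen : ∀ (Φ : MvPolynomial (Fin n) ℚ) (e : ℕ), Φ.IsHomogeneous e → Φ ≠ 0 →
      aeval (fun i => ∑ j, u j * (V j (J0 i) : GG)) Φ ≠ 0) :
    ∃ τ : Fin n → Fin r → Fin ν → KK L hL, (∀ c, Good (KK L hL) u V (τ c)) ∧
      (Matrix.of fun (i c : Fin n) => ∑ j, u j * (τ c j (J0 i) : GG)).det ≠ 0 := by
  classical
  choose ξ hξ using fun i => gm_surj (∑ j, u j * (V j (J0 i) : GG))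
  obtain ⟨σ, hσ⟩ := exists_scale ξ (by
    intro Φ e h1 h2
    have h3 := hgen Φ e h1 h2
    rw [← funext hξ] at h3
    exact h3)
  simp only [hξ] at hσ
  exact exists_good_abs (KK L hL) u hu V J0 σ hσ

end Pool.Agent.Y724.Vj
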