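import Mathlib
import Pool.Agent.Y724.Vj.AtPt
import Pool.Agent.Y724.Vj.Place
import Pool.Agent.Y724.Vj.Span

/-!
# The inequality of heights along a sequence of points
-/

set_option autoImplicit false

namespace Pool.Agent.Y724.Vj

open MvPolynomial Filter Topology Pool.Agent.TH932.Germs Pool.Agent.TH551.SU
open Pool.Agent.TH585.VF Pool.Agent.TH551.SU.SUI

lemma gm_sum' {ι : Type} (A : Finset ι) (f : ι → ℕ → ℚ) :
    ∑ i ∈ A, gm (f i) = gm (fun t => ∑ i ∈ A, f i t) := by
  classical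
  induction A using Finset.induction_on with
  | empty => simp [gm_zero]
  | insert a A ha ih =>
    rw [Finset.sum_insert ha, ih, gm_add]
    congr 1
    funext t
    rw [Finset.sum_insert ha]

lemma gm_prod' {ι : Type} (A : Finset ι) (f : ι → ℕ → ℚ) :
    ∏ i ∈ A, gm (f i) = gm (fun t => ∏ i ∈ A, f i t) := by
  classical
  induction A using Finset.induction_on with
  | empty => simp [gm_one]
  | insert a A ha ih =>
    rw [Finset.prod_insert ha, ih, gm_mul]
    congr 1
    funext t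
    rw [Finset.prod_insert ha]

lemma det_gm {n : ℕ} (M : ℕ → Matrix (Fin n) (Fin n) ℚ) :
    (Matrix.of fun i c => gm (fun t => M t i c)).det = gm (fun t => (M t).det) := by
  let P : Matrix (Fin n) (Fin n) (ℕ → ℚ) := Matrix.of fun i c t => M t i c
  have h1 : (Matrix.of fun i c => gm (fun t => M t i c)) =
      P.map (Germ.coeRingHom (UU : Filter ℕ)) := by
    ext1 i c
    rfl
  have h2 : (P.map (Germ.coeRingHom (UU : Filter ℕ))).det =
      (Germ.coeRingHom (UU : Filter ℕ)) P.det := (RingHom.map_det _ _).symm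
  have h3 : P.det = fun t => (M t).det := by
    funext t
    have h4 : (Pi.evalRingHom (fun _ => ℚ) t) P.det = (P.map (Pi.evalRingHom (fun _ => ℚ) t)).det :=
      RingHom.map_det _ _
    exact h4
  rw [h1]
  refine h2.trans ?_
  rw [h3]
  rfl

/-- multiples of good tangent data -/
lemma Good.smul {G : Type} [Field G] [CharZero G] {r ν : ℕ} {K : Subfield G} {u : Fin r → G}
    {V τ : Fin r → Fin ν → K} (h : Good K u V τ) (κ : K) :
    Good K u V (fun j i => κ * τ j i) := by
  classical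
  intro F e hF α0 h0
  have h1 := h F e hF α0 h0
  rw [cs_DG] at h1 ⊢
  have h2 : ∀ x : Fin r × Fin ν, ((κ * τ x.1 x.2 : K) : G) *
      cs K u V F (PG V (pderiv x.2 F) * X x.1) α0.1 =
      (κ : G) * ((τ x.1 x.2 : G) * cs K u V F (PG V (pderiv x.2 F) * X x.1) α0.1) := by
    intro x
    rw [MulMemClass.coe_mul]
    ring
  rw [Finset.sum_congr rfl fun x _ => h2 x, ← Finset.mul_sum, h1, mul_zero]

/-- the residue fields have characteristic zero -/
lemma charZero_res {L : ℕ → ℝ} (hL : Tendsto L atTop atTop) {w : AbsoluteValue ℚ ℝ} (hw : Pl w) :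
    CharZero (IsLocalRing.ResidueField (OO L hL w)) := by
  let φ : KK L hL →+* OO L hL w :=
    { toFun := fun x => ⟨x, KK_le hL hw x.2⟩
      map_one' := rfl
      map_mul' := fun _ _ => rfl
      map_zero' := rfl
      map_add' := fun _ _ => rfl }
  exact charZero_of_injective_ringHom
    (f := (IsLocalRing.residue (OO L hL w)).comp φ) (RingHom.injective _)

/-- common denominators of finitely many units -/
lemma exists_den {s r : ℕ} (b : Fin s → ℕ) (hb : ∀ v, (b v).Prime) (u : Fin r → ℚ)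
    (hu : ∀ j, IsSU b (u j)) : ∃ k : Fin s → ℕ, ∀ j, ∃ z : ℤ,
      (z : ℚ) = (∏ v, (b v : ℚ) ^ k v) * u j := by
  classical
  choose σ e hσ he using hu
  obtain ⟨K, hK⟩ : ∃ K : Fin s → ℕ, ∀ j v, 0 ≤ (K v : ℤ) + e j v := by
    refine ⟨fun v => ∑ j, (e j v).natAbs, fun j v => ?_⟩
    have h2 := Finset.single_le_sum (f := fun j => (e j v).natAbs) (fun _ _ => Nat.zero_le _)
      (Finset.mem_univ j)
    have h3 : (((e j v).natAbs : ℕ) : ℤ) ≤ ((∑ j, (e j v).natAbs : ℕ) : ℤ) := by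
      exact_mod_cast h2
    have h4 : -(((e j v).natAbs : ℕ) : ℤ) ≤ e j v := by omega
    linarith
  refine ⟨K, fun j => ⟨σ j * ∏ v, (b v : ℤ) ^ ((K v : ℤ) + e j v).toNat, ?_⟩⟩
  rw [he j]
  push_cast
  rw [mul_left_comm, ← Finset.prod_mul_distrib]
  congr 1
  refine Finset.prod_congr rfl fun v _ => ?_
  have hb0 : (b v : ℚ) ≠ 0 := by exact_mod_cast (hb v).ne_zero
  rw [← zpow_natCast, ← zpow_natCast, ← zpow_add₀ hb0]
  congr 1
  rw [Int.toNat_of_nonneg (hK j v)]

variable {s sc g q w ν n r : ℕ} {L : ℕ → ℝ}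

/-- **The inequality of heights along a sequence.** -/
theorem seq_ineq (b : Fin s → ℕ) (hb : ∀ v, (b v).Prime) (hbi : Function.Injective b)
    (hL : Tendsto L atTop atTop) (hν : ν = n + sc) (Gp : Fin g → MvPolynomial (Fin ν) ℤ)
    (e : Fin g → ℕ) (hGh : ∀ a, (Gp a).IsHomogeneous (e a))
    (F : Fin q → Fin w → MvPolynomial (Fin ν) ℤ) (d : Fin q → Fin w → ℕ)
    (hFh : ∀ i j, (F i j).IsHomogeneous (d i j)) (hnc : NCf ℂ sc Gp F)
    (x : ℕ → Fin ν → ℤ) (hprim : ∀ t, Finset.univ.gcd (x t) = 1)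
    (U : Fin r → GG) (hUS : ∀ j, GSU b (U j)) (hbd : ∀ j, Bd L (U j))
    (V : Fin r → Fin ν → KK L hL)
    (hXs : ∀ y, gm (fun t => (x t y : ℚ)) = ∑ j, U j * (V j y : GG))
    (hGx : ∀ t a, eval (x t) (Gp a) = 0) (J0 : Fin n → Fin ν)
    (hgen : ∀ (Φ : MvPolynomial (Fin n) ℚ) (e : ℕ), Φ.IsHomogeneous e → Φ ≠ 0 →
      ∀ᶠ t in (UU : Filter ℕ), aeval (fun i => (x t (J0 i) : ℚ)) Φ ≠ 0)
    (ε : ℝ) (hε : 0 < ε) :
    ∀ᶠ t in (UU : Filter ℕ), ∀ AA : Matrix (Fin ν) (Fin n) ℤ,
      (∀ y : Fin n → ℚ, (∀ j, ∑ c, (AA j c : ℚ) * y c = 0) → y = 0) →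
      (∀ a c, ∑ j, eval (x t) (pderiv j (Gp a)) * AA j c = 0) →
      ∑ i, (locInf (F i) (d i) (Finset.univ.sup (fun i => (x t i).natAbs)) (x t) +
        ∑ v, locP (F i) (b v) (x t)) +
      Real.log (ratio (fun J : Fin n → Fin ν => (AA.submatrix J id).det)) ≤
      n * Real.log ((Finset.univ.sup (fun i => (x t i).natAbs) : ℕ) : ℝ) + ε * L t := by
  classical
  -- the germs
  have hUS' := hUS
  choose uq' hU huq' using hUS'
  set uq : ℕ → Fin r → ℚ := fun t j => uq' j t with huqdef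
  have huq : ∀ t j, IsSU b (uq t j) := fun t j => huq' j t
  have hU0 : ∀ j, U j ≠ 0 := fun j => gsu_ne_zero hb (hUS j)
  have hNK : ∀ m' : ℕ → ℤ, Negl L m' → gm (fun t => (m' t : ℚ)) ∈ KK L hL := fun m' hm' =>
    ⟨_, _, hm', Negl.one hL, by simp, by
      congr 1
      funext t
      simp⟩
  set X : Fin ν → GG := fun y => gm (fun t => (x t y : ℚ)) with hX
  have hevX : ∀ P : MvPolynomial (Fin ν) ℤ, evi X P =
      gm (fun t => ((eval (x t) P : ℤ) : ℚ)) := by
    intro P
    rw [← evi_eq_aeval, hX, aeval_gm']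
    congr 1
    funext t
    rw [evi_eq_aeval, evi_cast]
  obtain ⟨τ0, hτ0, hdet0⟩ := exists_good hL U hU0 V J0 (by
    intro Φ e' h1 h2
    have h3 : (fun i => ∑ j, U j * (V j (J0 i) : GG)) = fun i => gm (fun t => (x t (J0 i) : ℚ)) := by
      funext i
      rw [← hXs]
    rw [h3, aeval_gm', gm_ne_zero]
    exact hgen Φ e' h1 h2)
  -- clearing denominators
  have h0 : ∀ z : Fin n × Fin r × Fin ν, ∃ m' d' : ℕ → ℤ, Negl L m' ∧ Negl L d' ∧
    (∀ᶠ t in (UU : Filter ℕ), d' t ≠ 0) ∧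
    (τ0 z.1 z.2.1 z.2.2 : GG) = gm fun t => (m' t : ℚ) / d' t := fun z => (τ0 z.1 z.2.1 z.2.2).2
  choose M0 d0 hM0 hd0 hd0' hg0 using h0
  have hd1 : ∀ᶠ t in (UU : Filter ℕ), ∀ z, d0 z t ≠ 0 := eventually_all.2 hd0'
  set κ : KK L hL := ⟨gm (fun t => ((∏ z, d0 z t : ℤ) : ℚ)), hNK _ (Negl.prod hL _ fun z _ => hd0 z)⟩
    with hκ
  have hκ0 : (κ : GG) ≠ 0 := by
    rw [hκ]
    change gm _ ≠ 0
    rw [gm_ne_zero]
    filter_upwards [hd1] with t ht
    exact_mod_cast Finset.prod_ne_zero_iff.2 fun z _ => ht z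
  set M : Fin n × Fin r × Fin ν → ℕ → ℤ := fun z t => M0 z t * ∏ z' ∈ Finset.univ.erase z, d0 z' t
    with hM
  set τ : Fin n → Fin r → Fin ν → KK L hL := fun c j y => κ * τ0 c j y with hτdef
  have hτM : ∀ c j y, (τ c j y : GG) = gm (fun t => (M (c, j, y) t : ℚ)) := by
    intro c j y
    rw [hτdef]
    simp only
    rw [MulMemClass.coe_mul, hg0 (c, j, y), hκ]
    simp only
    rw [gm_mul, gm_eq]
    filter_upwards [hd1] with t ht
    have h2 : (d0 (c, j, y) t : ℚ) ≠ 0 := by exact_mod_cast ht (c, j, y)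
    rw [hM]
    simp only
    rw [← Finset.mul_prod_erase _ _ (Finset.mem_univ ((c, j, y) : Fin n × Fin r × Fin ν))]
    push_cast
    field_simp
  have hτgood : ∀ c, Good (KK L hL) U V (τ c) := fun c => (hτ0 c).smul κ
  set T : Matrix (Fin ν) (Fin n) GG := Matrix.of fun y c => ∑ j, U j * (τ c j y : GG) with hT
  set tq : ℕ → Matrix (Fin ν) (Fin n) ℚ := fun t =>
    Matrix.of fun y c => ∑ j, uq t j * (M (c, j, y) t : ℚ) with htq
  have hTt : ∀ y c, T y c = gm (fun t => tq t y c) := by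
    intro y c
    rw [hT, Matrix.of_apply]
    have h1 : ∀ j, U j * (τ c j y : GG) = gm (fun t => uq t j * (M (c, j, y) t : ℚ)) := by
      intro j
      rw [hτM, hU, gm_mul]
    rw [Finset.sum_congr rfl fun j _ => h1 j, gm_sum']
    rfl
  have hdetJ : ∀ J : Fin n → Fin ν, (T.submatrix J id).det =
      gm (fun t => ((tq t).submatrix J id).det) := by
    intro J
    rw [← det_gm]
    congr 1
    ext1 i c
    rw [Matrix.submatrix_apply, Matrix.of_apply, hTt]
    rfl
  have hdetT : (T.submatrix J0 id).det ≠ 0 := by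
    have h1 : T.submatrix J0 id = (κ : GG) •
        (Matrix.of fun (i c : Fin n) => ∑ j, U j * (τ0 c j (J0 i) : GG)) := by
      ext1 i c
      rw [Matrix.submatrix_apply, Matrix.smul_apply, Matrix.of_apply, hT, Matrix.of_apply,
        smul_eq_mul, Finset.mul_sum]
      refine Finset.sum_congr rfl fun j _ => ?_
      rw [hτdef]
      simp only
      rw [MulMemClass.coe_mul]
      simp only [id]
      ring
    rw [h1, Matrix.det_smul]
    exact mul_ne_zero (pow_ne_zero _ hκ0) hdet0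
  have hdet1 : ∀ᶠ t in (UU : Filter ℕ), ((tq t).submatrix J0 id).det ≠ 0 := by
    rw [hdetJ, gm_ne_zero] at hdetT
    exact hdetT
  -- the gradients
  have hGX : ∀ a, evi X (Gp a) = 0 := by
    intro a
    rw [hevX, ← gm_zero]
    congr 1
    funext t
    rw [hGx, Int.cast_zero]
  have hgrad : ∀ᶠ t in (UU : Filter ℕ), ∀ a c,
      ∑ y, ((eval (x t) (pderiv y (Gp a)) : ℤ) : ℚ) * tq t y c = 0 := by
    refine eventually_all.2 fun a => eventually_all.2 fun c => ?_
    have h1 := val_deriv_le b hb hbi hL U hUS hbd V (τ c) (hτgood c) none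
      (map (Int.castRingHom ℚ) (Gp a)) (e a) ((hGh a).map _)
    rw [← funext hXs, evi_eq_aeval, hGX, map_zero] at h1
    have h2 := le_antisymm h1 zero_le
    rw [Valuation.zero_iff] at h2
    have h3 : ∑ y, evi X (pderiv y (Gp a)) * T y c = 0 := by
      rw [← h2]
      refine Finset.sum_congr rfl fun y _ => ?_
      rw [pderiv_map, evi_eq_aeval, hT, Matrix.of_apply]
    have h4 : ∀ y, evi X (pderiv y (Gp a)) * T y c =
        gm (fun t => ((eval (x t) (pderiv y (Gp a)) : ℤ) : ℚ) * tq t y c) := by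
      intro y
      rw [hevX, hTt, gm_mul]
    rw [Finset.sum_congr rfl fun y _ => h4 y, gm_sum', ← gm_zero, gm_eq] at h3
    exact h3
  -- the places
  have hνne : Nonempty (Fin ν) := by
    by_contra hcon
    rw [not_nonempty_iff] at hcon
    have h1 := hprim 0
    rw [Finset.univ_eq_empty, Finset.gcd_empty] at h1
    exact zero_ne_one h1
  have hy : ∀ v : Option (Fin s), ∃ y0 : Fin ν, ∀ᶠ t in (UU : Filter ℕ), ∀ y,
      wv b hb v (x t y : ℚ) ≤ wv b hb v (x t y0 : ℚ) := fun v =>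
    const_of_ev (Eventually.of_forall fun t => Finite.exists_max fun y => wv b hb v (x t y : ℚ))
  choose y0 hy0 using hy
  have hXy0 : ∀ v, X (y0 v) ≠ 0 := by
    intro v
    rw [hX]
    simp only
    rw [gm_ne_zero]
    filter_upwards [hy0 v] with t ht h1
    have h2 : ∀ y, x t y = 0 := by
      intro y
      have h3 := ht y
      rw [h1, map_zero] at h3
      have h4 := le_antisymm h3 ((wv b hb v).nonneg _)
      rw [(wv b hb v).eq_zero] at h4
      exact_mod_cast h4
    have h3 := hprim t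
    have h4 : Finset.univ.gcd (x t) = 0 := by
      rw [Finset.gcd_eq_zero_iff]
      exact fun y _ => h2 y
    rw [h4] at h3
    exact zero_ne_one h3
  have hplace : ∀ v, ∃ jj : Fin q → Fin w, (∀ i, evi X (F i (jj i)) ≠ 0) ∧ ∀ J : Fin n → Fin ν,
      (OO L hL (wv b hb v)).valuation ((T.submatrix J id).det * ∏ i, X (y0 v) ^ (d i (jj i))) ≤
        (OO L hL (wv b hb v)).valuation (X (y0 v) ^ n * ∏ i, evi X (F i (jj i))) := by
    intro v
    have hcz := charZero_res hL (pl_wv b hb v)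
    refine place_ineq b hb hbi hL hν U hUS hbd V τ hτgood v X hXs T
      (fun y c => by rw [hT, Matrix.of_apply]) Gp e hGh F d hFh (NCf.transfer hnc) hGX J0 hdetT
      (y0 v) (hXy0 v) ?_
    intro y
    apply le_val
    intro ε' hε'
    filter_upwards [hy0 v, L_nonneg hL] with t ht ht2
    refine (ht y).trans ?_
    have h1 : (1 : ℝ) ≤ Real.exp (ε' * L t) := Real.one_le_exp (by positivity)
    have h2 := (wv b hb v).nonneg (x t (y0 v) : ℚ)
    nlinarith
  choose jj hjj hval using hplace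
  have hF1 : ∀ᶠ t in (UU : Filter ℕ), ∀ v i, eval (x t) (F i (jj v i)) ≠ 0 := by
    refine eventually_all.2 fun v => eventually_all.2 fun i => ?_
    have h1 := hjj v i
    rw [hevX, gm_ne_zero] at h1
    filter_upwards [h1] with t ht
    exact_mod_cast ht
  have hs0 : (0 : ℝ) < s + 1 := by positivity
  have hineq : ∀ᶠ t in (UU : Filter ℕ), ∀ v (J : Fin n → Fin ν),
      wv b hb v (((tq t).submatrix J id).det * ∏ i, (x t (y0 v) : ℚ) ^ (d i (jj v i))) ≤
      wv b hb v ((x t (y0 v) : ℚ) ^ n * ∏ i, ((eval (x t) (F i (jj v i)) : ℤ) : ℚ)) *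
        Real.exp (ε / (s + 1) * L t) := by
    refine eventually_all.2 fun v => eventually_all.2 fun J => ?_
    have h1 := hval v J
    rw [hdetJ] at h1
    have h2 : ∀ i, X (y0 v) ^ (d i (jj v i)) =
        gm (fun t => (x t (y0 v) : ℚ) ^ (d i (jj v i))) := fun i => by
      rw [hX]
      simp only
      rw [gm_pow]
    rw [Finset.prod_congr rfl fun i _ => h2 i, Finset.prod_congr rfl fun i _ => hevX _,
      gm_prod', gm_prod', gm_mul] at h1
    have h3 : X (y0 v) ^ n = gm (fun t => (x t (y0 v) : ℚ) ^ n) := by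
      rw [hX]
      simp only
      rw [gm_pow]
    rw [h3, gm_mul] at h1
    exact val_le hL _ h1 _ (by positivity)
  filter_upwards [hdet1, hgrad, eventually_all.2 hy0, hF1, hineq] with t h1 h2 h3 h4 h5
  intro AA hAA hGA
  obtain ⟨k, hk⟩ := exists_den b hb (uq t) (huq t)
  have hφ : ℚ →+* ℂ := algebraMap ℚ ℂ
  have key := at_point b hb hbi hν Gp F d (NCf.of_hom (algebraMap ℚ ℂ) hnc) (x t) (hprim t)
    (hGx t) (tq t) h2 k (by
      intro y c
      choose z hz using hk
      refine ⟨∑ j, z j * M (c, j, y) t, ?_⟩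
      rw [htq]
      simp only [Matrix.of_apply]
      push_cast
      rw [Finset.mul_sum]
      refine Finset.sum_congr rfl fun j _ => ?_
      rw [hz]
      ring) J0 h1 y0 h3 jj h4 (ε / (s + 1) * L t) h5 AA hAA hGA
  refine key.trans (le_of_eq ?_)
  congr 1
  field_simp

end Pool.Agent.Y724.Vj
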