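import Mathlib
import Pool.Agent.Y724.Vj.Seq
import Pool.Agent.TH551.SU.CS
import Pool.Agent.Y724.Vj.GT

/-!
# Vojta's inequality at the points that are short sums of S-units
-/

set_option autoImplicit false

namespace Pool.Agent.Y724.Vj

open MvPolynomial Filter Topology Pool.Agent.TH932.Germs Pool.Agent.TH551.SU
open Pool.Agent.TH585.VF Pool.Agent.TH551.SU.SUI

/-- the maximum of the absolute values of the coordinates -/
def hh {ν : ℕ} (x : Fin ν → ℤ) : ℕ := Finset.univ.sup (fun i => (x i).natAbs)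

lemma hh_pos {ν : ℕ} (x : Fin ν → ℤ) (hprim : Finset.univ.gcd x = 1) : 1 ≤ hh x := by
  by_contra hcon
  have h0 : hh x = 0 := by omega
  have h1 : Finset.univ.gcd x = 0 := by
    rw [Finset.gcd_eq_zero_iff]
    intro y _
    have h2 := Finset.le_sup (f := fun i => (x i).natAbs) (Finset.mem_univ y)
    have h3 : (x y).natAbs ≤ hh x := h2
    exact Int.natAbs_eq_zero.1 (by omega)
  rw [h1] at hprim
  exact zero_ne_one hprim

lemma le_hh {ν : ℕ} (x : Fin ν → ℤ) (y : Fin ν) : |(x y : ℝ)| ≤ hh x := by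
  have h2 := Finset.le_sup (f := fun i => (x i).natAbs) (Finset.mem_univ y)
  have h3 : (x y).natAbs ≤ hh x := h2
  rw [← Int.cast_abs, Int.abs_eq_natAbs, Int.cast_natCast]
  exact_mod_cast h3

/-- `x` is proportional to a sum of `r` integer vectors of size at most `B * H(x) ^ δ` multiplied
by units -/
def Short {s ν : ℕ} (b : Fin s → ℕ) (r : ℕ) (B δ : ℝ) (x : Fin ν → ℤ) : Prop :=
  ∃ (lam : ℚ) (u : Fin r → ℚ) (m : Fin r → Fin ν → ℤ), lam ≠ 0 ∧ (∀ j, IsSU b (u j)) ∧
    (∀ j y, |(m j y : ℝ)| ≤ B * (hh x : ℝ) ^ δ) ∧ ∀ y, lam * x y = ∑ j, u j * m j y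

/-- the inequality at `x` -/
def Ineq {s g q w ν : ℕ} (n : ℕ) (b : Fin s → ℕ) (Gp : Fin g → MvPolynomial (Fin ν) ℤ)
    (F : Fin q → Fin w → MvPolynomial (Fin ν) ℤ) (d : Fin q → Fin w → ℕ) (x : Fin ν → ℤ)
    (T : ℝ) : Prop :=
  ∀ AA : Matrix (Fin ν) (Fin n) ℤ,
    (∀ y : Fin n → ℚ, (∀ j, ∑ c, (AA j c : ℚ) * y c = 0) → y = 0) →
    (∀ a c, ∑ j, eval x (pderiv j (Gp a)) * AA j c = 0) →
    ∑ i, (locInf (F i) (d i) (hh x) x + ∑ v, locP (F i) (b v) x) +
      Real.log (ratio (fun J : Fin n → Fin ν => (AA.submatrix J id).det)) ≤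
      n * Real.log (hh x : ℝ) + T

/-- the statement for sums of `r` terms -/
def PP {s g q w ν n : ℕ} (b : Fin s → ℕ) (Gp : Fin g → MvPolynomial (Fin ν) ℤ)
    (F : Fin q → Fin w → MvPolynomial (Fin ν) ℤ) (d : Fin q → Fin w → ℕ) (J0 : Fin n → Fin ν)
    (B ε : ℝ) (r : ℕ) : Prop :=
  ∃ (δ : ℝ) (Ψ : MvPolynomial (Fin n) ℚ) (k : ℕ) (C : ℝ), 0 < δ ∧ Ψ ≠ 0 ∧ Ψ.IsHomogeneous k ∧
    ∀ x : Fin ν → ℤ, Finset.univ.gcd x = 1 → (∀ a, eval x (Gp a) = 0) → Short b r B δ x →
      aeval (fun i => (x (J0 i) : ℚ)) Ψ ≠ 0 →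
      Ineq n b Gp F d x (ε * Real.log (hh x : ℝ) + C)

/-- the height of a rational number -/
noncomputable def eta (q : ℚ) : ℝ := Real.log (max |(q.num : ℝ)| (q.den : ℝ))

lemma eta_nonneg (q : ℚ) : 0 ≤ eta q := by
  unfold eta
  apply Real.log_nonneg
  have : (1 : ℝ) ≤ q.den := by exact_mod_cast q.pos
  exact le_max_of_le_right this

lemma num_le_eta (q : ℚ) : |(q.num : ℝ)| ≤ Real.exp (eta q) := by
  unfold eta
  have h1 : (1 : ℝ) ≤ q.den := by exact_mod_cast q.pos
  have h2 : 0 < max |(q.num : ℝ)| (q.den : ℝ) := lt_of_lt_of_le one_pos (le_max_of_le_right h1)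
  rw [Real.exp_log h2]
  exact le_max_left _ _

lemma den_le_eta (q : ℚ) : (q.den : ℝ) ≤ Real.exp (eta q) := by
  unfold eta
  have h1 : (1 : ℝ) ≤ q.den := by exact_mod_cast q.pos
  have h2 : 0 < max |(q.num : ℝ)| (q.den : ℝ) := lt_of_lt_of_le one_pos (le_max_of_le_right h1)
  rw [Real.exp_log h2]
  exact le_max_right _ _

lemma gm_num_den (a : ℕ → ℚ) : gm a = gm (fun t => ((a t).num : ℚ) / (((a t).den : ℤ) : ℚ)) := by
  congr 1
  funext t
  exact_mod_cast (Rat.num_div_den (a t)).symm

lemma isSU_div' {s : ℕ} {b : Fin s → ℕ} (hb : ∀ v, (b v).Prime) {x y : ℚ} (hx : IsSU b x)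
    (hy : IsSU b y) : IsSU b (x / y) := by
  obtain ⟨σ, e, hσ, rfl⟩ := hx
  obtain ⟨σ', e', hσ', rfl⟩ := hy
  refine ⟨σ * σ', fun v => e v - e' v, ?_, ?_⟩
  · rcases hσ with rfl | rfl <;> rcases hσ' with rfl | rfl <;> simp
  · have h1 : ∀ v, (b v : ℚ) ^ (e v - e' v) = (b v : ℚ) ^ e v / (b v : ℚ) ^ e' v := fun v =>
      zpow_sub₀ (by exact_mod_cast (hb v).ne_zero) _ _
    rw [Finset.prod_congr rfl fun v _ => h1 v, Finset.prod_div_distrib]
    rcases hσ' with rfl | rfl
    · push_cast; ring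
    · push_cast; rw [neg_one_mul, div_neg]; ring

theorem step_PP {s g q w ν n sc : ℕ} (b : Fin s → ℕ) (hb : ∀ v, (b v).Prime)
    (hbi : Function.Injective b) (hν : ν = n + sc) (Gp : Fin g → MvPolynomial (Fin ν) ℤ)
    (e : Fin g → ℕ) (hGh : ∀ a, (Gp a).IsHomogeneous (e a))
    (F : Fin q → Fin w → MvPolynomial (Fin ν) ℤ) (d : Fin q → Fin w → ℕ)
    (hFh : ∀ i j, (F i j).IsHomogeneous (d i j)) (hnc : NCf ℂ sc Gp F) (J0 : Fin n → Fin ν)
    (B : ℝ) (hB : 1 ≤ B) (ε : ℝ) (hε : 0 < ε) (r : ℕ)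
    (ih : ∀ r' < r, PP b Gp F d J0 B ε r') : PP b Gp F d J0 B ε r := by
  classical
  by_contra hcon
  unfold PP at hcon
  push Not at hcon
  have hcount : Countable (MvPolynomial (Fin n) ℚ) := by
    rw [← Cardinal.mk_le_aleph0_iff]
    refine MvPolynomial.cardinalMk_le_max.trans ?_
    simp
  obtain ⟨f, hf⟩ := exists_surjective_nat (MvPolynomial (Fin n) ℚ)
  -- products of forms
  have hΨ : ∀ t : ℕ, ∃ (Ψ : MvPolynomial (Fin n) ℚ) (k : ℕ), Ψ ≠ 0 ∧ Ψ.IsHomogeneous k ∧
      ∀ i ≤ t, f i ≠ 0 → (∃ k, (f i).IsHomogeneous k) → f i ∣ Ψ := by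
    intro t
    induction t with
    | zero =>
      by_cases h : f 0 ≠ 0 ∧ ∃ k, (f 0).IsHomogeneous k
      · obtain ⟨h1, k, h2⟩ := h
        refine ⟨f 0, k, h1, h2, fun i hi _ _ => ?_⟩
        rw [Nat.le_zero.1 hi]
      · refine ⟨1, 0, one_ne_zero, isHomogeneous_one _ _, fun i hi h1 h2 => ?_⟩
        rw [Nat.le_zero.1 hi] at h1 h2
        exact absurd ⟨h1, h2⟩ h
    | succ t iht =>
      obtain ⟨Ψ, k, h1, h2, h3⟩ := iht
      by_cases h : f (t + 1) ≠ 0 ∧ ∃ k, (f (t + 1)).IsHomogeneous k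
      · obtain ⟨h4, k', h5⟩ := h
        refine ⟨Ψ * f (t + 1), k + k', mul_ne_zero h1 h4, h2.mul h5, fun i hi h6 h7 => ?_⟩
        rcases Nat.lt_or_ge i (t + 1) with h8 | h8
        · exact (h3 i (by omega) h6 h7).mul_right _
        · have : i = t + 1 := by omega
          rw [this]
          exact dvd_mul_left _ _
      · refine ⟨Ψ, k, h1, h2, fun i hi h6 h7 => ?_⟩
        rcases Nat.lt_or_ge i (t + 1) with h8 | h8
        · exact h3 i (by omega) h6 h7
        · have : i = t + 1 := by omega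
          rw [this] at h6 h7
          exact absurd ⟨h6, h7⟩ h
  choose Ψ kΨ hΨ0 hΨh hΨd using hΨ
  choose x hprim hGx hsh hΨx hviol using fun t : ℕ =>
    hcon (1 / ((t : ℝ) + 1)) (Ψ t) (kΨ t) t (by positivity) (hΨ0 t) (hΨh t)
  have hgen : ∀ (Φ : MvPolynomial (Fin n) ℚ) (e : ℕ), Φ.IsHomogeneous e → Φ ≠ 0 →
      ∀ᶠ t in (UU : Filter ℕ), aeval (fun i => (x t (J0 i) : ℚ)) Φ ≠ 0 := by
    intro Φ e' h1 h2
    obtain ⟨i, rfl⟩ := hf Φ
    filter_upwards [ev_of_atTop (eventually_ge_atTop i)] with t ht h3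
    obtain ⟨Q, hQ⟩ := hΨd t i ht h2 ⟨e', h1⟩
    apply hΨx t
    rw [hQ, map_mul, h3, zero_mul]
  choose lam0 u0 m hlam0 hu0 hm hx using hsh
  -- at least one term
  obtain ⟨r1, rfl⟩ : ∃ r1, r = r1 + 1 := by
    rcases r with _ | r1
    · exfalso
      have h1 := hprim 0
      have h2 : Finset.univ.gcd (x 0) = 0 := by
        rw [Finset.gcd_eq_zero_iff]
        intro y _
        have h3 := hx 0 y
        rw [Finset.univ_eq_empty, Finset.sum_empty] at h3
        exact_mod_cast (mul_eq_zero.1 h3).resolve_left (hlam0 0)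
      rw [h2] at h1
      exact zero_ne_one h1
    · exact ⟨r1, rfl⟩
  have hSU0 : ∀ t j, u0 t j ≠ 0 := by
    intro t j
    have h1 : GSU b (gm fun _ => u0 t j) := ⟨_, rfl, fun _ => hu0 t j⟩
    have h2 := gsu_ne_zero hb h1
    rw [gm_ne_zero] at h2
    obtain ⟨_, h3⟩ := h2.exists
    exact h3
  set uq : ℕ → Fin (r1 + 1) → ℚ := fun t j => u0 t j / u0 t 0 with huq
  set lam : ℕ → ℚ := fun t => lam0 t / u0 t 0 with hlam
  have hlamne : ∀ t, lam t ≠ 0 := fun t => div_ne_zero (hlam0 t) (hSU0 t 0)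
  have huqSU : ∀ t j, IsSU b (uq t j) := fun t j =>
    isSU_div' hb (hu0 t j) (hu0 t 0)
  have hxq : ∀ t y, lam t * x t y = ∑ j, uq t j * m t j y := by
    intro t y
    rw [hlam, huq]
    simp only
    rw [div_mul_eq_mul_div, hx, Finset.sum_div]
    exact Finset.sum_congr rfl fun j _ => by ring
  -- the scale
  set lh : ℕ → ℝ := fun t => Real.log (hh (x t) : ℝ) + Real.log ((t : ℝ) + 1) with hlh
  set L : ℕ → ℝ := fun t => lh t + ∑ j, eta (uq t j) with hLdef
  have hHpos : ∀ t, (1 : ℝ) ≤ hh (x t) := fun t => by exact_mod_cast hh_pos (x t) (hprim t)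
  have hlH0 : ∀ t, 0 ≤ Real.log (hh (x t) : ℝ) := fun t => Real.log_nonneg (hHpos t)
  have hlt0 : ∀ t : ℕ, 0 ≤ Real.log ((t : ℝ) + 1) := fun t =>
    Real.log_nonneg (by have : (0 : ℝ) ≤ t := Nat.cast_nonneg t; linarith)
  have hes0 : ∀ t, 0 ≤ ∑ j, eta (uq t j) := fun t => Finset.sum_nonneg fun j _ => eta_nonneg _
  have hL : Tendsto L atTop atTop := by
    have h1 : Tendsto (fun t : ℕ => Real.log ((t : ℝ) + 1)) atTop atTop :=
      Real.tendsto_log_atTop.comp (tendsto_atTop_add_const_right _ _ tendsto_natCast_atTop_atTop)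
    refine tendsto_atTop_mono (fun t => ?_) h1
    have h2 := hlH0 t
    have h3 := hes0 t
    change Real.log ((t : ℝ) + 1) ≤ (Real.log (hh (x t) : ℝ) + Real.log ((t : ℝ) + 1)) +
      ∑ j, eta (uq t j)
    linarith
  -- the germs
  set U : Fin (r1 + 1) → GG := fun j => gm (fun t => uq t j) with hU
  have hUS : ∀ j, GSU b (U j) := fun j => ⟨_, rfl, fun t => huqSU t j⟩
  have hU0 : ∀ j, U j ≠ 0 := fun j => gsu_ne_zero hb (hUS j)
  have heL : ∀ t j, eta (uq t j) ≤ L t := by
    intro t j
    have h1 := Finset.single_le_sum (f := fun j => eta (uq t j)) (fun j _ => eta_nonneg _)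
      (Finset.mem_univ j)
    have h2 := hlH0 t
    have h3 := hlt0 t
    change eta (uq t j) ≤ (Real.log (hh (x t) : ℝ) + Real.log ((t : ℝ) + 1)) +
      ∑ j, eta (uq t j)
    linarith
  have hbd : ∀ j, Bd L (U j) := by
    intro j
    refine ⟨fun t => (uq t j).num, fun t => ((uq t j).den : ℤ), 1, ?_, ?_, ?_, gm_num_den _⟩
    · refine Eventually.of_forall fun t => (num_le_eta _).trans (Real.exp_le_exp.2 ?_)
      rw [one_mul]
      exact heL t j
    · refine Eventually.of_forall fun t => ?_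
      rw [Int.cast_natCast, abs_of_nonneg (Nat.cast_nonneg _), one_mul]
      exact (den_le_eta _).trans (Real.exp_le_exp.2 (heL t j))
    · refine Eventually.of_forall fun t => ?_
      change (((uq t j).den : ℕ) : ℤ) ≠ 0
      exact_mod_cast (uq t j).den_ne_zero
  have hmN : ∀ j y, Negl L (fun t => m t j y) := by
    intro j y ε' hε'
    have h1 : ∀ᶠ t : ℕ in atTop, Real.log B ≤ ε' / 2 * L t := by
      filter_upwards [hL.eventually_ge_atTop (Real.log B / (ε' / 2))] with t ht
      rw [div_le_iff₀ (by positivity)] at ht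
      linarith
    have h2 : ∀ᶠ t : ℕ in atTop, 1 / ((t : ℝ) + 1) ≤ ε' / 2 := by
      have h3 : Tendsto (fun t : ℕ => 1 / ((t : ℝ) + 1)) atTop (𝓝 0) :=
        tendsto_one_div_add_atTop_nhds_zero_nat
      exact (h3.eventually (gt_mem_nhds (show (0 : ℝ) < ε' / 2 by positivity))).mono
        fun t ht => ht.le
    filter_upwards [ev_of_atTop h1, ev_of_atTop h2] with t h3 h4
    refine (hm t j y).trans ?_
    have h5 : (hh (x t) : ℝ) ^ (1 / ((t : ℝ) + 1)) ≤ Real.exp (ε' / 2 * L t) := by
      rw [Real.rpow_def_of_pos (lt_of_lt_of_le one_pos (hHpos t))]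
      apply Real.exp_le_exp.2
      have h6 : Real.log (hh (x t) : ℝ) ≤ L t := by
        have h7 := hlt0 t
        have h8 := hes0 t
        rw [hLdef, hlh]
        simp only
        linarith
      rw [mul_comm]
      exact mul_le_mul h4 h6 (hlH0 t) (by positivity)
    have h6 : B ≤ Real.exp (ε' / 2 * L t) := by
      rw [← Real.exp_log (lt_of_lt_of_le one_pos hB)]
      exact Real.exp_le_exp.2 h3
    calc B * (hh (x t) : ℝ) ^ (1 / ((t : ℝ) + 1)) ≤
        Real.exp (ε' / 2 * L t) * Real.exp (ε' / 2 * L t) :=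
          mul_le_mul h6 h5 (Real.rpow_nonneg (Nat.cast_nonneg _) _) (Real.exp_pos _).le
      _ = Real.exp (ε' * L t) := by rw [← Real.exp_add]; ring_nf
  have hNK : ∀ m' : ℕ → ℤ, Negl L m' → gm (fun t => (m' t : ℚ)) ∈ KK L hL := fun m' hm' =>
    ⟨_, _, hm', Negl.one hL, by simp, by
      congr 1
      funext t
      simp⟩
  set V : Fin (r1 + 1) → Fin ν → KK L hL := fun j y => ⟨_, hNK _ (hmN j y)⟩ with hV
  set X : Fin ν → GG := fun y => gm (fun t => (x t y : ℚ)) with hX
  have hlamX : ∀ y, gm lam * X y = ∑ j, U j * (V j y : GG) := by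
    intro y
    have h1 : ∀ j, U j * (V j y : GG) = gm (fun t => uq t j * m t j y) := fun j => by
      rw [← gm_mul]
    rw [Finset.sum_congr rfl fun j _ => h1 j, gm_sum', hX]
    simp only
    rw [gm_mul]
    congr 1
    funext t
    exact hxq t y
  have hlam1 : gm lam ≠ 0 := gm_ne_zero.2 (Eventually.of_forall hlamne)
  by_cases hcase : ∃ A : ℕ, ∀ᶠ t in (UU : Filter ℕ), L t ≤ ((A : ℝ) + 1) * lh t
  · -- the main case
    obtain ⟨A, hA⟩ := hcase
    have hxB : ∀ y, Bd L (gm (fun t => (x t y : ℚ))) := by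
      intro y
      refine ⟨fun t => x t y, fun _ => 1, 1, ?_, ?_, Eventually.of_forall fun t => one_ne_zero, ?_⟩
      · refine Eventually.of_forall fun t => ?_
        refine (le_hh (x t) y).trans ?_
        rw [← Real.exp_log (lt_of_lt_of_le one_pos (hHpos t))]
        apply Real.exp_le_exp.2
        have h7 := hlt0 t
        have h8 := hes0 t
        change _ ≤ 1 * ((Real.log (hh (x t) : ℝ) + Real.log ((t : ℝ) + 1)) +
          ∑ j, eta (uq t j))
        linarith
      · filter_upwards [L_nonneg hL] with t ht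
        rw [Int.cast_one, abs_one, one_mul]
        exact Real.one_le_exp ht
      · congr 1
        funext t
        simp
    obtain ⟨r', u', V', h1, h2, h3⟩ := gt_core b hb hbi hL U hUS hbd V x hprim hxB (gm lam)
      hlam1 hlamX
    have hmin : 0 < min ε 1 := lt_min hε one_pos
    have key := seq_ineq b hb hbi hL hν Gp e hGh F d hFh hnc x hprim u' h1 h2 V' h3 hGx J0 hgen
      (min ε 1 / ((A : ℝ) + 1)) (by positivity)
    obtain ⟨t, h4, h5⟩ := (key.and hA).exists
    apply hviol t
    intro AA hAA hGA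
    have h6 := h4 AA hAA hGA
    refine h6.trans ?_
    change n * Real.log (hh (x t) : ℝ) + min ε 1 / ((A : ℝ) + 1) * L t ≤ _
    have hA0 : (0 : ℝ) < (A : ℝ) + 1 := by positivity
    have h7 : min ε 1 / ((A : ℝ) + 1) * L t ≤ min ε 1 * lh t := by
      rw [div_mul_eq_mul_div, div_le_iff₀ hA0]
      have := mul_le_mul_of_nonneg_left h5 hmin.le
      linarith
    have h8 : min ε 1 * lh t ≤ ε * Real.log (hh (x t) : ℝ) + t := by
      rw [hlh]
      simp only
      rw [mul_add]
      have h9 : min ε 1 * Real.log (hh (x t) : ℝ) ≤ ε * Real.log (hh (x t) : ℝ) :=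
        mul_le_mul_of_nonneg_right (min_le_left _ _) (hlH0 t)
      have h10 : min ε 1 * Real.log ((t : ℝ) + 1) ≤ 1 * Real.log ((t : ℝ) + 1) :=
        mul_le_mul_of_nonneg_right (min_le_right _ _) (hlt0 t)
      have h11 : Real.log ((t : ℝ) + 1) ≤ t := by
        have h12 : (0 : ℝ) < (t : ℝ) + 1 := by positivity
        have := Real.log_le_sub_one_of_pos h12
        linarith
      linarith
    linarith
  · -- the height of the point is negligible
    push Not at hcase
    have hsmall : ∀ ε' : ℝ, 0 < ε' → ∀ᶠ t in (UU : Filter ℕ), lh t ≤ ε' * L t := by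
      intro ε' hε'
      obtain ⟨A, hA⟩ := exists_nat_ge (1 / ε')
      filter_upwards [hcase A] with t ht
      have hlh0 : 0 ≤ lh t := add_nonneg (hlH0 t) (hlt0 t)
      have h1 : 1 / ε' * lh t ≤ L t := by nlinarith
      rw [one_div, inv_mul_le_iff₀ hε'] at h1
      exact h1
    have hXK : ∀ y, X y ∈ KK L hL := by
      intro y
      apply hNK
      intro ε' hε'
      filter_upwards [hsmall ε' hε'] with t ht
      refine (le_hh (x t) y).trans ?_
      rw [← Real.exp_log (lt_of_lt_of_le one_pos (hHpos t))]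
      apply Real.exp_le_exp.2
      have := hlt0 t
      rw [hlh] at ht
      simp only at ht
      linarith
    obtain ⟨y1, hy1⟩ : ∃ y, X y ≠ 0 := by
      by_contra hno
      push Not at hno
      have h1 : ∀ᶠ t in (UU : Filter ℕ), ∀ y, x t y = 0 := by
        refine eventually_all.2 fun y => ?_
        have h2 := hno y
        rw [hX] at h2
        simp only at h2
        rw [← gm_zero, gm_eq] at h2
        filter_upwards [h2] with t ht
        exact_mod_cast ht
      obtain ⟨t, ht⟩ := h1.exists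
      have h2 := hprim t
      have h3 : Finset.univ.gcd (x t) = 0 := by
        rw [Finset.gcd_eq_zero_iff]
        exact fun y _ => ht y
      rw [h3] at h2
      exact zero_ne_one h2
    -- a class with nonzero sum
    obtain ⟨j0, y2, hj0⟩ : ∃ (j0 : Fin (r1 + 1)) (y2 : Fin ν),
        ∑ j with U j / U j0 ∈ KK L hL, (V j y2 : GG) * U j ≠ 0 := by
      by_contra hno
      push Not at hno
      have h1 : ∀ y, ∑ j, (V j y : GG) * U j = 0 := by
        intro y
        have h2 := ub_class b hb hL U hU0 (fun j => V j y) none 0 (by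
          intro j0
          left
          intro p _ hp
          rw [← hno j0 y]
          refine Finset.sum_congr ?_ fun _ _ => rfl
          ext j
          simp only [Finset.mem_filter, Finset.mem_univ, true_and]
          exact hp j)
        rw [map_zero] at h2
        have h3 := le_antisymm h2 zero_le
        rwa [Valuation.zero_iff] at h3
      have h4 := hlamX y1
      have h5 : ∑ j, U j * (V j y1 : GG) = 0 := by
        rw [← h1 y1]
        exact Finset.sum_congr rfl fun j _ => mul_comm _ _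
      rw [h5] at h4
      rcases mul_eq_zero.1 h4 with h6 | h6
      · exact hlam1 h6
      · exact hy1 h6
    set J1 : Finset (Fin (r1 + 1)) := Finset.univ.filter fun j => U j / U j0 ∈ KK L hL with hJ1
    -- proportionality
    have hprop : ∀ y y', X y' * ∑ j ∈ J1, (V j y : GG) * U j =
        X y * ∑ j ∈ J1, (V j y' : GG) * U j := by
      intro y y'
      have h1 := CS.cs SUI.sui s b hb hbi L hL (Fin (r1 + 1)) Finset.univ
        (fun j => (⟨X y', hXK y'⟩ : KK L hL) * V j y - (⟨X y, hXK y⟩ : KK L hL) * V j y') U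
        (fun j => if U j / U j0 ∈ KK L hL then 1 else 0) (fun j _ => hUS j) (by
          intro i _ j _ hij
          have h2 : U i / U j0 ∈ KK L hL ↔ U j / U j0 ∈ KK L hL := by
            constructor
            · intro h3
              have h4 := (KK L hL).div_mem h3 hij
              have h5 : U i / U j0 / (U i / U j) = U j / U j0 := by
                have := hU0 i
                have := hU0 j
                have := hU0 j0
                field_simp
              rwa [h5] at h4
            · intro h3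
              have h4 := (KK L hL).mul_mem h3 hij
              have h5 : U j / U j0 * (U i / U j) = U i / U j0 := by
                have := hU0 i
                have := hU0 j
                have := hU0 j0
                field_simp
              rwa [h5] at h4
          simp only [h2]) (by
          have h2 : ∀ j, (((⟨X y', hXK y'⟩ : KK L hL) * V j y -
              (⟨X y, hXK y⟩ : KK L hL) * V j y' : KK L hL) : GG) * U j =
              X y' * (U j * (V j y : GG)) - X y * (U j * (V j y' : GG)) := by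
            intro j
            push_cast
            ring
          rw [Finset.sum_congr rfl fun j _ => h2 j, Finset.sum_sub_distrib, ← Finset.mul_sum,
            ← Finset.mul_sum, ← hlamX, ← hlamX]
          ring)
      have h3 := congrArg (fun p => Polynomial.coeff p 1) h1
      simp only [Polynomial.finsetSum_coeff, Polynomial.coeff_zero,
        Polynomial.coeff_C_mul_X_pow] at h3
      have h4 : ∀ j, (if 1 = (if U j / U j0 ∈ KK L hL then 1 else 0) then
          (((⟨X y', hXK y'⟩ : KK L hL) * V j y -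
            (⟨X y, hXK y⟩ : KK L hL) * V j y' : KK L hL) : GG) * U j else 0) =
          if U j / U j0 ∈ KK L hL then
            X y' * ((V j y : GG) * U j) - X y * ((V j y' : GG) * U j) else 0 := by
        intro j
        by_cases h5 : U j / U j0 ∈ KK L hL
        · rw [if_pos h5, if_pos rfl, if_pos h5]
          push_cast
          ring
        · rw [if_neg h5, if_neg h5, if_neg one_ne_zero]
      rw [Finset.sum_congr rfl fun j _ => h4 j, ← Finset.sum_filter, Finset.sum_sub_distrib,
        ← Finset.mul_sum, ← Finset.mul_sum] at h3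
      exact sub_eq_zero.1 h3
    set mu : GG := (∑ j ∈ J1, (V j y1 : GG) * U j) / X y1 with hmu
    have hW : ∀ y, mu * X y = ∑ j ∈ J1, (V j y : GG) * U j := by
      intro y
      rw [hmu, div_mul_eq_mul_div, div_eq_iff hy1, mul_comm _ (X y), ← hprop y y1, mul_comm]
    have hmu0 : mu ≠ 0 := by
      intro h0
      apply hj0
      rw [← hW, h0, zero_mul]
    -- the class is proper
    have hcard : J1.card < r1 + 1 := by
      by_contra hge
      have h1 : J1 = Finset.univ := by
        apply Finset.eq_univ_of_card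
        have := J1.card_le_univ
        rw [Fintype.card_fin] at this ⊢
        omega
      have h2 : ∀ j, U j / U j0 ∈ KK L hL := by
        intro j
        have : j ∈ J1 := by rw [h1]; exact Finset.mem_univ _
        exact (Finset.mem_filter.1 this).2
      have hU00 : U 0 = 1 := by
        rw [hU, ← gm_one]
        simp only
        congr 1
        funext t
        exact div_self (hSU0 t 0)
      have h3 : ∀ j, U j ∈ KK L hL := by
        intro j
        have h4 := (KK L hL).div_mem (h2 j) (h2 0)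
        rw [hU00] at h4
        have h5 : U j / U j0 / (1 / U j0) = U j := by
          have := hU0 j0
          field_simp
        rwa [h5] at h4
      have h4 : ∀ ε' : ℝ, 0 < ε' → ∀ᶠ t in (UU : Filter ℕ), ∀ j, eta (uq t j) ≤ ε' * L t := by
        intro ε' hε'
        refine eventually_all.2 fun j => ?_
        obtain ⟨h5, h6⟩ := (mem_KK_iff hL _).1 (h3 j)
        filter_upwards [h5 ε' hε', h6 ε' hε', L_nonneg hL] with t h7 h8 h9
        unfold eta
        rw [Int.cast_natCast, abs_of_nonneg (Nat.cast_nonneg _)] at h8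
        have h10 : (1 : ℝ) ≤ (uq t j).den := by exact_mod_cast (uq t j).pos
        have h11 : 0 < max |((uq t j).num : ℝ)| ((uq t j).den : ℝ) :=
          lt_of_lt_of_le one_pos (le_max_of_le_right h10)
        rw [Real.log_le_iff_le_exp h11]
        exact max_le h7 h8
      have hr0 : (0 : ℝ) < (r1 : ℝ) + 1 := by positivity
      obtain ⟨t, h5, h6, h7⟩ := ((hsmall (1 / 4) (by norm_num)).and
        ((h4 (1 / (4 * ((r1 : ℝ) + 1))) (by positivity)).and
          (ev_of_atTop (hL.eventually_gt_atTop 0)))).exists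
      have h8 : ∑ j, eta (uq t j) ≤ ((r1 : ℝ) + 1) * (1 / (4 * ((r1 : ℝ) + 1)) * L t) := by
        refine (Finset.sum_le_sum fun j _ => h6 j).trans (le_of_eq ?_)
        rw [Finset.sum_const, Finset.card_univ, Fintype.card_fin, nsmul_eq_mul]
        push_cast
        ring
      have h9 : ((r1 : ℝ) + 1) * (1 / (4 * ((r1 : ℝ) + 1)) * L t) = 1 / 4 * L t := by
        field_simp
      have h10 : L t = lh t + ∑ j, eta (uq t j) := rfl
      rw [h9] at h8
      linarith
    -- the shorter sum
    obtain ⟨δ', Ψ', k', C', hδ', hΨ'0, hΨ'h, hPP⟩ := ih J1.card hcard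
    obtain ⟨mus, hmus⟩ := gm_surj mu
    have hrep : ∀ᶠ t in (UU : Filter ℕ), ∀ y, mus t * x t y = ∑ j ∈ J1, uq t j * m t j y := by
      refine eventually_all.2 fun y => ?_
      have h1 := hW y
      rw [← hmus, hX] at h1
      simp only at h1
      have h2 : ∀ j, (V j y : GG) * U j = gm (fun t => uq t j * m t j y) := fun j => by
        rw [mul_comm, ← gm_mul]
      rw [Finset.sum_congr rfl fun j _ => h2 j, gm_sum', gm_mul, gm_eq] at h1
      exact h1
    have hmus0 : ∀ᶠ t in (UU : Filter ℕ), mus t ≠ 0 := by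
      rw [← gm_ne_zero, hmus]
      exact hmu0
    have hδt : ∀ᶠ t : ℕ in (UU : Filter ℕ), 1 / ((t : ℝ) + 1) ≤ δ' := by
      apply ev_of_atTop
      have h3 : Tendsto (fun t : ℕ => 1 / ((t : ℝ) + 1)) atTop (𝓝 0) :=
        tendsto_one_div_add_atTop_nhds_zero_nat
      exact (h3.eventually (gt_mem_nhds hδ')).mono fun t ht => ht.le
    have hCt : ∀ᶠ t : ℕ in (UU : Filter ℕ), C' ≤ t :=
      ev_of_atTop (tendsto_natCast_atTop_atTop.eventually_ge_atTop C')
    obtain ⟨t, h1, h2, h3, h4, h5⟩ := (hrep.and (hmus0.and (hδt.and (hCt.and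
      (hgen Ψ' k' hΨ'h hΨ'0))))).exists
    apply hviol t
    have h6 : Short b J1.card B δ' (x t) := by
      let eJ := (J1.equivFin).symm
      refine ⟨mus t, fun i => uq t (eJ i), fun i => m t (eJ i), h2, fun i => huqSU t _, ?_, ?_⟩
      · intro i y
        refine (hm t (eJ i) y).trans ?_
        refine mul_le_mul_of_nonneg_left ?_ (by linarith)
        exact Real.rpow_le_rpow_of_exponent_le (hHpos t) h3
      · intro y
        rw [h1 y, ← Finset.sum_coe_sort J1 (fun j => uq t j * (m t j y : ℚ)),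
          ← Equiv.sum_comp eJ]
    have h7 := hPP (x t) (hprim t) (hGx t) h6 h5
    intro AA hAA hGA
    have h8 := h7 AA hAA hGA
    linarith

/-- the statement for all numbers of terms -/
theorem all_PP {s g q w ν n sc : ℕ} (b : Fin s → ℕ) (hb : ∀ v, (b v).Prime)
    (hbi : Function.Injective b) (hν : ν = n + sc) (Gp : Fin g → MvPolynomial (Fin ν) ℤ)
    (e : Fin g → ℕ) (hGh : ∀ a, (Gp a).IsHomogeneous (e a))
    (F : Fin q → Fin w → MvPolynomial (Fin ν) ℤ) (d : Fin q → Fin w → ℕ)
    (hFh : ∀ i j, (F i j).IsHomogeneous (d i j)) (hnc : NCf ℂ sc Gp F) (J0 : Fin n → Fin ν)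
    (B : ℝ) (hB : 1 ≤ B) (ε : ℝ) (hε : 0 < ε) (r : ℕ) : PP b Gp F d J0 B ε r := by
  induction r using Nat.strong_induction_on with
  | _ r ih => exact step_PP b hb hbi hν Gp e hGh F d hFh hnc J0 B hB ε hε r ih

end Pool.Agent.Y724.Vj
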